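import Pool.Agent.Helper609_TT.Defs

/-!
# Locally affine points
-/

namespace Pool.Agent.Helper609_TT

open CategoryTheory CategoryTheory.Limits CategoryTheory.Pretriangulated
open CategoryTheory.MonoidalCategory

universe v u

section

variable {C : Type u} [Category.{v} C] [Preadditive C] [HasZeroObject C]
    [HasShift C ℤ] [∀ n : ℤ, (shiftFunctor C n).Additive] [Pretriangulated C]
    [MonoidalCategory C] [SymmetricCategory C] [RigidlyCompactlyGenerated C]

/-- The local category at the prime `P` (the objects annihilated by the objects of `P`) is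
affine, with connective and bounded unit: let `e ⟶ 𝟙 ⟶ O ⟶ e⟦1⟧` be the idempotent triangle of
the thick ideal `P` (so `e` lies in the localizing ideal generated by `P`, and `O` is right
orthogonal to `P`), so that `O` is the unit of the local category; then the local category is
generated by its unit, and `Hom(𝟙⟦n⟧, O)` vanishes for `n < 0` and for large `n`. -/
def LocallyAffineAt (P : Spc C) : Prop :=
  ∃ (e O : C) (a : e ⟶ 𝟙_ C) (b : 𝟙_ C ⟶ O) (d : O ⟶ e⟦(1 : ℤ)⟧),
    Triangle.mk a b d ∈ distTriang C ∧ locIdeal P.1 e ∧ (∀ w : C, P.1 w → ∀ φ : w ⟶ O, φ = 0) ∧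
    (∀ X : C, (∀ w : C, P.1 w → IsZero (w ⊗ X)) →
      (∀ (n : ℤ) (φ : (𝟙_ C)⟦n⟧ ⟶ X), φ = 0) → IsZero X) ∧
    (∀ n : ℤ, n < 0 → ∀ φ : (𝟙_ C)⟦n⟧ ⟶ O, φ = 0) ∧
    ∃ N : ℤ, ∀ n : ℤ, N < n → ∀ φ : (𝟙_ C)⟦n⟧ ⟶ O, φ = 0

variable (C) in
/-- The tensor product formula `Supp(s ⊗ t) = Supp(s) ∩ Supp(t)` (the inclusion `⊆` always
holds): if `P` lies in the supports of `s` and of `t`, then it lies in the support of `s ⊗ t`. -/
def TensorProductFormula : Prop :=
  ∀ (P : Spc C) (g : C), IsBalmerFavi P g → ∀ s t : C, ¬ IsZero (g ⊗ s) → ¬ IsZero (g ⊗ t) →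
    ¬ IsZero (g ⊗ (s ⊗ t))

end

end Pool.Agent.Helper609_TT
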