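import Mathlib

/-!
# Classes of modules closed under direct sums, extensions and infinite resolutions
-/

namespace Pool.Agent.Helper609_TT

universe v

variable {R : Type v} [Ring R]

/-- closure properties of a class of modules -/
structure IsGood (D : ModuleCat.{v} R → Prop) : Prop where
  iso : ∀ {M N : ModuleCat.{v} R}, (M ≃ₗ[R] N) → D M → D N
  sum : ∀ (J : Type v) (N : J → ModuleCat.{v} R), (∀ j, D (N j)) →
    D (ModuleCat.of R (Π₀ j, N j))
  ext : ∀ (N : ModuleCat.{v} R) (A : Submodule R N), D (ModuleCat.of R A) →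
    D (ModuleCat.of R (N ⧸ A)) → D N
  res : ∀ U : ModuleCat.{v} R → Prop,
    (∀ N, U N → ∃ (F : ModuleCat.{v} R) (f : F →ₗ[R] N), D F ∧ Function.Surjective f ∧
      U (ModuleCat.of R (LinearMap.ker f))) → ∀ N, U N → D N

/-- directed unions of submodules in `D` -/
def DirU (D : ModuleCat.{v} R → Prop) (N : ModuleCat.{v} R) : Prop :=
  ∃ (ι : Type v) (_ : Nonempty ι) (A : ι → Submodule R N), Directed (· ≤ ·) A ∧
    (∀ x : N, ∃ i, x ∈ A i) ∧ ∀ i, D (ModuleCat.of R (A i))

lemma dirU_step {D : ModuleCat.{v} R → Prop} (hD : IsGood D) {N : ModuleCat.{v} R}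
    (h : DirU D N) : ∃ (F : ModuleCat.{v} R) (f : F →ₗ[R] N), D F ∧ Function.Surjective f ∧
      DirU D (ModuleCat.of R (LinearMap.ker f)) := by
  classical
  obtain ⟨ι, hι, A, hdir, hcov, hA⟩ := h
  let f : (Π₀ i, A i) →ₗ[R] N := DFinsupp.lsum ℕ (fun i => (A i).subtype)
  have hf : ∀ (i : ι) (x : A i), f (DFinsupp.single i x) = x := fun i x => by
    simp only [f, DFinsupp.lsum_single, Submodule.subtype_apply]
  refine ⟨ModuleCat.of R (Π₀ i, A i), f, hD.sum ι (fun i => ModuleCat.of R (A i)) hA, ?_, ?_⟩
  · intro x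
    obtain ⟨i, hi⟩ := hcov x
    exact ⟨DFinsupp.single i ⟨x, hi⟩, hf i ⟨x, hi⟩⟩
  · let B : ι → Submodule R (LinearMap.ker f) := fun j =>
      { carrier := {x | ∀ i, x.1 i ≠ 0 → A i ≤ A j}
        zero_mem' := fun i hi => absurd rfl hi
        add_mem' := fun {x y} hx hy i hi => by
          by_cases h1 : x.1 i = 0
          · by_cases h2 : y.1 i = 0
            · exact absurd (show x.1 i + y.1 i = 0 by rw [h1, h2, add_zero]) hi
            · exact hy i h2
          · exact hx i h1
        smul_mem' := fun r x hx i hi => by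
          by_cases h1 : x.1 i = 0
          · exact absurd (show r • x.1 i = 0 by rw [h1, smul_zero]) hi
          · exact hx i h1 }
    refine ⟨ι, hι, B, ?_, ?_, ?_⟩
    · intro j j'
      obtain ⟨l, hl, hl'⟩ := hdir j j'
      exact ⟨l, fun x hx i hi => (hx i hi).trans hl, fun x hx i hi => (hx i hi).trans hl'⟩
    · intro x
      obtain ⟨j, hj⟩ := hdir.finset_le (DFinsupp.support x.1)
      exact ⟨j, fun i hi => hj i (DFinsupp.mem_support_iff.2 hi)⟩
    · intro j
      let p : ι → Prop := fun i => A i ≤ A j ∧ i ≠ j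
      let g : B j →ₗ[R] (Π₀ i : Subtype p, A i) :=
        (DFinsupp.subtypeDomainLinearMap (γ := R) (β := fun i => A i) p) ∘ₗ
          (LinearMap.ker f).subtype ∘ₗ (B j).subtype
      have hg : ∀ (x : B j) (i : Subtype p), g x i = x.1.1 i := fun x i => rfl
      have hinj : Function.Injective g := by
        intro x y hxy
        let z : Π₀ i, A i := x.1.1 - y.1.1
        have hz : f z = 0 := by
          have hx0 : f x.1.1 = 0 := x.1.2
          have hy0 : f y.1.1 = 0 := y.1.2
          simp only [z, map_sub, hx0, hy0, sub_self]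
        have h1 : ∀ i, i ≠ j → z i = 0 := by
          intro i hi
          change x.1.1 i - y.1.1 i = 0
          by_cases hij : A i ≤ A j
          · have h2 : g x ⟨i, hij, hi⟩ = g y ⟨i, hij, hi⟩ := by rw [hxy]
            rw [hg, hg] at h2
            rw [sub_eq_zero]
            exact h2
          · have h2 : x.1.1 i = 0 := by
              by_contra hne
              exact hij (x.2 i hne)
            have h3 : y.1.1 i = 0 := by
              by_contra hne
              exact hij (y.2 i hne)
            rw [h2, h3, sub_zero]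
        have h2 : z = DFinsupp.single j (z j) := by
          ext i : 1
          by_cases hi : i = j
          · subst hi
            rw [DFinsupp.single_eq_same]
          · rw [h1 i hi, DFinsupp.single_eq_of_ne hi]
        have h3 : ((z j : A j) : N) = 0 := by
          rw [← hf, ← h2, hz]
        have h4 : z = 0 := by
          rw [h2, Subtype.ext h3 (a1 := z j) (a2 := 0), DFinsupp.single_zero]
        exact Subtype.ext (Subtype.ext (sub_eq_zero.1 h4))
      have hsurj : Function.Surjective g := by
        intro y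
        induction y using DFinsupp.induction with
        | h0 => exact ⟨0, map_zero g⟩
        | ha k a y _ _ ih =>
          obtain ⟨x, rfl⟩ := ih
          obtain ⟨i, hi, hij⟩ := k
          let z : Π₀ i, A i := DFinsupp.single i a - DFinsupp.single j ⟨a.1, hi a.2⟩
          have hz : f z = 0 := by
            simp only [z, map_sub, hf, sub_self]
          have hzB : (⟨z, hz⟩ : LinearMap.ker f) ∈ B j := by
            intro l hl
            by_cases h1 : l = i
            · rw [h1]; exact hi
            · by_cases h2 : l = j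
              · rw [h2]
              · exfalso
                apply hl
                change (DFinsupp.single i a - DFinsupp.single j ⟨a.1, hi a.2⟩ : Π₀ i, A i) l = 0
                rw [DFinsupp.sub_apply, DFinsupp.single_eq_of_ne h1,
                  DFinsupp.single_eq_of_ne h2, sub_zero]
          refine ⟨⟨⟨z, hz⟩, hzB⟩ + x, ?_⟩
          rw [map_add]
          congr 1
          ext l : 1
          obtain ⟨l, hl, hlj⟩ := l
          rw [hg]
          change (DFinsupp.single i a - DFinsupp.single j ⟨a.1, hi a.2⟩ : Π₀ i, A i) l = _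
          rw [DFinsupp.sub_apply, DFinsupp.single_eq_of_ne hlj, sub_zero]
          by_cases h1 : l = i
          · subst h1
            rw [DFinsupp.single_eq_same, DFinsupp.single_eq_same]
          · rw [DFinsupp.single_eq_of_ne h1, DFinsupp.single_eq_of_ne]
            intro h2
            exact h1 (congrArg Subtype.val h2)
      exact hD.iso (LinearEquiv.ofBijective g ⟨hinj, hsurj⟩).symm
        (hD.sum (Subtype p) (fun i => ModuleCat.of R (A i.1)) (fun i => hA i.1))

lemma good_of_dirU {D : ModuleCat.{v} R → Prop} (hD : IsGood D) {N : ModuleCat.{v} R}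
    (h : DirU D N) : D N :=
  hD.res (DirU D) (fun _ h => dirU_step hD h) N h

/-- a module each of whose proper submodules `A` admits an element `x ∉ A` with `I • x ≤ A`
lies in `D`, if `D` contains the cyclic modules killed by `I` -/
theorem good_of_socle {D : ModuleCat.{v} R → Prop} (hD : IsGood D) (I : Set R)
    (hk : ∀ (M : ModuleCat.{v} R) (x : M), (∀ y : M, ∃ r : R, y = r • x) →
      (∀ r ∈ I, r • x = 0) → D M)
    (N : ModuleCat.{v} R)
    (h : ∀ A : Submodule R N, A ≠ ⊤ → ∃ x : N, x ∉ A ∧ ∀ r ∈ I, r • x ∈ A) : D N := by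
  classical
  let S : Set (Submodule R N) := {A | D (ModuleCat.of R A)}
  obtain ⟨A, -, hA, hmax⟩ := zorn_le_nonempty₀ S (by
    intro c hc hchain y hy
    refine ⟨sSup c, ?_, fun z hz => le_sSup hz⟩
    refine good_of_dirU hD ⟨c, ⟨⟨y, hy⟩⟩, fun i => i.1.submoduleOf (sSup c), ?_, ?_, ?_⟩
    · intro i j
      rcases hchain.total i.2 j.2 with hij | hij
      · exact ⟨j, fun x hx => hij hx, fun x hx => hx⟩
      · exact ⟨i, fun x hx => hx, fun x hx => hij hx⟩
    · intro x
      obtain ⟨A, hA, hxA⟩ := (Submodule.mem_sSup_of_directed ⟨y, hy⟩ hchain.directedOn).1 x.2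
      exact ⟨⟨A, hA⟩, hxA⟩
    · intro i
      exact hD.iso (Submodule.submoduleOfEquivOfLe (le_sSup i.2)).symm (hc i.2)) ⊥ (by
    refine hk _ 0 (fun y => ⟨0, ?_⟩) (fun r _ => smul_zero r)
    rw [smul_zero]
    exact Subtype.ext ((Submodule.mem_bot R).1 y.2))
  by_cases htop : A = ⊤
  · subst htop
    exact hD.iso (Submodule.topEquiv (R := R) (M := N)) hA
  · exfalso
    obtain ⟨x, hx, hxI⟩ := h A htop
    let B : Submodule R N := A ⊔ Submodule.span R {x}
    have hAB : A ≤ B := le_sup_left
    have hxB : x ∈ B := Submodule.mem_sup_right (Submodule.mem_span_singleton_self x)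
    have hB : D (ModuleCat.of R B) := by
      refine hD.ext (ModuleCat.of R B) (A.submoduleOf B) ?_ ?_
      · exact hD.iso (Submodule.submoduleOfEquivOfLe hAB).symm hA
      · refine hk _ (Submodule.Quotient.mk (p := A.submoduleOf B) ⟨x, hxB⟩) ?_ ?_
        · intro y
          obtain ⟨⟨y, hy⟩, rfl⟩ := Submodule.Quotient.mk_surjective _ y
          obtain ⟨z, hz, w, hw, rfl⟩ := Submodule.mem_sup.1 hy
          obtain ⟨r, rfl⟩ := Submodule.mem_span_singleton.1 hw
          refine ⟨r, ?_⟩
          rw [← Submodule.Quotient.mk_smul, Submodule.Quotient.eq]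
          change (z + r • x) - r • x ∈ A
          rw [add_sub_cancel_right]
          exact hz
        · intro r hr
          rw [← Submodule.Quotient.mk_smul, Submodule.Quotient.mk_eq_zero]
          exact hxI r hr
    exact hx (hmax hB hAB hxB)

lemma exists_basis_mod_comm {R : Type v} [CommRing R] (I : Ideal R) (hI : I.IsMaximal)
    (V : Type v) [AddCommGroup V] [Module R V] (hV : ∀ r ∈ I, ∀ x : V, r • x = 0) :
    ∃ (J : Type v) (β : J → V), (∀ x : V, ∃ (s : Finset J) (r : J → R), x = ∑ j ∈ s, r j • β j) ∧
      ∀ (s : Finset J) (r : J → R), ∑ j ∈ s, r j • β j = 0 → ∀ j ∈ s, r j ∈ I := by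
  letI : Field (R ⧸ I) := Ideal.Quotient.field I
  have htor : Module.IsTorsionBySet R V I := fun x r => hV r.1 r.2 x
  letI : Module (R ⧸ I) V := htor.module
  have hmk : ∀ (r : R) (x : V), (Ideal.Quotient.mk I r) • x = r • x := fun r x => rfl
  let B := Module.Basis.ofVectorSpace (R ⧸ I) V
  refine ⟨_, B, ?_, ?_⟩
  · intro x
    choose l hl using fun c : R ⧸ I => Ideal.Quotient.mk_surjective c
    refine ⟨(B.repr x).support, fun j => l (B.repr x j), ?_⟩
    conv_lhs => rw [← B.linearCombination_repr x]
    rw [Finsupp.linearCombination_apply, Finsupp.sum]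
    refine Finset.sum_congr rfl (fun j _ => ?_)
    rw [← hmk, hl]
  · intro s r h j hj
    have h1 := linearIndependent_iff'.1 B.linearIndependent s
      (fun j => Ideal.Quotient.mk I (r j)) (by simpa only [hmk] using h) j hj
    exact Ideal.Quotient.eq_zero_iff_mem.1 h1

lemma exists_basis_mod {R : Type v} [Ring R] (hR : ∀ r s : R, r * s = s * r) (I : Ideal R)
    (hI : I.IsMaximal) (V : Type v) [AddCommGroup V] [Module R V]
    (hV : ∀ r ∈ I, ∀ x : V, r • x = 0) :
    ∃ (J : Type v) (β : J → V), (∀ x : V, ∃ (s : Finset J) (r : J → R), x = ∑ j ∈ s, r j • β j) ∧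
      ∀ (s : Finset J) (r : J → R), ∑ j ∈ s, r j • β j = 0 → ∀ j ∈ s, r j ∈ I := by
  letI : CommRing R := { (inferInstance : Ring R) with mul_comm := hR }
  exact exists_basis_mod_comm I hI V hV

end Pool.Agent.Helper609_TT
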