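import Pool.Agent.Helper609_TT.Dev

/-!
# Devissage for bounded objects
-/

namespace Pool.Agent.Helper609_TT

open CategoryTheory CategoryTheory.Limits CategoryTheory.Pretriangulated
open CategoryTheory.MonoidalCategory ZeroObject

universe v u u'

section

variable {C : Type u} [Category.{v} C] [Preadditive C] [HasZeroObject C]
    [HasShift C ℤ] [∀ n : ℤ, (shiftFunctor C n).Additive] [Pretriangulated C]

/-- isomorphic objects have isomorphic modules -/
noncomputable def isoL (O : C) {X Y : C} (i : X ≅ Y) : (O ⟶ X) ≃ₗ[(End O)ᵐᵒᵖ] (O ⟶ Y) :=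
  LinearEquiv.ofBijective (postL O i.hom) ⟨fun x y h => by
    have h' : x ≫ i.hom = y ≫ i.hom := h
    rwa [cancel_mono] at h', fun y => ⟨y ≫ i.inv, by
      change (y ≫ i.inv) ≫ i.hom = y
      simp⟩⟩

end

section

variable {C : Type u} [Category.{v} C] [Preadditive C] [HasZeroObject C]
    [HasShift C ℤ] [∀ n : ℤ, (shiftFunctor C n).Additive] [Pretriangulated C]
    [MonoidalCategory C] [SymmetricCategory C] [RigidlyCompactlyGenerated C]

variable {e O : C} {a : e ⟶ 𝟙_ C} {b : 𝟙_ C ⟶ O}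

theorem conn_bdd_mem (hA : AffUnit e O a b) {L : ObjectProperty C} (hL : IsLoc L) (n : ℕ) :
    ∀ X : C, Conn e O X → (∀ k : ℤ, n ≤ k → Vn O k X) →
      (∀ (k : ℤ) (Q : C), Hrt e O Q →
        Nonempty ((O ⟶ Q) ≃ₗ[(End O)ᵐᵒᵖ] (O ⟶ X⟦k⟧)) → L Q) → L X := by
  induction n with
  | zero =>
    intro X hX h _
    apply hL.zero
    apply hA.gen X hX.1
    intro k
    rcases lt_or_ge k 0 with hk | hk
    · exact hX.2 k hk
    · exact h k (by simpa using hk)
  | succ n ih =>
    intro X hX h H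
    obtain ⟨B, Q, p, q, w, hT, hB, hQ⟩ := hX.heart hA
    have hLQ : L Q := by
      refine H 0 Q hQ ⟨?_⟩
      refine (LinearEquiv.ofBijective (postL O q) ⟨?_, ?_⟩).symm ≪≫ₗ
        isoL O ((shiftFunctorZero C ℤ).app X).symm
      · rw [injective_iff_map_eq_zero]
        exact post_inj hT (vn_shift1.2 (hB.2 _ (by norm_num)))
      · exact post_surj hT (vn_shift1.2 (hB.2 _ (by norm_num)))
    have hLB : L B := by
      apply ih B hB
      · intro k hk
        have h1 : Vn O (k + 1) (B⟦(1 : ℤ)⟧) :=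
          vn_ext₁ _ hT (hQ.2.2 _ (by omega)) (h _ (by push_cast; omega))
        exact (vn_shift (by ring)).1 h1
      · rintro k Q' hQ' ⟨g⟩
        rcases lt_or_ge 0 k with hk | hk
        · apply hL.zero
          apply hA.gen Q' hQ'.1.1
          intro l
          rcases lt_trichotomy l 0 with hl | hl | hl
          · exact hQ'.1.2 l hl
          · subst hl
            rw [vn_zero]
            intro φ
            apply g.injective
            rw [map_zero]
            exact vn_zero.1 ((vn_shift (m := -k) (by ring)).2 (hB.2 _ (by omega))) _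
          · exact hQ'.2.2 l hl
        · refine H (k - 1) Q' hQ' ⟨g ≪≫ₗ isoL O ((shiftFunctorAdd' C 1 (k - 1) k (by ring)).app B)
            ≪≫ₗ ?_⟩
          have hT2 := Triangle.shift_distinguished _ hT (k - 1)
          have h3 : ∃ (u : (B⟦(1 : ℤ)⟧)⟦k - 1⟧ ⟶ X⟦k - 1⟧) (v : X⟦k - 1⟧ ⟶ Q⟦k - 1⟧)
              (w : Q⟦k - 1⟧ ⟶ ((B⟦(1 : ℤ)⟧)⟦k - 1⟧)⟦(1 : ℤ)⟧), Triangle.mk u v w ∈ distTriang C :=
            ⟨_, _, _, hT2⟩
          choose u v w hT3 using h3
          refine LinearEquiv.ofBijective (postL O u) ⟨?_, ?_⟩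
          · rw [injective_iff_map_eq_zero]
            exact post_inj₁ hT3 ((vn_shift (m := 2 - k) (by ring)).2 (hQ.2.2 _ (by omega)))
          · intro y
            have h4 : y ≫ v = 0 :=
              vn_zero.1 ((vn_shift (m := 1 - k) (by ring)).2 (hQ.2.2 _ (by omega))) _
            obtain ⟨x, hx⟩ : ∃ x : O ⟶ (B⟦(1 : ℤ)⟧)⟦k - 1⟧, y = x ≫ u :=
              Triangle.coyoneda_exact₂ _ hT3 y h4
            exact ⟨x, hx.symm⟩
    exact hL.ext₂ _ hT (hL.shift _ _ hLB) hLQ

/-- a bounded object of the local category whose homotopy modules come from objects of the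
heart in a localizing subcategory lies in this localizing subcategory -/
theorem bdd_mem (hA : AffUnit e O a b) {L : ObjectProperty C} (hL : IsLoc L) {X : C}
    (hX : Ann e X) {lo hi : ℤ} (h1 : ∀ k : ℤ, k < lo → Vn O k X) (h2 : ∀ k : ℤ, hi < k → Vn O k X)
    (H : ∀ (k : ℤ) (Q : C), Hrt e O Q →
        Nonempty ((O ⟶ Q) ≃ₗ[(End O)ᵐᵒᵖ] (O ⟶ X⟦k⟧)) → L Q) : L X := by
  apply hL.unshift (-lo)
  obtain ⟨n, hn⟩ : ∃ n : ℕ, hi - lo < n := ⟨(hi - lo + 1).toNat, by omega⟩
  refine conn_bdd_mem hA hL n _ ⟨(isLocIdeal_ann e).shift _ _ hX, fun k hk => ?_⟩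
    (fun k hk => ?_) (fun k Q hQ => ?_)
  · exact (vn_shift (m := k + lo) (by ring)).2 (h1 _ (by omega))
  · exact (vn_shift (m := k + lo) (by ring)).2 (h2 _ (by omega))
  · rintro ⟨g⟩
    exact H (-lo + k) Q hQ ⟨g ≪≫ₗ isoL O ((shiftFunctorAdd' C (-lo) k (-lo + k) rfl).app X).symm⟩

end

end Pool.Agent.Helper609_TT
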