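import Pool.Agent.Helper609_TT.Loc

/-!
# Finite localizations and Neeman's lemma
-/

namespace Pool.Agent.Helper609_TT

open CategoryTheory CategoryTheory.Limits CategoryTheory.Pretriangulated
open CategoryTheory.MonoidalCategory

universe v u u'

section

variable {C : Type u} [Category.{v} C] [Preadditive C] [HasZeroObject C]
    [HasShift C ℤ] [∀ n : ℤ, (shiftFunctor C n).Additive] [Pretriangulated C]
    [MonoidalCategory C] [SymmetricCategory C] [RigidlyCompactlyGenerated C]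

lemma bous_step {I : Type v} (G : I → C) {X : C} (s : Σ e : C, (e ⟶ X)) :
    ∃ (s' : Σ e : C, (e ⟶ X)) (φ : s.1 ⟶ s'.1), φ ≫ s'.2 = s.2 ∧
      (∀ i (α : G i ⟶ s.1), α ≫ s.2 = 0 → α ≫ φ = 0) ∧
      (∀ L : ObjectProperty C, IsLoc L → (∀ i, L (G i)) → L s.1 → L s'.1) := by
  obtain ⟨e, p⟩ := s
  let J : Type v := Σ i : I, {α : G i ⟶ e // α ≫ p = 0}
  let m : (∐ fun j : J => G j.1) ⟶ e := Sigma.desc (fun j : J => j.2.1)
  have hm : m ≫ p = 0 := by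
    apply Sigma.hom_ext
    intro j
    simp [m, j.2.2]
  obtain ⟨e', φ, δ, hT⟩ := distinguished_cocone_triangle m
  obtain ⟨p', hp'⟩ : ∃ p' : e' ⟶ X, p = φ ≫ p' := Triangle.yoneda_exact₂ _ hT p hm
  refine ⟨⟨e', p'⟩, φ, hp'.symm, ?_, ?_⟩
  · intro i α hα
    have h1 : α = Sigma.ι (fun j : J => G j.1) ⟨i, α, hα⟩ ≫ m := by simp [m]
    have h2 : m ≫ φ = 0 := comp_distTriang_mor_zero₁₂ _ hT
    rw [h1, Category.assoc, h2, comp_zero]
  · intro L hL hG he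
    exact hL.ext₃ _ hT (hL.coprod _ _ (fun j => hG j.1)) he

/-- Bousfield localization with respect to a small set of compact objects closed under shifts. -/
theorem exists_bousfield {I : Type v} (G : I → C) (hG : ∀ i, IsCpt (G i))
    (hs : ∀ i (n : ℤ), ∃ j, Nonempty ((G i)⟦n⟧ ≅ G j)) (X : C) :
    ∃ (e f : C) (a : e ⟶ X) (b : X ⟶ f) (d : f ⟶ e⟦(1 : ℤ)⟧),
      Triangle.mk a b d ∈ distTriang C ∧
      (∀ L : ObjectProperty C, IsLoc L → (∀ i, L (G i)) → L e) ∧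
      ∀ i (φ : G i ⟶ f), φ = 0 := by
  classical
  choose nx φ h1 h2 h3 using bous_step (C := C) G (X := X)
  let J : Type v := Σ i : I, (G i ⟶ X)
  let s0 : Σ e : C, (e ⟶ X) := ⟨∐ fun j : J => G j.1, Sigma.desc (fun j : J => j.2)⟩
  let sq : ℕ → Σ e : C, (e ⟶ X) := fun n => nx^[n] s0
  have hsq : ∀ n, sq (n + 1) = nx (sq n) := fun n => Function.iterate_succ_apply' nx n s0
  let F : ℕ → C := fun n => (sq n).1
  let tr : ∀ n, F n ⟶ F (n + 1) := fun n => φ (sq n) ≫ eqToHom (by simp only [F, hsq])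
  have aux : ∀ (s s' : Σ e : C, (e ⟶ X)) (h : s = s'),
      eqToHom (by rw [h]) ≫ s'.2 = s.2 := by
    rintro s _ rfl
    simp
  have htr1 : ∀ n, tr n ≫ (sq (n + 1)).2 = (sq n).2 := by
    intro n
    simp only [tr, Category.assoc]
    rw [aux _ _ (hsq n).symm, h1]
  have htr2 : ∀ n i (α : G i ⟶ F n), α ≫ (sq n).2 = 0 → α ≫ tr n = 0 := by
    intro n i α hα
    simp only [tr, ← Category.assoc]
    rw [h2 _ _ _ hα, zero_comp]
  have hF : ∀ L : ObjectProperty C, IsLoc L → (∀ i, L (G i)) → ∀ n, L (F n) := by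
    intro L hL hGL n
    induction n with
    | zero => exact hL.coprod _ _ (fun j => hGL j.1)
    | succ n ih =>
      have := h3 _ L hL hGL ih
      simpa only [F, hsq] using this
  obtain ⟨H, ι, hι, hext, hcpt, hloc⟩ := exists_hocolim F tr
  obtain ⟨a, ha⟩ := hext X (fun n => (sq n).2) htr1
  obtain ⟨f, b, d, hT⟩ := distinguished_cocone_triangle a
  refine ⟨H, f, a, b, d, hT, fun L hL hGL => hloc L hL (hF L hL hGL), ?_⟩
  -- injectivity
  have hinj : ∀ i (α : G i ⟶ H), α ≫ a = 0 → α = 0 := by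
    intro i α hα
    obtain ⟨n, α', rfl⟩ := hcpt _ (hG i) α
    rw [Category.assoc, ha] at hα
    rw [← hι n, ← Category.assoc, htr2 n i α' hα, zero_comp]
  -- surjectivity
  have hsurj : ∀ i (β : G i ⟶ X), ∃ α : G i ⟶ H, α ≫ a = β := by
    intro i β
    obtain ⟨α, hα⟩ : ∃ α : G i ⟶ F 0, α ≫ (sq 0).2 = β :=
      ⟨Sigma.ι (fun j : J => G j.1) ⟨i, β⟩, Sigma.ι_desc _ _⟩
    exact ⟨α ≫ ι 0, by rw [Category.assoc, ha, hα]⟩
  intro i ψ
  have hz : ∀ (ψ' : G i ⟶ H⟦(1 : ℤ)⟧), ψ' ≫ a⟦(1 : ℤ)⟧' = 0 → ψ' = 0 := by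
    intro ψ' hψ'
    let adj : shiftFunctor C (-1 : ℤ) ⊣ shiftFunctor C (1 : ℤ) :=
      (shiftEquiv' C (-1 : ℤ) 1 (by norm_num)).toAdjunction
    obtain ⟨j, ⟨ej⟩⟩ := hs i (-1)
    have h1' : (ej.inv ≫ (adj.homEquiv _ _).symm ψ') ≫ a = 0 := by
      rw [Category.assoc, ← adj.homEquiv_naturality_right_symm, hψ']
      rw [show (adj.homEquiv (G i) X).symm 0 = 0 from (adj.homAddEquiv _ _).symm.map_zero,
        comp_zero]
    have h2' := hinj j _ h1'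
    have h3' : (adj.homEquiv _ _).symm ψ' = 0 := by
      rw [← cancel_epi ej.inv, h2', comp_zero]
    exact (adj.homAddEquiv _ _).symm.injective
      (h3'.trans (adj.homAddEquiv _ _).symm.map_zero.symm)
  have h31 : d ≫ a⟦(1 : ℤ)⟧' = 0 := comp_distTriang_mor_zero₃₁ _ hT
  have hd : ψ ≫ d = 0 := hz _ (by rw [Category.assoc, h31, comp_zero])
  obtain ⟨β, hβ⟩ : ∃ β : G i ⟶ X, ψ = β ≫ b := Triangle.coyoneda_exact₃ _ hT ψ hd
  obtain ⟨α, hα⟩ := hsurj i β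
  have hab : a ≫ b = 0 := comp_distTriang_mor_zero₁₂ _ hT
  rw [hβ, ← hα, Category.assoc, hab, comp_zero]

/-- Idempotent triangle of a thick tensor ideal. -/
structure IsIdem (K : ObjectProperty C) (e f : C) (a : e ⟶ 𝟙_ C) (b : 𝟙_ C ⟶ f) : Prop where
  tri : ∃ d : f ⟶ e⟦(1 : ℤ)⟧, Triangle.mk a b d ∈ distTriang C
  loc : ∀ L : ObjectProperty C, IsLoc L → (∀ w, K w → L w) → L e
  orth : ∀ w, K w → ∀ φ : w ⟶ f, φ = 0

lemma IsThickIdeal.iso {K : ObjectProperty C} (hK : IsThickIdeal K) {X Y : C} (e : X ≅ Y)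
    (h : K X) : K Y :=
  hK.retract ⟨e.inv, e.hom, by simp⟩ h

lemma IsThickIdeal.tensor' {K : ObjectProperty C} (hK : IsThickIdeal K) {X Y : C} (hX : K X)
    (hY : IsCpt Y) : K (X ⊗ Y) :=
  hK.iso (β_ Y X) (hK.tensor Y X hY hX)

lemma IsThickIdeal.ext₁ {K : ObjectProperty C} (hK : IsThickIdeal K) (T : Triangle C)
    (hT : T ∈ distTriang C) (h₂ : K T.obj₂) (h₃ : K T.obj₃) : K T.obj₁ :=
  hK.ext₂ _ (inv_rot_of_distTriang _ hT) (hK.shift _ (-1) h₃) h₂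

lemma IsThickIdeal.ext₃ {K : ObjectProperty C} (hK : IsThickIdeal K) (T : Triangle C)
    (hT : T ∈ distTriang C) (h₁ : K T.obj₁) (h₂ : K T.obj₂) : K T.obj₃ :=
  hK.ext₂ _ (rot_of_distTriang _ hT) h₂ (hK.shift _ 1 h₁)

/-- thick ideals are radical -/
lemma IsThickIdeal.radical {K : ObjectProperty C} (hK : IsThickIdeal K) {a : C} (ha : IsCpt a)
    (h : K (a ⊗ a)) : K a := by
  obtain ⟨a', ha', ⟨i1⟩, _⟩ := exists_dual ha
  refine hK.retract (retractTriple a a') ?_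
  refine hK.iso ?_ (hK.tensor a' _ ha' h)
  exact (α_ a' a a).symm ≪≫ whiskerRightIso (β_ a' a) a ≪≫ α_ a a' a

/-- thick ideals are closed under duals -/
lemma IsThickIdeal.dual {K : ObjectProperty C} (hK : IsThickIdeal K) {a a' : C}
    [ExactPairing a' a] (ha' : IsCpt a') (h : K a) : K a' := by
  refine hK.retract (retractTriple a' a) ?_
  exact hK.tensor _ _ ha' (hK.tensor' h ha')

theorem exists_idem {K : ObjectProperty C} (hK : IsThickIdeal K) :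
    ∃ (e f : C) (a : e ⟶ 𝟙_ C) (b : 𝟙_ C ⟶ f), IsIdem K e f a b := by
  obtain ⟨I, G, hG, hGs⟩ := RigidlyCompactlyGenerated.small (C := C)
  let I' : Type v := {i : I // K (G i)}
  obtain ⟨e, f, a, b, d, hT, hloc, horth⟩ := exists_bousfield (fun i : I' => G i.1)
    (fun i => hG i.1) (fun i n => by
      obtain ⟨j, ⟨ej⟩⟩ := hGs ((G i.1)⟦n⟧) (isCpt_shift (hG i.1) n)
      exact ⟨⟨j, hK.iso ej (hK.shift _ n i.2)⟩, ⟨ej⟩⟩) (𝟙_ C)
  refine ⟨e, f, a, b, ⟨d, hT⟩, fun L hL hKL => hloc L hL (fun i => hKL _ i.2), ?_⟩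
  intro w hw φ
  obtain ⟨j, ⟨ej⟩⟩ := hGs w (hK.cpt hw)
  have := horth ⟨j, hK.iso ej hw⟩ (ej.inv ≫ φ)
  rw [← cancel_epi ej.inv, this, comp_zero]

lemma isZero_of_forall_cpt {X : C} (h : ∀ c : C, IsCpt c → ∀ f : c ⟶ X, f = 0) : IsZero X :=
  RigidlyCompactlyGenerated.generated X h

/-- objects right orthogonal to a thick ideal are annihilated by it -/
lemma isZero_tensor_of_orth {K : ObjectProperty C} (hK : IsThickIdeal K) {f : C}
    (horth : ∀ w, K w → ∀ φ : w ⟶ f, φ = 0) {w : C} (hw : K w) : IsZero (w ⊗ f) := by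
  obtain ⟨w', hw', ⟨i1⟩, ⟨i2⟩⟩ := exists_dual (hK.cpt hw)
  apply isZero_of_forall_cpt
  intro c hc φ
  have hKw' : K w' := hK.dual hw' hw
  have h1 : K (w' ⊗ c) := hK.tensor' hKw' hc
  have h2 := horth _ h1 ((tensorLeftHomEquiv c w w' f).symm φ)
  rw [← (tensorLeftHomEquiv c w w' f).apply_symm_apply φ, h2]
  have h3 : w ◁ (0 : w' ⊗ c ⟶ f) = 0 := (tensorLeft w).map_zero _ _
  change (λ_ _).inv ≫ _ ▷ _ ≫ (α_ _ _ _).hom ≫ w ◁ (0 : w' ⊗ c ⟶ f) = 0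
  rw [h3]
  simp

namespace IsIdem

variable {K : ObjectProperty C} {e f : C} {a : e ⟶ 𝟙_ C} {b : 𝟙_ C ⟶ f}

lemma kill (h : IsIdem K e f a b) (hK : IsThickIdeal K) {w : C} (hw : K w) : IsZero (w ⊗ f) :=
  isZero_tensor_of_orth hK h.orth hw

lemma kill' (h : IsIdem K e f a b) (hK : IsThickIdeal K) {w : C} (hw : K w) : Ann f w :=
  ann_symm (h.kill hK hw)

lemma ef (h : IsIdem K e f a b) (hK : IsThickIdeal K) : Ann f e :=
  h.loc _ (isLocIdeal_ann f).toIsLoc (fun _ hw => h.kill' hK hw)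

/-- if `f ⊗ x = 0` then `x ⊗ e ≅ x` -/
lemma iso_left (h : IsIdem K e f a b) {x : C} (hx : Ann f x) : Nonempty (x ⊗ e ≅ x) := by
  obtain ⟨d, hT⟩ := h.tri
  have hT' := (tensorLeft x).map_distinguished _ hT
  have h0 : IsZero (x ⊗ f) := ann_symm hx
  have : IsIso (x ◁ a) := (Triangle.isZero₃_iff_isIso₁ _ hT').1 h0
  exact ⟨asIso (x ◁ a) ≪≫ ρ_ x⟩

/-- if `e ⊗ x = 0` then `x ≅ x ⊗ f` -/
lemma iso_right (h : IsIdem K e f a b) {x : C} (hx : Ann e x) : Nonempty (x ≅ x ⊗ f) := by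
  obtain ⟨d, hT⟩ := h.tri
  have hT' := (tensorLeft x).map_distinguished _ hT
  have h0 : IsZero (x ⊗ e) := ann_symm hx
  have : IsIso (x ◁ b) := (Triangle.isZero₁_iff_isIso₂ _ hT').1 h0
  exact ⟨(ρ_ x).symm ≪≫ asIso (x ◁ b)⟩

end IsIdem

/-! ## Neeman's lemma -/

/-- morphisms factoring through `K` -/
def Fac (K : ObjectProperty C) {c X : C} (f : c ⟶ X) : Prop :=
  ∃ (w : C) (a : c ⟶ w) (b : w ⟶ X), K w ∧ f = a ≫ b

lemma IsThickIdeal.biprod {K : ObjectProperty C} (hK : IsThickIdeal K) {X Y : C} (hX : K X)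
    (hY : K Y) : K (X ⊞ Y) :=
  hK.ext₂ _ (binaryBiproductTriangle_distinguished X Y) hX hY

lemma Fac.add {K : ObjectProperty C} (hK : IsThickIdeal K) {c X : C} {f g : c ⟶ X}
    (hf : Fac K f) (hg : Fac K g) : Fac K (f + g) := by
  obtain ⟨w, a, b, hw, rfl⟩ := hf
  obtain ⟨w', a', b', hw', rfl⟩ := hg
  exact ⟨w ⊞ w', biprod.lift a a', biprod.desc b b', hK.biprod hw hw', by simp⟩

lemma Fac.zero {K : ObjectProperty C} (hK : IsThickIdeal K) {c X : C} : Fac K (0 : c ⟶ X) := by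
  obtain ⟨z, hz⟩ := HasZeroObject.zero (C := C)
  exact ⟨z, 0, 0, hK.zero z hz, by simp⟩

lemma Fac.comp {K : ObjectProperty C} {c c' X X' : C} {f : c ⟶ X} (h : Fac K f) (u : c' ⟶ c)
    (v : X ⟶ X') : Fac K (u ≫ f ≫ v) := by
  obtain ⟨w, a, b, hw, rfl⟩ := h
  exact ⟨w, u ≫ a, b ≫ v, hw, by simp⟩

lemma Fac.sum {K : ObjectProperty C} (hK : IsThickIdeal K) {c X : C} {J : Type*} (s : Finset J)
    (f : J → (c ⟶ X)) (h : ∀ j ∈ s, Fac K (f j)) : Fac K (∑ j ∈ s, f j) := by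
  classical
  induction s using Finset.induction_on with
  | empty => simpa using Fac.zero hK
  | insert a s ha ih =>
    rw [Finset.sum_insert ha]
    exact (h a (Finset.mem_insert_self a s)).add hK
      (ih (fun k hk => h k (Finset.mem_insert_of_mem hk)))

/-- every morphism from a compact object factors through `K` -/
def AllFac (K : ObjectProperty C) : ObjectProperty C :=
  fun X => ∀ c : C, IsCpt c → ∀ f : c ⟶ X, Fac K f

lemma allFac_shift {K : ObjectProperty C} (hK : IsThickIdeal K) {X : C} (n : ℤ)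
    (h : AllFac K X) : AllFac K (X⟦n⟧) := by
  intro c hc f
  let adj : shiftFunctor C (-n : ℤ) ⊣ shiftFunctor C n :=
    (shiftEquiv' C (-n : ℤ) n (by simp)).toAdjunction
  obtain ⟨w, a, b, hw, hab⟩ := h _ (isCpt_shift hc (-n)) ((adj.homEquiv _ _).symm f)
  refine ⟨w⟦n⟧, adj.homEquiv _ _ a, b⟦n⟧', hK.shift _ n hw, ?_⟩
  rw [← adj.homEquiv_naturality_right, ← hab, Equiv.apply_symm_apply]

lemma isLoc_allFac {K : ObjectProperty C} (hK : IsThickIdeal K) : IsLoc (AllFac K) where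
  iso {X Y} i h c hc f := by
    have := (h c hc (f ≫ i.inv)).comp (𝟙 _) i.hom
    simpa using this
  shift X n h := allFac_shift hK n h
  coprod J X h c hc f := by
    obtain ⟨s, g, rfl⟩ := hc J X f
    refine Fac.sum hK _ _ (fun j _ => ?_)
    have := (h j c hc (g j)).comp (𝟙 _) (Sigma.ι X j)
    simpa using this
  ext₂ T hT h₁ h₃ c hc f := by
    obtain ⟨X₁, X₂, X₃, g₁, g, g₃⟩ := T
    change c ⟶ X₂ at f
    change AllFac K X₁ at h₁
    change AllFac K X₃ at h₃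
    obtain ⟨w₃, a, b, hw₃, hab⟩ := h₃ c hc (f ≫ g)
    have h₁' : AllFac K (X₁⟦(1 : ℤ)⟧) := allFac_shift hK 1 h₁
    obtain ⟨w, p, q, hw, hpq⟩ := h₁' w₃ (hK.cpt hw₃) (b ≫ g₃)
    have h23 : g ≫ g₃ = 0 := comp_distTriang_mor_zero₂₃ _ hT
    -- `a ≫ p ≫ q = 0`
    have h0 : (a ≫ p) ≫ q = 0 := by
      rw [Category.assoc, ← hpq, ← Category.assoc, ← hab, Category.assoc, h23, comp_zero]
    obtain ⟨z, r, s, hT2⟩ := distinguished_cocone_triangle (a ≫ p)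
    have hzc : IsCpt z := isCpt_ext₃ _ hT2 hc (hK.cpt hw)
    obtain ⟨q', hq'⟩ : ∃ q' : z ⟶ X₁⟦(1 : ℤ)⟧, q = r ≫ q' :=
      Triangle.yoneda_exact₂ _ hT2 q h0
    obtain ⟨w', t, q'', hw', htq⟩ := h₁' z hzc q'
    have hr0 : (a ≫ p) ≫ r = 0 := comp_distTriang_mor_zero₁₂ _ hT2
    -- the new map `w₃ ⟶ w'`
    have hap : a ≫ (p ≫ r ≫ t) = 0 := by
      rw [← Category.assoc, ← Category.assoc, hr0, zero_comp]
    have hb' : (p ≫ r ≫ t) ≫ q'' = b ≫ g₃ := by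
      rw [hpq, hq', htq]; simp
    obtain ⟨w₂, m, k, hT3⟩ := distinguished_cocone_triangle₁ (p ≫ r ≫ t)
    have hw₂ : K w₂ := hK.ext₁ _ hT3 hw₃ hw'
    obtain ⟨a₂, ha₂⟩ : ∃ a₂ : c ⟶ w₂, a = a₂ ≫ m := Triangle.coyoneda_exact₂ _ hT3 a hap
    have hk0 : (p ≫ r ≫ t) ≫ k = 0 := comp_distTriang_mor_zero₂₃ _ hT3
    -- lift `m ≫ b` to `X₂`
    have hmb : (m ≫ b) ≫ g₃ = 0 := by
      have hm0 : m ≫ (p ≫ r ≫ t) = 0 := comp_distTriang_mor_zero₁₂ _ hT3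
      rw [Category.assoc, ← hb', ← Category.assoc, hm0, zero_comp]
    obtain ⟨r₂, hr₂⟩ : ∃ r₂ : w₂ ⟶ X₂, m ≫ b = r₂ ≫ g :=
      Triangle.coyoneda_exact₃ _ hT (m ≫ b) hmb
    have hdiff : (f - a₂ ≫ r₂) ≫ g = 0 := by
      rw [Preadditive.sub_comp, Category.assoc, ← hr₂, ← Category.assoc, ← ha₂, hab, sub_self]
    obtain ⟨l, hl⟩ : ∃ l : c ⟶ X₁, f - a₂ ≫ r₂ = l ≫ g₁ :=
      Triangle.coyoneda_exact₂ _ hT (f - a₂ ≫ r₂) hdiff
    have hfin : f = l ≫ g₁ + a₂ ≫ r₂ := by rw [← hl, sub_add_cancel]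
    change Fac K f
    rw [hfin]
    refine Fac.add hK ?_ ⟨w₂, a₂, r₂, hw₂, rfl⟩
    have := (h₁ c hc l).comp (𝟙 _) g₁
    simpa using this

lemma allFac_of_mem {K : ObjectProperty C} {X : C} (hX : K X) : AllFac K X :=
  fun _ _ f => ⟨X, f, 𝟙 _, hX, by simp⟩

/-- a compact object all of whose ... factors through `K` lies in `K` -/
lemma mem_of_allFac {K : ObjectProperty C} (hK : IsThickIdeal K) {X : C} (hX : IsCpt X)
    (h : AllFac K X) : K X := by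
  obtain ⟨w, a, b, hw, hab⟩ := h X hX (𝟙 X)
  exact hK.retract ⟨a, b, hab.symm⟩ hw

/-- Neeman's lemma: a compact object annihilated by the right idempotent of `K` lies in `K`. -/
theorem mem_of_ann {K : ObjectProperty C} (hK : IsThickIdeal K) {e f : C} {a : e ⟶ 𝟙_ C}
    {b : 𝟙_ C ⟶ f} (h : IsIdem K e f a b) {x : C} (hx : IsCpt x) (h0 : Ann f x) : K x := by
  obtain ⟨i⟩ := h.iso_left h0
  have h1 : AllFac K (x ⊗ e) := by
    refine h.loc _ (isLoc_tensorLeft (isLoc_allFac hK) x) (fun w hw => ?_)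
    exact allFac_of_mem (hK.tensor x w hx hw)
  exact mem_of_allFac hK hx ((isLoc_allFac hK).iso i h1)

end

end Pool.Agent.Helper609_TT
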