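import Pool.Agent.Helper609_TT.Defs

/-!
# Compact objects: closure properties
-/

namespace Pool.Agent.Helper609_TT

open CategoryTheory CategoryTheory.Limits CategoryTheory.Pretriangulated
open CategoryTheory.MonoidalCategory

universe v u

section

variable {C : Type u} [Category.{v} C] [Preadditive C]

/-- finite sums of morphisms through the summands -/
def FinSum {J : Type v} {X : J → C} [HasCoproduct X] {c : C} (f : c ⟶ ∐ X) : Prop :=
  ∃ (s : Finset J) (g : ∀ j, c ⟶ X j), f = ∑ j ∈ s, g j ≫ Sigma.ι X j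

lemma FinSum.add {J : Type v} {X : J → C} [HasCoproduct X] {c : C} {f f' : c ⟶ ∐ X}
    (h : FinSum f) (h' : FinSum f') : FinSum (f + f') := by
  classical
  obtain ⟨s, g, rfl⟩ := h
  obtain ⟨s', g', rfl⟩ := h'
  refine ⟨s ∪ s', fun j => (if j ∈ s then g j else 0) + (if j ∈ s' then g' j else 0), ?_⟩
  have e1 : ∑ j ∈ s, g j ≫ Sigma.ι X j
      = ∑ j ∈ s ∪ s', (if j ∈ s then g j else 0) ≫ Sigma.ι X j := by
    rw [← Finset.sum_subset (Finset.subset_union_left (s₁ := s) (s₂ := s'))]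
    · refine Finset.sum_congr rfl (fun j hj => ?_)
      rw [if_pos hj]
    · intro j _ hj
      rw [if_neg hj, zero_comp]
  have e2 : ∑ j ∈ s', g' j ≫ Sigma.ι X j
      = ∑ j ∈ s ∪ s', (if j ∈ s' then g' j else 0) ≫ Sigma.ι X j := by
    rw [← Finset.sum_subset (Finset.subset_union_right (s₁ := s) (s₂ := s'))]
    · refine Finset.sum_congr rfl (fun j hj => ?_)
      rw [if_pos hj]
    · intro j _ hj
      rw [if_neg hj, zero_comp]
  rw [e1, e2, ← Finset.sum_add_distrib]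
  refine Finset.sum_congr rfl (fun j _ => ?_)
  rw [Preadditive.add_comp]

lemma FinSum.zero {J : Type v} {X : J → C} [HasCoproduct X] {c : C} :
    FinSum (0 : c ⟶ ∐ X) := ⟨∅, fun _ => 0, by simp⟩

lemma FinSum.single {J : Type v} {X : J → C} [HasCoproduct X] {c : C} (j : J) (g : c ⟶ X j) :
    FinSum (g ≫ Sigma.ι X j) := by
  classical
  refine ⟨{j}, fun i => if h : j = i then g ≫ eqToHom (by rw [h]) else 0, ?_⟩
  simp

lemma FinSum.sum {J : Type v} {X : J → C} [HasCoproduct X] {c : C} {K : Type*} (s : Finset K)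
    (f : K → (c ⟶ ∐ X)) (h : ∀ k ∈ s, FinSum (f k)) : FinSum (∑ k ∈ s, f k) := by
  classical
  induction s using Finset.induction_on with
  | empty => simpa using FinSum.zero
  | insert a s ha ih =>
    rw [Finset.sum_insert ha]
    exact (h a (Finset.mem_insert_self a s)).add
      (ih (fun k hk => h k (Finset.mem_insert_of_mem hk)))

lemma FinSum.precomp {J : Type v} {X : J → C} [HasCoproduct X] {c c' : C} {f : c ⟶ ∐ X}
    (h : FinSum f) (u : c' ⟶ c) : FinSum (u ≫ f) := by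
  obtain ⟨s, g, rfl⟩ := h
  exact ⟨s, fun j => u ≫ g j, by simp [Preadditive.comp_sum]⟩

lemma isCpt_of_retract {c c' : C} (h : Retract c' c) (hc : IsCpt c) : IsCpt c' := by
  intro J X _ f
  have := FinSum.precomp (hc J X (h.r ≫ f)) h.i
  rwa [h.retract_assoc] at this

lemma isCpt_of_iso {c c' : C} (e : c ≅ c') (hc : IsCpt c) : IsCpt c' :=
  isCpt_of_retract ⟨e.inv, e.hom, by simp⟩ hc

lemma isCpt_of_isZero {c : C} (h : IsZero c) : IsCpt c := by
  intro J X _ f
  rw [h.eq_of_src f 0]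
  exact FinSum.zero

variable [HasShift C ℤ] [∀ n : ℤ, (shiftFunctor C n).Additive]

lemma isCpt_shift {c : C} (hc : IsCpt c) (n : ℤ) : IsCpt (c⟦n⟧) := by
  intro J X _ f
  let adj : shiftFunctor C n ⊣ shiftFunctor C (-n) := (shiftEquiv C n).toAdjunction
  have hcop : HasCoproduct fun j => (X j)⟦(-n)⟧ :=
    hasColimit_of_iso (F := Discrete.functor X ⋙ shiftFunctor C (-n))
      (Discrete.natIso (fun _ => Iso.refl _))
  let e := PreservesCoproduct.iso (shiftFunctor C (-n)) X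
  obtain ⟨s, g, hg⟩ := hc J (fun j => (X j)⟦(-n)⟧) (adj.homEquiv _ _ f ≫ e.hom)
  have h2 : adj.homEquiv _ _ f = ∑ j ∈ s, g j ≫ (shiftFunctor C (-n)).map (Sigma.ι X j) := by
    rw [← cancel_mono e.hom, hg, Preadditive.sum_comp]
    refine Finset.sum_congr rfl (fun j _ => ?_)
    rw [Category.assoc]
    congr 1
    rw [← cancel_mono e.inv, Category.assoc, e.hom_inv_id, Category.comp_id,
      PreservesCoproduct.inv_hom, ι_comp_sigmaComparison]
  refine ⟨s, fun j => (adj.homEquiv _ _).symm (g j), ?_⟩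
  have h3 : f = (adj.homAddEquiv _ _).symm (adj.homEquiv _ _ f) :=
    ((adj.homAddEquiv _ _).symm_apply_apply f).symm
  rw [h3, h2, map_sum]
  refine Finset.sum_congr rfl (fun j _ => ?_)
  exact adj.homEquiv_naturality_right_symm _ _

end

section

variable {C : Type u} [Category.{v} C] [Preadditive C] [HasZeroObject C]
    [HasShift C ℤ] [∀ n : ℤ, (shiftFunctor C n).Additive] [Pretriangulated C]

lemma isCpt_ext₂ (T : Triangle C) (hT : T ∈ distTriang C) (h₁ : IsCpt T.obj₁)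
    (h₃ : IsCpt T.obj₃) : IsCpt T.obj₂ := by
  classical
  intro J X _ f
  obtain ⟨s, g, hg⟩ := h₁ J X (T.mor₁ ≫ f)
  let p : ∐ X ⟶ ∐ X := ∑ j ∈ s, Sigma.π X j ≫ Sigma.ι X j
  have hp : ∀ j ∈ s, Sigma.ι X j ≫ p = Sigma.ι X j := by
    intro j hj
    simp only [p, Preadditive.comp_sum]
    rw [Finset.sum_eq_single j]
    · rw [← Category.assoc, Sigma.ι_π_eq_id, Category.id_comp]
    · intro i _ hi
      rw [← Category.assoc, Sigma.ι_π_of_ne _ hi.symm, zero_comp]
    · intro h; exact absurd hj h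
  have h0 : T.mor₁ ≫ (f ≫ (𝟙 _ - p)) = 0 := by
    rw [← Category.assoc, hg, Preadditive.sum_comp]
    refine Finset.sum_eq_zero (fun j hj => ?_)
    rw [Category.assoc, Preadditive.comp_sub, hp j hj, Category.comp_id, sub_self, comp_zero]
  obtain ⟨k, hk⟩ := T.yoneda_exact₂ hT _ h0
  have hf : f = T.mor₂ ≫ k + f ≫ p := by
    rw [← hk, Preadditive.comp_sub, Category.comp_id, sub_add_cancel]
  rw [hf]
  refine FinSum.add (FinSum.precomp (h₃ J X k) _) ?_
  simp only [p, Preadditive.comp_sum]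
  refine FinSum.sum _ _ (fun j _ => ?_)
  rw [← Category.assoc]
  exact FinSum.single j _

lemma isCpt_ext₁ (T : Triangle C) (hT : T ∈ distTriang C) (h₂ : IsCpt T.obj₂)
    (h₃ : IsCpt T.obj₃) : IsCpt T.obj₁ :=
  isCpt_ext₂ _ (inv_rot_of_distTriang _ hT) (isCpt_shift h₃ (-1)) h₂

lemma isCpt_ext₃ (T : Triangle C) (hT : T ∈ distTriang C) (h₁ : IsCpt T.obj₁)
    (h₂ : IsCpt T.obj₂) : IsCpt T.obj₃ :=
  isCpt_ext₂ _ (rot_of_distTriang _ hT) h₂ (isCpt_shift h₁ 1)

end

section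

variable {C : Type u} [Category.{v} C] [Preadditive C] [HasZeroObject C]
    [HasShift C ℤ] [∀ n : ℤ, (shiftFunctor C n).Additive] [Pretriangulated C]
    [MonoidalCategory C] [SymmetricCategory C] [RigidlyCompactlyGenerated C]

lemma isCpt_unit : IsCpt (𝟙_ C) :=
  (RigidlyCompactlyGenerated.compact_iff_rigid _).2 ⟨𝟙_ C, ⟨inferInstance⟩⟩

lemma isCpt_tensor {a b : C} (ha : IsCpt a) (hb : IsCpt b) : IsCpt (a ⊗ b) := by
  obtain ⟨a', ⟨ia⟩⟩ := (RigidlyCompactlyGenerated.compact_iff_rigid _).1 ha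
  obtain ⟨b', ⟨ib⟩⟩ := (RigidlyCompactlyGenerated.compact_iff_rigid _).1 hb
  exact (RigidlyCompactlyGenerated.compact_iff_rigid _).2 ⟨b' ⊗ a', ⟨inferInstance⟩⟩

/-- a compact object has a dual, which is compact -/
lemma exists_dual {a : C} (ha : IsCpt a) :
    ∃ a' : C, IsCpt a' ∧ Nonempty (ExactPairing a a') ∧ Nonempty (ExactPairing a' a) := by
  obtain ⟨a', ⟨ia⟩⟩ := (RigidlyCompactlyGenerated.compact_iff_rigid _).1 ha
  have i2 : ExactPairing a' a := BraidedCategory.exactPairing_swap a a'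
  exact ⟨a', (RigidlyCompactlyGenerated.compact_iff_rigid _).2 ⟨a, ⟨i2⟩⟩, ⟨ia⟩, ⟨i2⟩⟩

/-- `a` is a retract of `a ⊗ (a' ⊗ a)` -/
def retractTriple (a a' : C) [ExactPairing a a'] : Retract a (a ⊗ (a' ⊗ a)) where
  i := (λ_ a).inv ≫ ExactPairing.coevaluation a a' ▷ a ≫ (α_ _ _ _).hom
  r := a ◁ ExactPairing.evaluation a a' ≫ (ρ_ a).hom
  retract := by
    simp

end

end Pool.Agent.Helper609_TT
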