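import Mathlib

/-!
# Rigidly-compactly generated tensor triangulated categories: definitions

Compact objects, thick and localizing tensor ideals, the Balmer spectrum, Thomason subsets,
Balmer-Favi idempotents, the local-to-global principle, minimality, stratification.
-/

namespace Pool.Agent.Helper609_TT

open CategoryTheory CategoryTheory.Limits CategoryTheory.Pretriangulated
open CategoryTheory.MonoidalCategory

universe v u

section Cpt

variable {C : Type u} [Category.{v} C] [Preadditive C]

/-- An object `c` is compact: every morphism from `c` to a small coproduct is a finite sum of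
morphisms through the summands (that is, `Hom(c, -)` commutes with small coproducts). -/
def IsCpt (c : C) : Prop :=
  ∀ (J : Type v) (X : J → C) [HasCoproduct X] (f : c ⟶ ∐ X),
    ∃ (s : Finset J) (g : ∀ j, c ⟶ X j), f = ∑ j ∈ s, g j ≫ Sigma.ι X j

end Cpt

/-- A rigidly-compactly generated tensor triangulated category: a (pre)triangulated category with
small coproducts and a symmetric monoidal structure whose tensor product is exact and preserves
coproducts, which is generated by its compact objects, these forming an essentially small class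
and being exactly the rigid (dualizable) objects. (By symmetry it is enough to ask exactness
and preservation of coproducts of the functors `X ⊗ -`.) -/
class RigidlyCompactlyGenerated (C : Type u) [Category.{v} C] [Preadditive C] [HasZeroObject C]
    [HasShift C ℤ] [∀ n : ℤ, (shiftFunctor C n).Additive] [Pretriangulated C]
    [MonoidalCategory C] [SymmetricCategory C] where
  /-- small coproducts exist -/
  hasCoproducts : HasCoproducts.{v} C
  /-- the functors `X ⊗ -` commute with the shift -/
  commShift : ∀ X : C, (tensorLeft X).CommShift ℤ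
  /-- the functors `X ⊗ -` are exact -/
  exact : ∀ X : C, (tensorLeft X).IsTriangulated
  /-- the functors `X ⊗ -` preserve small coproducts -/
  preserves : ∀ (X : C) (J : Type v), PreservesColimitsOfShape (Discrete J) (tensorLeft X)
  /-- the compact objects are the rigid ones -/
  compact_iff_rigid : ∀ X : C, IsCpt X ↔ ∃ Y : C, Nonempty (ExactPairing X Y)
  /-- the compact objects generate -/
  generated : ∀ X : C, (∀ c : C, IsCpt c → ∀ f : c ⟶ X, f = 0) → IsZero X
  /-- the compact objects form an essentially small class -/
  small : ∃ (I : Type v) (G : I → C), (∀ i, IsCpt (G i)) ∧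
    ∀ c : C, IsCpt c → ∃ i, Nonempty (c ≅ G i)

attribute [instance_reducible] RigidlyCompactlyGenerated.commShift

attribute [instance] RigidlyCompactlyGenerated.hasCoproducts RigidlyCompactlyGenerated.commShift
  RigidlyCompactlyGenerated.exact RigidlyCompactlyGenerated.preserves

section Defs

variable {C : Type u} [Category.{v} C] [Preadditive C] [HasZeroObject C]
    [HasShift C ℤ] [∀ n : ℤ, (shiftFunctor C n).Additive] [Pretriangulated C]
    [MonoidalCategory C] [SymmetricCategory C] [RigidlyCompactlyGenerated C]

/-- Localizing subcategories, as classes of objects: closed under isomorphisms, shifts,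
extensions (the middle term of a distinguished triangle) and small coproducts. -/
structure IsLoc (L : ObjectProperty C) : Prop where
  iso : ∀ {X Y : C}, (X ≅ Y) → L X → L Y
  shift : ∀ (X : C) (n : ℤ), L X → L (X⟦n⟧)
  ext₂ : ∀ T : Triangle C, T ∈ distTriang C → L T.obj₁ → L T.obj₃ → L T.obj₂
  coprod : ∀ (J : Type v) (X : J → C), (∀ j, L (X j)) → L (∐ X)

/-- Localizing tensor ideals. -/
structure IsLocIdeal (L : ObjectProperty C) : Prop extends IsLoc L where
  tensor : ∀ X Y : C, L Y → L (X ⊗ Y)

/-- The localizing tensor ideal generated by a class of objects. -/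
def locIdeal (A : ObjectProperty C) : ObjectProperty C :=
  fun X => ∀ L : ObjectProperty C, IsLocIdeal L → (∀ a, A a → L a) → L X

/-- Thick tensor ideals of the subcategory of compact objects. -/
structure IsThickIdeal (K : ObjectProperty C) : Prop where
  cpt : ∀ {X : C}, K X → IsCpt X
  zero : ∀ X : C, IsZero X → K X
  shift : ∀ (X : C) (n : ℤ), K X → K (X⟦n⟧)
  ext₂ : ∀ T : Triangle C, T ∈ distTriang C → K T.obj₁ → K T.obj₃ → K T.obj₂
  retract : ∀ {X Y : C}, Retract X Y → K Y → K X
  tensor : ∀ X Y : C, IsCpt X → K Y → K (X ⊗ Y)

/-- Prime thick tensor ideals of the subcategory of compact objects. -/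
structure IsPrimeIdeal (P : ObjectProperty C) : Prop extends IsThickIdeal P where
  ne_top : ¬ P (𝟙_ C)
  prime : ∀ X Y : C, IsCpt X → IsCpt Y → P (X ⊗ Y) → P X ∨ P Y

variable (C) in
/-- The Balmer spectrum of the subcategory of compact objects. -/
def Spc : Type u := {P : ObjectProperty C // IsPrimeIdeal P}

/-- The support of a compact object: the primes not containing it. -/
def supp (a : C) : Set (Spc C) := {P | ¬ P.1 a}

/-- The topology of the Balmer spectrum: the complements of the supports of the compact
objects are a basis of open subsets. -/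
instance : TopologicalSpace (Spc C) :=
  TopologicalSpace.generateFrom {U | ∃ a : C, IsCpt a ∧ U = (supp a)ᶜ}

/-- Thomason subsets: unions of closed subsets with quasi-compact complement. -/
def IsThomason (Y : Set (Spc C)) : Prop :=
  ∃ 𝒮 : Set (Set (Spc C)), (∀ Z ∈ 𝒮, IsClosed Z ∧ IsCompact Zᶜ) ∧ Y = ⋃₀ 𝒮

variable (C) in
/-- The spectrum is weakly noetherian: every point is the intersection of a Thomason subset and
the complement of a Thomason subset. -/
def WeaklyNoetherian : Prop :=
  ∀ P : Spc C, ∃ Y₁ Y₂ : Set (Spc C), IsThomason Y₁ ∧ IsThomason Y₂ ∧ {P} = Y₁ ∩ Y₂ᶜ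

/-- The compact objects supported on `Y`. -/
def cptOn (Y : Set (Spc C)) : ObjectProperty C := fun c => IsCpt c ∧ supp c ⊆ Y

/-- `e` and `f` are the left and the right idempotent of `Y`: there is an exact triangle
`e ⟶ 𝟙 ⟶ f ⟶ e⟦1⟧` with `e` in the localizing ideal generated by the compact objects supported
on `Y`, and `f` right orthogonal to these compact objects. -/
def IsIdempotentPair (Y : Set (Spc C)) (e f : C) : Prop :=
  ∃ (a : e ⟶ 𝟙_ C) (b : 𝟙_ C ⟶ f) (d : f ⟶ e⟦(1 : ℤ)⟧),
    Triangle.mk a b d ∈ distTriang C ∧ locIdeal (cptOn Y) e ∧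
      ∀ c : C, cptOn Y c → ∀ φ : c ⟶ f, φ = 0

/-- `g` is the Balmer-Favi idempotent `g(P)` of the point `P`: `g = e(Y₁) ⊗ f(Y₂)` where
`Y₁`, `Y₂` are Thomason subsets with `{P} = Y₁ ∩ Y₂ᶜ`. -/
def IsBalmerFavi (P : Spc C) (g : C) : Prop :=
  ∃ (Y₁ Y₂ : Set (Spc C)) (e₁ f₁ e₂ f₂ : C), IsThomason Y₁ ∧ IsThomason Y₂ ∧ {P} = Y₁ ∩ Y₂ᶜ ∧
    IsIdempotentPair Y₁ e₁ f₁ ∧ IsIdempotentPair Y₂ e₂ f₂ ∧ Nonempty (g ≅ e₁ ⊗ f₂)

variable (C) in
/-- The local-to-global principle: every object `t` generates the same localizing tensor ideal
as the objects `g(P) ⊗ t`. -/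
def LocalToGlobal : Prop :=
  ∀ t : C, locIdeal (fun x => x = t) =
    locIdeal (fun x => ∃ (P : Spc C) (g : C), IsBalmerFavi P g ∧ x = g ⊗ t)

variable (C) in
/-- Minimality: for every `P`, the localizing tensor ideal generated by `g(P)` is nonzero and
contains no nonzero proper localizing tensor ideal. -/
def Minimality : Prop :=
  ∀ (P : Spc C) (g : C), IsBalmerFavi P g → ¬ IsZero g ∧
    ∀ L : ObjectProperty C, IsLocIdeal L → (∀ x, L x → locIdeal (fun y => y = g) x) →
      (∃ x, L x ∧ ¬ IsZero x) → L = locIdeal (fun y => y = g)

variable (C) in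
/-- Stratification (for a category with weakly noetherian spectrum). -/
def Stratified : Prop := LocalToGlobal C ∧ Minimality C

variable (C) in
/-- The spectrum is scattered (for the Hochster dual topology, whose open subsets are the
Thomason subsets): the complement of every proper Thomason subset `W` has an isolated point,
that is, a point `P` with `{P} = Y ∩ Wᶜ` for a Thomason subset `Y`. -/
def HochsterScattered : Prop :=
  ∀ W : Set (Spc C), IsThomason W → W ≠ Set.univ →
    ∃ (P : Spc C) (Y : Set (Spc C)), IsThomason Y ∧ Y ∩ Wᶜ = {P}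

end Defs

end Pool.Agent.Helper609_TT
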