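import Pool.Agent.Helper609_TT.Func

/-!
# The local-to-global principle and isolated points
-/

namespace Pool.Agent.Helper609_TT

open CategoryTheory CategoryTheory.Limits CategoryTheory.Pretriangulated
open CategoryTheory.MonoidalCategory

universe v u u'

section Kill

variable {S : Type u} [Category.{v} S] [Preadditive S] [HasZeroObject S]
    [HasShift S ℤ] [∀ n : ℤ, (shiftFunctor S n).Additive] [Pretriangulated S]
    [MonoidalCategory S] [SymmetricCategory S] [RigidlyCompactlyGenerated S]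

/-- the object `A` kills the morphism `ψ` -/
def Kl (A : S) {c y : S} (ψ : c ⟶ y) : Prop := A ◁ ψ = 0

lemma Kl.of_iso {A A' c y : S} {ψ : c ⟶ y} (h : Kl A ψ) (e : A ≅ A') : Kl A' ψ := by
  have h1 : A ◁ ψ = 0 := h
  have h2 : e.hom ▷ c ≫ A' ◁ ψ = A ◁ ψ ≫ e.hom ▷ y := (whisker_exchange e.hom ψ).symm
  rw [h1, zero_comp] at h2
  have : IsIso (e.hom ▷ c) := inferInstance
  change A' ◁ ψ = 0
  rw [← cancel_epi (e.hom ▷ c), h2, comp_zero]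

lemma Kl.left {A c y : S} {ψ : c ⟶ y} (h : Kl A ψ) (B : S) : Kl (B ⊗ A) ψ := by
  have h1 : A ◁ ψ = 0 := h
  change (B ⊗ A) ◁ ψ = 0
  rw [MonoidalCategory.tensor_whiskerLeft, h1]
  have h2 : B ◁ (0 : A ⊗ c ⟶ A ⊗ y) = 0 := (tensorLeft B).map_zero _ _
  rw [h2]
  simp

lemma Kl.right {A c y : S} {ψ : c ⟶ y} (h : Kl A ψ) (B : S) : Kl (A ⊗ B) ψ :=
  (h.left B).of_iso (β_ B A)

lemma Kl.whisker {A B c y : S} {ψ : c ⟶ y} (h : Kl A (B ◁ ψ)) : Kl (A ⊗ B) ψ := by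
  have h1 : A ◁ (B ◁ ψ) = 0 := h
  change (A ⊗ B) ◁ ψ = 0
  rw [MonoidalCategory.tensor_whiskerLeft, h1]
  simp

lemma Kl.postcomp {A c y y' : S} {ψ : c ⟶ y} (h : Kl A ψ) (g : y ⟶ y') : Kl A (ψ ≫ g) := by
  have h1 : A ◁ ψ = 0 := h
  change A ◁ (ψ ≫ g) = 0
  rw [MonoidalCategory.whiskerLeft_comp, h1, zero_comp]

lemma Kl.precomp {A c y c' : S} {ψ : c ⟶ y} (h : Kl A ψ) (g : c' ⟶ c) : Kl A (g ≫ ψ) := by
  have h1 : A ◁ ψ = 0 := h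
  change A ◁ (g ≫ ψ) = 0
  rw [MonoidalCategory.whiskerLeft_comp, h1, comp_zero]

lemma Kl.cancel_iso {A c y y' : S} {ψ : c ⟶ y} (i : y ≅ y') (h : Kl A (ψ ≫ i.hom)) :
    Kl A ψ := by
  have := h.postcomp i.inv
  simpa using this

lemma Kl.of_isZero {A c y : S} (ψ : c ⟶ y) (h : IsZero (A ⊗ y)) : Kl A ψ :=
  h.eq_of_tgt _ _

omit [HasZeroObject S] [HasShift S ℤ] [∀ n : ℤ, (shiftFunctor S n).Additive]
  [Pretriangulated S] [MonoidalCategory S] [SymmetricCategory S]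
  [RigidlyCompactlyGenerated S] in
lemma isZero_of_isIso_of_eq_zero {X Y : S} (f : X ⟶ Y) [h : IsIso f] (hf : f = 0) :
    IsZero X := by
  obtain ⟨g, hg, _⟩ := h
  rw [IsZero.iff_id_eq_zero, ← hg, hf, zero_comp]

lemma Kl.sum {A c y : S} {J : Type*} (s : Finset J) (f : J → (c ⟶ y))
    (h : ∀ j ∈ s, Kl A (f j)) : Kl A (∑ j ∈ s, f j) := by
  change (tensorLeft A).map (∑ j ∈ s, f j) = 0
  rw [Functor.map_sum]
  exact Finset.sum_eq_zero (fun j hj => h j hj)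

end Kill

section

variable {T : Type u} [Category.{v} T] [Preadditive T] [HasZeroObject T]
    [HasShift T ℤ] [∀ n : ℤ, (shiftFunctor T n).Additive] [Pretriangulated T]
    [MonoidalCategory T] [SymmetricCategory T] [RigidlyCompactlyGenerated T]
variable {S : Type u'} [Category.{v} S] [Preadditive S] [HasZeroObject S]
    [HasShift S ℤ] [∀ n : ℤ, (shiftFunctor S n).Additive] [Pretriangulated S]
    [MonoidalCategory S] [SymmetricCategory S] [RigidlyCompactlyGenerated S]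
variable (Φ : T ⥤ S) [Φ.Monoidal] [Φ.CommShift ℤ] [Φ.IsTriangulated]

omit [Φ.CommShift ℤ] [Φ.IsTriangulated] in
lemma isCpt_map {a : T} (ha : IsCpt a) : IsCpt (Φ.obj a) := by
  obtain ⟨a', ⟨ia⟩⟩ := (RigidlyCompactlyGenerated.compact_iff_rigid _).1 ha
  exact (RigidlyCompactlyGenerated.compact_iff_rigid _).2 ⟨Φ.obj a', ⟨mapExactPairing Φ a a'⟩⟩

/-- the image of a tensor product -/
noncomputable def tIso (a b : T) : Φ.obj a ⊗ Φ.obj b ≅ Φ.obj (a ⊗ b) :=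
  Functor.Monoidal.μIso Φ a b

/-- the preimage of a prime -/
def Spc.comap (Q : Spc S) : Spc T := ⟨fun a => IsCpt a ∧ Q.1 (Φ.obj a),
  { cpt := fun h => h.1
    zero := fun X h => ⟨isCpt_of_isZero h, Q.2.zero _ (Φ.map_isZero h)⟩
    shift := fun X n h => ⟨isCpt_shift h.1 n,
      Q.2.toIsThickIdeal.iso ((Φ.commShiftIso n).app X).symm (Q.2.shift _ n h.2)⟩
    ext₂ := fun T' hT h₁ h₃ => ⟨isCpt_ext₂ T' hT h₁.1 h₃.1,
      Q.2.ext₂ _ (Φ.map_distinguished T' hT) h₁.2 h₃.2⟩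
    retract := fun r h => ⟨isCpt_of_retract r h.1, Q.2.retract (r.map Φ) h.2⟩
    tensor := fun X Y hX h => ⟨isCpt_tensor hX h.1,
      Q.2.toIsThickIdeal.iso (tIso Φ X Y) (Q.2.tensor _ _ (isCpt_map Φ hX) h.2)⟩
    ne_top := fun h => Q.2.ne_top
      (Q.2.toIsThickIdeal.iso (Functor.Monoidal.εIso Φ).symm h.2)
    prime := fun X Y hX hY h => by
      rcases Q.2.prime _ _ (isCpt_map Φ hX) (isCpt_map Φ hY)
        (Q.2.toIsThickIdeal.iso (tIso Φ X Y).symm h.2) with h' | h'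
      · exact Or.inl ⟨hX, h'⟩
      · exact Or.inr ⟨hY, h'⟩ }⟩

/-- the class of objects used in the proof -/
def NN (W : ObjectProperty T) (F : S) : ObjectProperty S := fun s =>
  ∀ (y c : S), IsCpt c → ∀ ψ : c ⟶ (F ⊗ y) ⊗ s, ∀ d : T, IsCpt d → ¬ W d →
    ∃ x : T, IsCpt x ∧ ¬ W (d ⊗ x) ∧ Kl (Φ.obj (d ⊗ x)) ψ

variable {Φ}

lemma Kl.map_iso {a a' : T} {c y : S} {ψ : c ⟶ y} (h : Kl (Φ.obj a) ψ) (e : a ≅ a') :
    Kl (Φ.obj a') ψ := h.of_iso (Φ.mapIso e)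

lemma Kl.map_right {a : T} {c y : S} {ψ : c ⟶ y} (h : Kl (Φ.obj a) ψ) (b : T) :
    Kl (Φ.obj (a ⊗ b)) ψ := (h.right (Φ.obj b)).of_iso (tIso Φ a b)

lemma isLocIdeal_NN {W : ObjectProperty T} (hW : IsThickIdeal W) (F : S) :
    IsLocIdeal (NN Φ W F) := by
  classical
  apply isLocIdeal_of
  · -- isomorphisms
    intro s s' i h y c hc ψ d hd hdW
    obtain ⟨x, hx, hxW, hk⟩ := h y c hc (ψ ≫ (whiskerLeftIso (F ⊗ y) i.symm).hom) d hd hdW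
    exact ⟨x, hx, hxW, hk.cancel_iso⟩
  · -- extensions
    rintro ⟨s₁, s₂, s₃, a, b, δ⟩ hT h₁ h₃ y c hc ψ d hd hdW
    change NN Φ W F s₁ at h₁
    change NN Φ W F s₃ at h₃
    change c ⟶ (F ⊗ y) ⊗ s₂ at ψ
    obtain ⟨x₁, hx₁, hxW₁, hk₁⟩ := h₃ y c hc (ψ ≫ (F ⊗ y) ◁ b) d hd hdW
    have hT1 := (tensorLeft (F ⊗ y)).map_distinguished _ hT
    have hT2 := (tensorLeft (Φ.obj (d ⊗ x₁))).map_distinguished _ hT1
    have h0 : (Φ.obj (d ⊗ x₁) ◁ ψ) ≫ (Φ.obj (d ⊗ x₁) ◁ (F ⊗ y) ◁ b) = 0 := by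
      rw [← MonoidalCategory.whiskerLeft_comp]
      exact hk₁
    obtain ⟨χ, hχ⟩ : ∃ χ : Φ.obj (d ⊗ x₁) ⊗ c ⟶ Φ.obj (d ⊗ x₁) ⊗ ((F ⊗ y) ⊗ s₁),
        Φ.obj (d ⊗ x₁) ◁ ψ = χ ≫ Φ.obj (d ⊗ x₁) ◁ (F ⊗ y) ◁ a :=
      Triangle.coyoneda_exact₂ _ hT2 _ h0
    let D := Φ.obj (d ⊗ x₁)
    let k : D ⊗ (F ⊗ y) ≅ F ⊗ (D ⊗ y) :=
      (α_ D F y).symm ≪≫ whiskerRightIso (β_ D F) y ≪≫ α_ F D y
    let j : D ⊗ ((F ⊗ y) ⊗ s₁) ≅ (F ⊗ (D ⊗ y)) ⊗ s₁ :=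
      (α_ D (F ⊗ y) s₁).symm ≪≫ whiskerRightIso k s₁
    have hdx₁ : IsCpt (d ⊗ x₁) := isCpt_tensor hd hx₁
    obtain ⟨x₂, hx₂, hxW₂, hk₂⟩ := h₁ (D ⊗ y) (D ⊗ c) (isCpt_tensor (isCpt_map Φ hdx₁) hc)
      (χ ≫ j.hom) (d ⊗ x₁) hdx₁ hxW₁
    have hk₃ : Kl (Φ.obj ((d ⊗ x₁) ⊗ x₂)) χ := hk₂.cancel_iso
    have hk₄ : Kl (Φ.obj ((d ⊗ x₁) ⊗ x₂)) (D ◁ ψ) := by
      have := hk₃.postcomp (D ◁ (F ⊗ y) ◁ a)
      rwa [← hχ] at this
    have hk₅ : Kl (Φ.obj (((d ⊗ x₁) ⊗ x₂) ⊗ (d ⊗ x₁))) ψ :=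
      hk₄.whisker.of_iso (tIso Φ _ _)
    let i : ((d ⊗ x₁) ⊗ x₂) ⊗ (d ⊗ x₁) ≅ d ⊗ (x₁ ⊗ (x₂ ⊗ (d ⊗ x₁))) :=
      α_ (d ⊗ x₁) x₂ (d ⊗ x₁) ≪≫ α_ d x₁ _
    refine ⟨x₁ ⊗ (x₂ ⊗ (d ⊗ x₁)), isCpt_tensor hx₁ (isCpt_tensor hx₂ hdx₁), ?_,
      hk₅.map_iso i⟩
    intro hcon
    have h1 : W ((((d ⊗ x₁) ⊗ x₂) ⊗ (d ⊗ x₁)) ⊗ x₂) :=
      hW.tensor' (hW.iso i.symm hcon) hx₂
    exact hxW₂ (hW.radical (isCpt_tensor hdx₁ hx₂) (hW.iso (α_ _ _ _) h1))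
  · -- coproducts
    intro J X h y c hc ψ d hd hdW
    let e : (F ⊗ y) ⊗ (∐ X) ≅ ∐ fun j => (F ⊗ y) ⊗ X j :=
      PreservesCoproduct.iso (tensorLeft (F ⊗ y)) X
    obtain ⟨s, g, hg⟩ := hc J _ (ψ ≫ e.hom)
    have key : ∀ s' : Finset J, ∃ x : T, IsCpt x ∧ ¬ W (d ⊗ x) ∧
        ∀ j ∈ s', Kl (Φ.obj (d ⊗ x)) (g j) := by
      intro s'
      induction s' using Finset.induction_on with
      | empty =>
        exact ⟨𝟙_ T, isCpt_unit, fun h' => hdW (hW.iso (ρ_ d) h'), by simp⟩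
      | insert j s' _ ih =>
        obtain ⟨x, hx, hxW, hk⟩ := ih
        obtain ⟨x', hx', hxW', hk'⟩ := h j y c hc (g j) (d ⊗ x) (isCpt_tensor hd hx) hxW
        refine ⟨x ⊗ x', isCpt_tensor hx hx', fun h' => hxW' (hW.iso (α_ _ _ _).symm h'), ?_⟩
        intro i hi
        rcases Finset.mem_insert.1 hi with rfl | hi
        · exact hk'.map_iso (α_ _ _ _)
        · exact ((hk i hi).map_right x').map_iso (α_ _ _ _)
    obtain ⟨x, hx, hxW, hk⟩ := key s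
    refine ⟨x, hx, hxW, Kl.cancel_iso e ?_⟩
    rw [hg]
    exact Kl.sum _ _ (fun j hj => (hk j hj).postcomp _)
  · -- tensor products
    intro X Y h y c hc ψ d hd hdW
    let j : (F ⊗ y) ⊗ (X ⊗ Y) ≅ (F ⊗ (y ⊗ X)) ⊗ Y :=
      (α_ (F ⊗ y) X Y).symm ≪≫ whiskerRightIso (α_ F y X) Y
    obtain ⟨x, hx, hxW, hk⟩ := h (y ⊗ X) c hc (ψ ≫ j.hom) d hd hdW
    exact ⟨x, hx, hxW, hk.cancel_iso⟩

/-- Balmer-Favi idempotents lie in the class, if no point is isolated modulo `W`. -/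
lemma NN_balmerFavi {W : ObjectProperty T} (hW : IsThickIdeal W) {F : S}
    (hF : ∀ w, W w → Ann F (Φ.obj w))
    (H : ∀ (P : Spc T) (d : T), IsCpt d → (∀ w, W w → P.1 w) → ¬ W d →
      ∃ x, P.1 x ∧ ¬ W (d ⊗ x)) {Q : Spc S} {g : S} (hg : IsBalmerFavi Q g) : NN Φ W F g := by
  obtain ⟨Y₁, Y₂, e₁, f₁, e₂, f₂, hY₁, hY₂, hQ, hp₁, hp₂, ⟨i⟩⟩ := hg
  intro y c hc ψ d hd hdW
  by_cases hcase : ∀ w, W w → Q.1 (Φ.obj w)
  · obtain ⟨x, hxP, hxW⟩ := H (Spc.comap Φ Q) d hd (fun w hw => ⟨hW.cpt hw, hcase w hw⟩) hdW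
    have hxc : IsCpt x := hxP.1
    refine ⟨x, hxc, hxW, Kl.of_isZero _ ?_⟩
    -- `Φ x` annihilates `g`
    have h1 : Ann (Φ.obj x ⊗ f₂) e₁ := by
      refine locIdeal_le (isLocIdeal_ann _) (fun a ha => ?_) hp₁.mem_loc
      have h2 : cptOn Y₂ (a ⊗ Φ.obj x) := by
        refine ⟨isCpt_tensor ha.1 (isCpt_map Φ hxc), ?_⟩
        rw [supp_tensor ha.1 (isCpt_map Φ hxc)]
        rintro R ⟨hR1, hR2⟩
        by_contra hR3
        have hRQ : R ∈ ({Q} : Set (Spc S)) := hQ ▸ ⟨ha.2 hR1, hR3⟩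
        rw [Set.mem_singleton_iff] at hRQ
        rw [hRQ] at hR2
        exact hR2 hxP.2
      have h3 : IsZero ((a ⊗ Φ.obj x) ⊗ f₂) := ann_symm (hp₂.kill h2)
      exact h3.of_iso (β_ _ _ ≪≫ (α_ a (Φ.obj x) f₂).symm)
    have h4 : Ann (Φ.obj x) g := by
      have h5 : IsZero ((Φ.obj x ⊗ f₂) ⊗ e₁) := h1
      refine h5.of_iso ?_
      exact whiskerLeftIso (Φ.obj x) (i ≪≫ β_ e₁ f₂) ≪≫ (α_ _ _ _).symm
    have h6 : Ann (Φ.obj x) ((F ⊗ y) ⊗ g) := (isLocIdeal_ann _).tensor _ _ h4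
    have h7 : Ann ((F ⊗ y) ⊗ g) (Φ.obj (d ⊗ x)) :=
      (isLocIdeal_ann _).iso (tIso Φ d x) ((isLocIdeal_ann _).tensor _ _ (ann_symm h6))
    exact ann_symm h7
  · push Not at hcase
    obtain ⟨w, hw, hwQ⟩ := hcase
    refine ⟨𝟙_ T, isCpt_unit, fun h => hdW (hW.iso (ρ_ d) h), Kl.of_isZero _ ?_⟩
    apply isZero_tensor_left
    -- `F` annihilates `g`
    have h1 : Ann (f₂ ⊗ F) e₁ := by
      refine locIdeal_le (isLocIdeal_ann _) (fun a ha => ?_) hp₁.mem_loc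
      by_contra hcon
      obtain ⟨R, hR, hRa⟩ := exists_prime_of_not_mem (isThickIdeal_ann (f₂ ⊗ F)) ha.1
        (fun h => hcon h.2)
      have hR1 : R ∈ Y₁ := ha.2 hRa
      have hR2 : R ∉ Y₂ := by
        intro h
        obtain ⟨b, hb, hRb, hbY⟩ := hY₂.exists_supp h
        refine hRb (hR b ⟨hb, ?_⟩)
        exact ann_symm ((isLocIdeal_ann b).tensor' f₂ (ann_symm (hp₂.kill ⟨hb, hbY⟩)))
      have hRQ : R ∈ ({Q} : Set (Spc S)) := hQ ▸ ⟨hR1, hR2⟩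
      rw [Set.mem_singleton_iff] at hRQ
      apply hwQ
      rw [← hRQ]
      exact hR _ ⟨isCpt_map Φ (hW.cpt hw),
        ann_symm ((isLocIdeal_ann _).tensor _ _ (ann_symm (hF w hw)))⟩
    have h2 : Ann F g := by
      have h3 : IsZero ((f₂ ⊗ F) ⊗ e₁) := h1
      refine h3.of_iso ?_
      exact whiskerLeftIso F i ≪≫ (α_ F e₁ f₂).symm ≪≫ β_ _ _ ≪≫ (α_ f₂ F e₁).symm
    exact ann_symm ((isLocIdeal_ann g).tensor' F (ann_symm h2))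

lemma IsIdem.mem {K : ObjectProperty T} {e f : T} {a : e ⟶ 𝟙_ T} {b : 𝟙_ T ⟶ f}
    (h : IsIdem K e f a b) {L : ObjectProperty T} (hL : IsLoc L) (hK : ∀ w, K w → L w) : L e :=
  h.loc L hL hK

/-- **Main lemma.** If `S` satisfies the local-to-global principle and `Φ` is surjective on
spectra, then every proper thick ideal of `T` has an isolated point in the complement of its
support. -/
theorem exists_isolated (hpres : ∀ J : Type v, PreservesColimitsOfShape (Discrete J) Φ)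
    (hsurj : Function.Surjective (Spc.comap Φ)) (hS : LocalToGlobal S)
    {W : ObjectProperty T} (hW : IsThickIdeal W) (h1 : ¬ W (𝟙_ T)) :
    ∃ (P : Spc T) (d : T), IsCpt d ∧ (∀ w, W w → P.1 w) ∧ ¬ W d ∧
      ∀ x, P.1 x → W (d ⊗ x) := by
  by_contra hcon
  have H : ∀ (P : Spc T) (d : T), IsCpt d → (∀ w, W w → P.1 w) → ¬ W d →
      ∃ x, P.1 x ∧ ¬ W (d ⊗ x) := by
    intro P d hd hWP hdW
    by_contra hcon'
    push Not at hcon'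
    exact hcon ⟨P, d, hd, hWP, hdW, hcon'⟩
  obtain ⟨e, f, a, b, hi⟩ := exists_idem hW
  have hF : ∀ w, W w → Ann (Φ.obj f) (Φ.obj w) := by
    intro w hw
    have h2 : IsZero (f ⊗ w) := hi.kill' hW hw
    exact (Φ.map_isZero h2).of_iso (tIso Φ f w)
  have hN : NN Φ W (Φ.obj f) (𝟙_ S) := by
    have h2 : locIdeal (fun x : S => x = 𝟙_ S) (𝟙_ S) := subset_locIdeal _ rfl
    rw [hS] at h2
    refine locIdeal_le (isLocIdeal_NN hW _) ?_ h2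
    rintro _ ⟨Q, g, hg, rfl⟩
    exact (isLocIdeal_NN hW _).tensor' _ (NN_balmerFavi hW hF H hg)
  obtain ⟨x, hx, hxW, hk⟩ := hN (𝟙_ S) (𝟙_ S) isCpt_unit
    ((Functor.Monoidal.εIso Φ).hom ≫ Φ.map b ≫ (ρ_ _).inv ≫ (ρ_ _).inv) (𝟙_ T) isCpt_unit h1
  have hd'c : IsCpt (𝟙_ T ⊗ x) := isCpt_tensor isCpt_unit hx
  generalize 𝟙_ T ⊗ x = d at hxW hk hd'c
  have hk1 : Kl (Φ.obj d) (Φ.map b) := by
    have h2 := hk.precomp (Functor.Monoidal.εIso Φ).inv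
    rw [Iso.inv_hom_id_assoc] at h2
    exact Kl.cancel_iso ((ρ_ _).symm ≪≫ (ρ_ _).symm) h2
  obtain ⟨P, hWP, hPd⟩ := exists_prime_of_not_mem hW hd'c hxW
  obtain ⟨Q, hQ⟩ := hsurj P
  obtain ⟨e', f', a', b', hi'⟩ := exists_idem Q.2.toIsThickIdeal
  have hloc : Ann f' (Φ.obj (d ⊗ e)) := by
    have h2 : IsLoc (fun z : T => Ann f' (Φ.obj (d ⊗ z))) :=
      (((isLocIdeal_ann f').toIsLoc.preimage Φ hpres).preimage (tensorLeft d)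
        (fun _ => inferInstance))
    refine hi.loc _ h2 (fun w hw => ?_)
    refine hi'.kill' Q.2.toIsThickIdeal ?_
    have h3 : P.1 (d ⊗ w) := hWP _ (hW.tensor d w hd'c hw)
    rw [← hQ] at h3
    exact h3.2
  obtain ⟨δ, hT⟩ := hi.tri
  have hT3 := (tensorLeft f').map_distinguished _ (Φ.map_distinguished _
    ((tensorLeft d).map_distinguished _ hT))
  have h0 : IsZero (f' ⊗ Φ.obj (d ⊗ e)) := hloc
  have hiso : IsIso (f' ◁ Φ.map (d ◁ b)) := (Triangle.isZero₁_iff_isIso₂ _ hT3).1 h0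
  have hz : Φ.map (d ◁ b) = 0 := by
    have hk2 : Φ.obj d ◁ Φ.map b = 0 := hk1
    rw [Functor.Monoidal.map_whiskerLeft, hk2]
    simp
  have hz' : f' ◁ Φ.map (d ◁ b) = 0 := by
    rw [hz]
    exact (tensorLeft f').map_zero _ _
  have hzero : IsZero (f' ⊗ Φ.obj (d ⊗ 𝟙_ T)) := isZero_of_isIso_of_eq_zero _ hz'
  have hzero' : Ann f' (Φ.obj d) :=
    hzero.of_iso (whiskerLeftIso f' (Φ.mapIso (ρ_ d).symm))
  have hQd : Q.1 (Φ.obj d) := mem_of_ann Q.2.toIsThickIdeal hi' (isCpt_map Φ hd'c) hzero'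
  apply hPd
  rw [← hQ]
  exact ⟨hd'c, hQd⟩

/-- A conservative tensor triangulated functor is surjective on spectra. -/
theorem comap_surjective_of_conservative (hcons : ∀ t : T, IsZero (Φ.obj t) → IsZero t) :
    Function.Surjective (Spc.comap Φ) := by
  intro P
  obtain ⟨e, f, a, b, hi⟩ := exists_idem P.2.toIsThickIdeal
  obtain ⟨Q, hQ, hQS⟩ := exists_prime (isThickIdeal_ann (Φ.obj f))
    (fun s => ∃ a : T, IsCpt a ∧ ¬ P.1 a ∧ Nonempty (s ≅ Φ.obj a))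
    (by
      rintro s ⟨a, ha, _, ⟨i⟩⟩
      exact isCpt_of_iso i.symm (isCpt_map Φ ha))
    ⟨Φ.obj (𝟙_ T), 𝟙_ T, isCpt_unit, P.2.ne_top, ⟨Iso.refl _⟩⟩
    (by
      rintro s t ⟨a, ha, haP, ⟨i⟩⟩ ⟨b, hb, hbP, ⟨j⟩⟩
      refine ⟨a ⊗ b, isCpt_tensor ha hb, ?_, ⟨(i ⊗ᵢ j) ≪≫ tIso Φ a b⟩⟩
      intro h
      rcases P.2.prime a b ha hb h with h | h
      · exact haP h
      · exact hbP h)
    (by
      rintro s ⟨a, ha, haP, ⟨i⟩⟩ ⟨_, hs⟩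
      apply haP
      refine mem_of_ann P.2.toIsThickIdeal hi ha ?_
      apply hcons
      have h2 : IsZero (Φ.obj f ⊗ s) := hs
      exact h2.of_iso ((tIso Φ f a).symm ≪≫ whiskerLeftIso _ i.symm))
  refine ⟨Q, Subtype.ext ?_⟩
  funext x
  apply propext
  constructor
  · rintro ⟨hx, hQx⟩
    by_contra hPx
    exact hQS _ ⟨x, hx, hPx, ⟨Iso.refl _⟩⟩ hQx
  · intro hPx
    refine ⟨P.2.cpt hPx, hQ _ ⟨isCpt_map Φ (P.2.cpt hPx), ?_⟩⟩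
    have h2 : IsZero (f ⊗ x) := hi.kill' P.2.toIsThickIdeal hPx
    exact (Φ.map_isZero h2).of_iso (tIso Φ f x)

end

end Pool.Agent.Helper609_TT
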