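import Pool.Agent.Helper609_TT.Pts

/-!
# Detection of the fibres
-/

namespace Pool.Agent.Helper609_TT

open CategoryTheory CategoryTheory.Limits CategoryTheory.Pretriangulated
open CategoryTheory.MonoidalCategory ZeroObject

universe v u u'

section

variable {T : Type u} [Category.{v} T] [Preadditive T] [HasZeroObject T]
    [HasShift T ℤ] [∀ n : ℤ, (shiftFunctor T n).Additive] [Pretriangulated T]
    [MonoidalCategory T] [SymmetricCategory T] [RigidlyCompactlyGenerated T]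

lemma LocUnit.uniqT' {e O : T} {a : e ⟶ 𝟙_ T} {b : 𝟙_ T ⟶ O} (hU : LocUnit e O a b) (W : T)
    {X : T} (hX : Ann e X) {φ φ' : O ⊗ W ⟶ X} (h : b ▷ W ≫ φ = b ▷ W ≫ φ') : φ = φ' := by
  rw [← cancel_epi (β_ W O).hom]
  apply hU.uniqT W hX
  rw [← Category.assoc, ← Category.assoc, BraidedCategory.braiding_naturality_right,
    Category.assoc, Category.assoc, h]

/-- endomorphisms of the unit of a local category: their cones come from compact objects -/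
theorem exists_lift {P : Spc T} {e O : T} {a : e ⟶ 𝟙_ T} {b : 𝟙_ T ⟶ O}
    (hi : IsIdem P.1 e O a b) (r : O ⟶ O) : ∃ (K c : T) (g : O ⟶ K) (δ : K ⟶ O⟦(1 : ℤ)⟧),
      Triangle.mk r g δ ∈ distTriang T ∧ IsCpt c ∧ Nonempty (K ≅ O ⊗ c) := by
  have hK := P.2.toIsThickIdeal
  have hU : LocUnit e O a b := ⟨hi.tri, ann_symm (hi.ef hK)⟩
  obtain ⟨d, hT⟩ := hi.tri
  have h1 : AllFac P.1 (e⟦(1 : ℤ)⟧) := allFac_shift hK 1
    (hi.loc _ (isLoc_allFac hK) (fun w hw => allFac_of_mem hw))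
  obtain ⟨w, α, β, hw, hαβ⟩ := h1 _ isCpt_unit (b ≫ r ≫ d)
  obtain ⟨c', s, δ', hT1⟩ := distinguished_cocone_triangle₁ α
  have hc' : IsCpt c' := isCpt_ext₁ _ hT1 isCpt_unit (hK.cpt hw)
  have hsα : s ≫ α = 0 := comp_distTriang_mor_zero₁₂ _ hT1
  obtain ⟨σ, hσ⟩ : ∃ σ : c' ⟶ 𝟙_ T, s ≫ b ≫ r = σ ≫ b := by
    apply Triangle.coyoneda_exact₃ _ hT
    change (s ≫ b ≫ r) ≫ d = 0
    rw [Category.assoc, Category.assoc, hαβ, ← Category.assoc, hsα, zero_comp]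
  obtain ⟨c, τ, δc, hT2⟩ := distinguished_cocone_triangle σ
  have hc : IsCpt c := isCpt_ext₃ _ hT2 hc' isCpt_unit
  obtain ⟨K, g, δ, hT3⟩ := distinguished_cocone_triangle r
  refine ⟨K, c, g, δ, hT3, hc, ?_⟩
  have hiso : IsIso (O ◁ s) :=
    (Triangle.isZero₃_iff_isIso₁ _ ((tensorLeft O).map_distinguished _ hT1)).1
      (hi.kill' hK hw)
  have hcomm : O ◁ σ ≫ (ρ_ O).hom = (O ◁ s ≫ (ρ_ O).hom) ≫ r := by
    apply hU.uniqT' c' hU.ann
    simp only [Category.assoc]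
    rw [← Category.assoc (b ▷ c'), ← Category.assoc (b ▷ c'), ← whisker_exchange,
      ← whisker_exchange]
    simp only [Category.assoc]
    rw [rightUnitor_naturality, ← Category.assoc (b ▷ 𝟙_ T), rightUnitor_naturality,
      Category.assoc, ← unitors_equal, ← Category.assoc (𝟙_ T ◁ σ), ← Category.assoc (𝟙_ T ◁ s),
      leftUnitor_naturality, leftUnitor_naturality, Category.assoc, Category.assoc, hσ]
  let i : O ⊗ c' ≅ O := asIso (O ◁ s) ≪≫ ρ_ O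
  let T1 := (tensorLeft O).mapTriangle.obj (Triangle.mk σ τ δc)
  let j : T1 ≅ Triangle.mk r g δ := isoTriangleOfIso₁₂ T1 (Triangle.mk r g δ)
    ((tensorLeft O).map_distinguished _ hT2) hT3 i (ρ_ O) hcomm
  exact ⟨(Triangle.π₃.mapIso j).symm⟩

end

section

variable {T : Type u} [Category.{v} T] [Preadditive T] [HasZeroObject T]
    [HasShift T ℤ] [∀ n : ℤ, (shiftFunctor T n).Additive] [Pretriangulated T]
    [MonoidalCategory T] [SymmetricCategory T] [RigidlyCompactlyGenerated T]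
variable {S : Type u'} [Category.{v} S] [Preadditive S] [HasZeroObject S]
    [HasShift S ℤ] [∀ n : ℤ, (shiftFunctor S n).Additive] [Pretriangulated S]
    [MonoidalCategory S] [SymmetricCategory S] [RigidlyCompactlyGenerated S]
variable {Φ : T ⥤ S} [Φ.Monoidal] [Φ.CommShift ℤ] [Φ.IsTriangulated]

lemma Kl.unwhisker {A B c y : S} {ψ : c ⟶ y} (h : Kl (A ⊗ B) ψ) : Kl A (B ◁ ψ) := by
  have h1 : (A ⊗ B) ◁ ψ = 0 := h
  rw [MonoidalCategory.tensor_whiskerLeft] at h1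
  change A ◁ (B ◁ ψ) = 0
  rw [← cancel_epi (α_ A B c).hom, comp_zero, ← cancel_mono (α_ A B y).inv, zero_comp,
    Category.assoc]
  exact h1

/-- every nonzero object supported at a point over `P` is detected by the image of the limit
of the quotients of the unit -/
theorem exists_detect (hpres : ∀ J : Type v, PreservesColimitsOfShape (Discrete J) Φ)
    {P : Spc T} {e O : T} {a : e ⟶ 𝟙_ T} {b : 𝟙_ T ⟶ O}
    (hA : AffUnit e O a b) (hi : IsIdem P.1 e O a b) {Q : Spc S} {g : S}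
    (hg : IsBalmerFavi Q g) (hQP : Spc.comap Φ Q = P)
    {H : ℕ → T} {u : ∀ n, O ⟶ H n} {v : ∀ n, H n ⟶ H (n + 1)} {E : T} {ι : ∀ n, H n ⟶ E}
    (hE : IsHoc H v E ι) (hQR : ∀ n, QR e O (H n) (u n)) (huv : ∀ n, u n ≫ v n = u (n + 1))
    (hu0 : ∀ s : O ⟶ O, s ≫ u 0 = 0 → s = 0) (K c : ℕ → T)
    (hK : ∀ (n : ℕ) (L : ObjectProperty T), IsLocIdeal L → L (H (n + 1)) → L (H n ⊗ K n))
    (hc : ∀ n, IsCpt (c n)) (hcP : ∀ n, ¬ P.1 (c n)) (hKc : ∀ n, Nonempty (K n ≅ O ⊗ c n)) :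
    ∃ F : S, locIdeal (fun y => y = g) F ∧ ¬ IsZero (F ⊗ Φ.obj E) := by
  obtain ⟨c₀, e₂, f₂, a₂, b₂, hc₀, hU₂, hloc, hne⟩ := exists_piece hg
  refine ⟨c₀ ⊗ f₂, hloc, ?_⟩
  have hF0 : ¬ IsZero (c₀ ⊗ f₂) := fun h =>
    hne (𝟙_ S) isCpt_unit Q.2.ne_top (isZero_tensor_left _ h)
  let Z : ObjectProperty T := fun X => Ann (c₀ ⊗ f₂) (Φ.obj X)
  have hZ : IsLocIdeal Z := isLocIdeal_map hpres (isLocIdeal_ann _)
  have hloc' : ∀ X : T, locIdeal (fun y => y = g) ((c₀ ⊗ f₂) ⊗ Φ.obj X) := fun X =>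
    (isLocIdeal_locIdeal _).tensor' _ hloc
  have hPQ : ∀ w, P.1 w → Q.1 (Φ.obj w) := by
    intro w hw
    rw [← hQP] at hw
    exact hw.2
  -- step 0
  have h0 : ¬ Z O := by
    intro h
    have he : Z e := hi.loc _ hZ.toIsLoc (fun w hw => by
      have h1 : Ann (Φ.obj w) g := ann_of_mem hg (hPQ w hw)
      exact ann_symm (locIdeal_le (isLocIdeal_ann (Φ.obj w))
        (fun y hy => by rw [show y = g from hy]; exact h1) hloc))
    obtain ⟨d, hT⟩ := hi.tri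
    have h1 : Z (𝟙_ T) := hZ.ext₂ _ hT he h
    apply hF0
    have h2 : IsZero ((c₀ ⊗ f₂) ⊗ Φ.obj (𝟙_ T)) := h1
    exact h2.of_iso ((ρ_ _).symm ≪≫ whiskerLeftIso _ (Functor.Monoidal.εIso Φ))
  -- step 1
  have h1 : ¬ Z (H 0) := by
    intro h
    apply h0
    obtain ⟨N, hN⟩ := hA.bdd
    refine bdd_mem hA hZ.toIsLoc hA.ann hA.neg hN (fun k X hX _ => ?_)
    obtain ⟨ret⟩ := exists_retract hA hX (hQR 0) (fun r hr x => by rw [hu0 r hr, zero_comp])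
    exact hZ.toIsLoc.retract ret (hZ.tensor X _ h)
  -- step 2
  have h2 : ∀ n, ¬ Z (H n) := by
    intro n
    induction n with
    | zero => exact h1
    | succ n ih =>
      intro h
      have h3 := hK n Z hZ h
      obtain ⟨k⟩ := hKc n
      have h4 : Z (H n ⊗ c n) := hZ.iso (whiskerLeftIso (H n) k ≪≫ (α_ (H n) O (c n)).symm ≪≫
        whiskerRightIso (hA.m (hQR n).hrt.1.1) (c n)) h3
      have hQc : ¬ Q.1 (Φ.obj (c n)) := by
        intro h5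
        apply hcP n
        rw [← hQP]
        exact ⟨hc n, h5⟩
      apply tensor_ne_zero hg (isCpt_map Φ (hc n)) hQc (hloc' (H n)) ih
      have h5 : IsZero ((c₀ ⊗ f₂) ⊗ Φ.obj (H n ⊗ c n)) := h4
      refine h5.of_iso ?_
      exact β_ _ _ ≪≫ α_ _ _ _ ≪≫ whiskerLeftIso _ (tIso Φ _ _)
  -- step 3
  intro hcon
  have hE2 := (hE.map Φ hpres).map (tensorLeft (c₀ ⊗ f₂)) (fun _ => inferInstance)
  let ψ : ∀ n, 𝟙_ S ⟶ Φ.obj (H n) := fun n =>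
    (Functor.Monoidal.εIso Φ).hom ≫ Φ.map (b ≫ u n)
  obtain ⟨k, hk⟩ := hE2.vanish hc₀ 0
    (((ρ_ c₀).inv ≫ c₀ ◁ b₂ ≫ (ρ_ (c₀ ⊗ f₂)).inv) ≫ (c₀ ⊗ f₂) ◁ ψ 0)
    (IsZero.eq_of_tgt (show IsZero ((tensorLeft (c₀ ⊗ f₂)).obj (Φ.obj E)) from hcon) _ _)
  have htr : ∀ k, (c₀ ⊗ f₂) ◁ ψ 0 ≫ trans (fun n => (tensorLeft (c₀ ⊗ f₂)).obj (Φ.obj (H n)))
      (fun n => (tensorLeft (c₀ ⊗ f₂)).map (Φ.map (v n))) 0 k = (c₀ ⊗ f₂) ◁ ψ (0 + k) := by
    intro k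
    induction k with
    | zero => exact Category.comp_id _
    | succ k ih =>
      rw [trans, ← Category.assoc, ih]
      change (c₀ ⊗ f₂) ◁ ψ (0 + k) ≫ (c₀ ⊗ f₂) ◁ Φ.map (v (0 + k)) = (c₀ ⊗ f₂) ◁ ψ (0 + k + 1)
      rw [← MonoidalCategory.whiskerLeft_comp]
      simp only [ψ, Category.assoc, ← Φ.map_comp, huv]
  rw [Category.assoc, htr] at hk
  generalize 0 + k = j at hk
  have hX : Ann e₂ ((c₀ ⊗ f₂) ⊗ Φ.obj (H j)) :=
    (isLocIdeal_ann e₂).tensor' _ ((isLocIdeal_ann e₂).tensor c₀ f₂ hU₂.ann)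
  have hk2 : (ρ_ (c₀ ⊗ f₂)).inv ≫ (c₀ ⊗ f₂) ◁ ψ j = 0 := by
    apply hU₂.uniqT c₀ hX
    rw [← cancel_epi (ρ_ c₀).inv, comp_zero, comp_zero]
    simpa only [Category.assoc] using hk
  have hk3 : Kl (c₀ ⊗ f₂) (ψ j) := by
    change (c₀ ⊗ f₂) ◁ ψ j = 0
    rw [← cancel_epi (ρ_ (c₀ ⊗ f₂)).inv, hk2, comp_zero]
  have hk4 : Kl (c₀ ⊗ f₂) (Φ.map (b ≫ u j)) := by
    have := hk3.precomp (Functor.Monoidal.εIso Φ).inv
    simpa only [ψ, Iso.inv_hom_id_assoc] using this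
  have hk5 : Kl (c₀ ⊗ f₂) (Φ.obj (H j) ◁ Φ.map (b ≫ u j)) := (hk4.right _).unwhisker
  have hk6 : Kl (c₀ ⊗ f₂) (Φ.map (H j ◁ (b ≫ u j))) := by
    rw [Functor.Monoidal.map_whiskerLeft]
    exact (hk5.postcomp _).precomp _
  obtain ⟨ν, hν⟩ := exists_action hA (hQR j).hrt (hQR j) ((hQR j).self hA)
  have h3 : H j ◁ (b ≫ u j) ≫ ν = (ρ_ (H j)).hom := by
    rw [MonoidalCategory.whiskerLeft_comp, Category.assoc, hν, hA.b_m]
  have hk7 : Kl (c₀ ⊗ f₂) (Φ.map (ρ_ (H j)).hom) := by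
    rw [← h3, Φ.map_comp]
    exact hk6.postcomp _
  have hk8 : (c₀ ⊗ f₂) ◁ (Φ.map (ρ_ (H j)).hom) = 0 := hk7
  have h4 := isZero_of_isIso_of_eq_zero _ hk8
  exact h2 j (h4.of_iso (whiskerLeftIso _ (Φ.mapIso (ρ_ (H j)).symm)))

/-- T-nilpotence: telescopes of elements of the maximal ideal vanish at `P` -/
theorem telescope_zero (hpres : ∀ J : Type v, PreservesColimitsOfShape (Discrete J) Φ)
    (hcons : ∀ t : T, IsZero (Φ.obj t) → IsZero t) (hS : LocalToGlobal S)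
    (hS' : TensorProductFormula S) {P : Spc T} {gP : T} (hgP : IsBalmerFavi P gP)
    {e O : T} {a : e ⟶ 𝟙_ T} {b : 𝟙_ T ⟶ O}
    (hA : AffUnit e O a b) (hi : IsIdem P.1 e O a b) (r : ℕ → (O ⟶ O))
    (hr : ∀ n, ¬ IsIso (r n)) {N : T} {ιN : ℕ → (O ⟶ N)} (hN : IsHoc (fun _ => O) r N ιN) :
    IsZero (gP ⊗ N) := by
  choose K c gg δ hT hc hKc using fun n => exists_lift hi (r n)
  have hcP : ∀ n, ¬ P.1 (c n) := by
    intro n h
    apply hr n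
    obtain ⟨k⟩ := hKc n
    have h1 : IsZero (O ⊗ c n) := hi.kill' P.2.toIsThickIdeal h
    exact (Triangle.isZero₃_iff_isIso₁ _ (hT n)).1 (h1.of_iso k)
  obtain ⟨H, u, v, E, ι, hE, hQR, huv, hu0, hK, hEr⟩ := exists_seq hA r K
    (fun n => ⟨gg n, δ n, hT n⟩)
  -- `E ⊗ N = 0`
  have hEN : Ann E N := (hN.map (tensorLeft E) (fun _ => inferInstance)).isZero_of_zero hEr
  by_contra hcon
  have h1 : ¬ IsZero (Φ.obj (gP ⊗ N)) := fun h => hcon (hcons _ h)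
  -- a point detecting the image
  obtain ⟨Q, g, hg, hgt⟩ : ∃ (Q : Spc S) (g : S), IsBalmerFavi Q g ∧
      ¬ IsZero (g ⊗ Φ.obj (gP ⊗ N)) := by
    by_contra h
    push Not at h
    apply h1
    have h2 : locIdeal (fun x : S => x = Φ.obj (gP ⊗ N)) (Φ.obj (gP ⊗ N)) :=
      subset_locIdeal _ rfl
    rw [hS] at h2
    have h3 : IsLocIdeal (fun x : S => IsZero x) :=
      { toIsLoc := isLoc_isZero
        tensor := fun X Y h => isZero_tensor_left X h }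
    refine locIdeal_le h3 ?_ h2
    rintro _ ⟨Q, g, hg, rfl⟩
    exact h Q g hg
  have htP : locIdeal (fun y => y = gP) (gP ⊗ N) :=
    (isLocIdeal_locIdeal _).tensor' _ (subset_locIdeal _ rfl)
  have hQP : Spc.comap Φ Q = P := comap_eq hpres hgP hg htP hgt
  obtain ⟨F, hF, hFE⟩ := exists_detect hpres hA hi hg hQP hE hQR huv hu0 K c hK hc hcP hKc
  have h2 : Ann (Φ.obj E) (g ⊗ Φ.obj (gP ⊗ N)) := by
    apply (isLocIdeal_ann (Φ.obj E)).tensor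
    have h3 : Ann E (gP ⊗ N) := (isLocIdeal_ann E).tensor gP N hEN
    exact (Φ.map_isZero h3).of_iso (tIso Φ _ _)
  have h3 : IsZero (g ⊗ ((F ⊗ Φ.obj E) ⊗ Φ.obj (gP ⊗ N))) := by
    have h4 : Ann F (Φ.obj E ⊗ (g ⊗ Φ.obj (gP ⊗ N))) := isZero_tensor_left F h2
    have h5 : IsZero (F ⊗ (Φ.obj E ⊗ (g ⊗ Φ.obj (gP ⊗ N)))) := h4
    refine h5.of_iso ?_
    exact (α_ _ _ _).symm ≪≫ whiskerRightIso (β_ g (F ⊗ Φ.obj E)) _ ≪≫ α_ _ _ _ ≪≫ α_ _ _ _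
  refine hS' Q g hg _ _ ?_ hgt h3
  obtain ⟨j⟩ := iso_of_mem hg ((isLocIdeal_locIdeal (fun y => y = g)).tensor' (Y := Φ.obj E) F hF)
  exact fun h => hFE (h.of_iso j.symm)

end

end Pool.Agent.Helper609_TT
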