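import Pool.Agent.Helper609_TT.Res
import Pool.Agent.Helper609_TT.Alg

/-!
# Devissage: localizing subcategories and modules
-/

namespace Pool.Agent.Helper609_TT

open CategoryTheory CategoryTheory.Limits CategoryTheory.Pretriangulated
open CategoryTheory.MonoidalCategory ZeroObject

universe v u u'

section

variable {C : Type u} [Category.{v} C] [Preadditive C] [HasZeroObject C]
    [HasShift C ℤ] [∀ n : ℤ, (shiftFunctor C n).Additive] [Pretriangulated C]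
    [MonoidalCategory C] [SymmetricCategory C] [RigidlyCompactlyGenerated C]

variable {e O : C} {a : e ⟶ 𝟙_ C} {b : 𝟙_ C ⟶ O}

lemma exists_unitHeart (hA : AffUnit e O a b) : ∃ (H : C) (u : O ⟶ H), Hrt e O H ∧
    (∀ y : O ⟶ H, ∃ r : O ⟶ O, r ≫ u = y) ∧ ∀ r : O ⟶ O, r ≫ u = 0 → r = 0 := by
  obtain ⟨B, Q, p, q, w, hT, hB, hQ⟩ := (conn_unit hA).heart hA
  exact ⟨Q, q, hQ, post_surj hT (vn_shift1.2 (hB.2 _ (by norm_num))),
    post_inj hT (vn_shift1.2 (hB.2 _ (by norm_num)))⟩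

/-- equivalence induced by two surjections with the same kernel -/
noncomputable def equivOfKer {R : Type v} [Ring R] {M : Type v} [AddCommGroup M] [Module R M]
    {A : Type v} [AddCommGroup A] [Module R A] {B : Type v} [AddCommGroup B] [Module R B]
    (f : M →ₗ[R] A) (g : M →ₗ[R] B) (hf : Function.Surjective f) (hg : Function.Surjective g)
    (h : LinearMap.ker f = LinearMap.ker g) : A ≃ₗ[R] B :=
  (f.quotKerEquivOfSurjective hf).symm ≪≫ₗ Submodule.quotEquivOfEq _ _ h ≪≫ₗ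
    g.quotKerEquivOfSurjective hg

/-- every module is the module of an object of the heart -/
lemma exists_em (hA : AffUnit e O a b) (N : ModuleCat.{v} (End O)ᵐᵒᵖ) :
    ∃ X : C, Hrt e O X ∧ Nonempty ((O ⟶ X) ≃ₗ[(End O)ᵐᵒᵖ] N) := by
  classical
  obtain ⟨H, u, hH, hs, hk⟩ := exists_unitHeart hA
  let ψ : (End O)ᵐᵒᵖ ≃ₗ[(End O)ᵐᵒᵖ] (O ⟶ H) :=
    LinearEquiv.ofBijective (LinearMap.toSpanSingleton (End O)ᵐᵒᵖ (O ⟶ H) u) (by
      constructor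
      · rw [injective_iff_map_eq_zero]
        intro r hr
        exact MulOpposite.unop_injective (hk r.unop hr)
      · intro y
        obtain ⟨r, hr⟩ := hs y
        exact ⟨MulOpposite.op r, hr⟩)
  let F₀ : (Π₀ _ : N, (O ⟶ H)) →ₗ[(End O)ᵐᵒᵖ] N :=
    DFinsupp.lsum ℕ (fun n => (LinearMap.toSpanSingleton (End O)ᵐᵒᵖ N n) ∘ₗ ψ.symm.toLinearMap)
  have hF₀ : Function.Surjective F₀ := by
    intro n
    refine ⟨DFinsupp.single n (ψ 1), ?_⟩
    simp only [F₀, DFinsupp.lsum_single, LinearMap.comp_apply, LinearEquiv.coe_coe,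
      LinearEquiv.symm_apply_apply, LinearMap.toSpanSingleton_apply, one_smul]
  have hX : Hrt e O (∐ fun _ : N => H) := hrt_coprod hA (fun _ => hH)
  let i := piCoprod hA.toLocUnit (X := fun _ : N => H) (fun _ => hH.1.1)
  let F : (O ⟶ ∐ fun _ : N => H) →ₗ[(End O)ᵐᵒᵖ] N := F₀ ∘ₗ i.symm.toLinearMap
  have hF : Function.Surjective F := hF₀.comp i.symm.surjective
  obtain ⟨K, Q, _, q, _, _, _, hQ, hqs, hqk⟩ := exists_quot hA hX (LinearMap.ker F)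
  refine ⟨Q, hQ, ⟨equivOfKer (postL O q) F hqs hF ?_⟩⟩
  ext x
  exact hqk x

/-- the modules of the objects of the heart lying in `L` -/
def MD (e O : C) (L : ObjectProperty C) : ModuleCat.{v} (End O)ᵐᵒᵖ → Prop := fun N =>
  ∃ X : C, Hrt e O X ∧ L X ∧ Nonempty ((O ⟶ X) ≃ₗ[(End O)ᵐᵒᵖ] N)

lemma MD.mem (hA : AffUnit e O a b) {L : ObjectProperty C} (hL : IsLoc L)
    {N : ModuleCat.{v} (End O)ᵐᵒᵖ} (h : MD e O L N) {X : C} (hX : Hrt e O X)
    (g : (O ⟶ X) ≃ₗ[(End O)ᵐᵒᵖ] N) : L X := by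
  obtain ⟨Y, hY, hLY, ⟨g'⟩⟩ := h
  obtain ⟨i⟩ := hY.isoOf hA hX (g' ≪≫ₗ g.symm)
  exact hL.iso i hLY

/-- the module of the fiber of an epimorphism in the heart -/
noncomputable def fibEquiv {X K Q : C} {i : K ⟶ X} {q : X ⟶ Q} {w : Q ⟶ K⟦(1 : ℤ)⟧}
    (hT : Triangle.mk i q w ∈ distTriang C) (hV : Vn O 1 Q)
    {N : Type v} [AddCommGroup N] [Module (End O)ᵐᵒᵖ N] (g : (O ⟶ X) ≃ₗ[(End O)ᵐᵒᵖ] N)
    (A : Submodule (End O)ᵐᵒᵖ N) (h : ∀ x : O ⟶ X, x ≫ q = 0 ↔ g x ∈ A) :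
    (O ⟶ K) ≃ₗ[(End O)ᵐᵒᵖ] A := by
  have hiq : i ≫ q = 0 := comp_distTriang_mor_zero₁₂ _ hT
  refine LinearEquiv.ofBijective
    (LinearMap.codRestrict A (g.toLinearMap ∘ₗ postL O i) (fun x => ?_)) ⟨?_, ?_⟩
  · apply (h _).1
    change (x ≫ i) ≫ q = 0
    rw [Category.assoc, hiq, comp_zero]
  · rw [injective_iff_map_eq_zero]
    intro x hx
    have h1 : g (x ≫ i) = 0 := congrArg Subtype.val hx
    rw [LinearEquiv.map_eq_zero_iff] at h1
    exact post_inj₁ hT hV x h1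
  · rintro ⟨n, hn⟩
    have h1 : g.symm n ≫ q = 0 := by
      rw [h, LinearEquiv.apply_symm_apply]
      exact hn
    obtain ⟨x, hx⟩ : ∃ x : O ⟶ K, g.symm n = x ≫ i := Triangle.coyoneda_exact₂ _ hT _ h1
    refine ⟨x, Subtype.ext ?_⟩
    change g (x ≫ i) = n
    rw [← hx, LinearEquiv.apply_symm_apply]

variable [IsTriangulated C]

theorem isGood_MD (hA : AffUnit e O a b) {L : ObjectProperty C} (hL : IsLoc L) :
    IsGood (MD e O L) where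
  iso {M N} g := fun ⟨X, hX, hLX, ⟨g'⟩⟩ => ⟨X, hX, hLX, ⟨g' ≪≫ₗ g⟩⟩
  sum J N h := by
    classical
    choose X hX hLX g using h
    refine ⟨∐ X, hrt_coprod hA hX, hL.coprod J X hLX, ⟨?_⟩⟩
    exact (piCoprod hA.toLocUnit (fun j => (hX j).1.1)).symm ≪≫ₗ
      DFinsupp.mapRange.linearEquiv (fun j => (g j).some)
  ext N A h1 h2 := by
    obtain ⟨X, hX, ⟨g⟩⟩ := exists_em hA N
    obtain ⟨K, Q, i, q, w, hT, hK, hQ, hqs, hqk⟩ := exists_quot hA hX (A.comap g.toLinearMap)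
    have hLK : L K := h1.mem hA hL hK (fibEquiv hT (hQ.2.2 1 (by norm_num)) g A hqk)
    have hLQ : L Q := by
      refine h2.mem hA hL hQ (equivOfKer (postL O q) (A.mkQ ∘ₗ g.toLinearMap) hqs
        (A.mkQ_surjective.comp g.surjective) ?_)
      ext x
      rw [LinearMap.ker_comp, Submodule.ker_mkQ]
      exact hqk x
    exact ⟨X, hX, hL.ext₂ _ hT hLK hLQ, ⟨g⟩⟩
  res U hU N hN := by
    obtain ⟨X, hX, ⟨g⟩⟩ := exists_em hA N
    refine ⟨X, hX, ?_, ⟨g⟩⟩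
    refine mem_of_res hA hL
      (W := fun Y => Hrt e O Y ∧ ∃ M, U M ∧ Nonempty ((O ⟶ Y) ≃ₗ[(End O)ᵐᵒᵖ] M))
      (fun Y hY => hY.1.1) ?_ ⟨hX, N, hN, ⟨g⟩⟩
    rintro Y ⟨hY, M, hM, ⟨g⟩⟩
    obtain ⟨F, f, ⟨Z, hZ, hLZ, ⟨g'⟩⟩, hf, hK⟩ := hU M hM
    obtain ⟨φ, hφ⟩ := hZ.1.real hA hY.2 (g.symm.toLinearMap ∘ₗ f ∘ₗ g'.toLinearMap)
    have hφs : ∀ y : O ⟶ Y, ∃ x : O ⟶ Z, x ≫ φ = y := by
      intro y
      obtain ⟨x, hx⟩ := hf (g y)
      refine ⟨g'.symm x, ?_⟩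
      rw [hφ]
      simp only [LinearMap.comp_apply, LinearEquiv.coe_coe, LinearEquiv.apply_symm_apply, hx,
        LinearEquiv.symm_apply_apply]
    obtain ⟨K, i, w, hT, hKh⟩ := exists_ker hZ hY φ hφs
    refine ⟨K, Z, i, φ, w, hT, hLZ, hKh, _, hK, ⟨?_⟩⟩
    refine fibEquiv hT (hY.2.2 1 (by norm_num)) g' (LinearMap.ker f) (fun x => ?_)
    rw [hφ, LinearMap.mem_ker]
    change g.symm (f (g' x)) = 0 ↔ _
    rw [LinearEquiv.map_eq_zero_iff]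

end

end Pool.Agent.Helper609_TT
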