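import Pool.Agent.Helper609_TT.Tstr

/-!
# Objects of the heart and modules over the endomorphism ring of the unit
-/

namespace Pool.Agent.Helper609_TT

open CategoryTheory CategoryTheory.Limits CategoryTheory.Pretriangulated
open CategoryTheory.MonoidalCategory

universe v u u'

section

variable {C : Type u} [Category.{v} C] [Preadditive C] [HasZeroObject C]
    [HasShift C ℤ] [∀ n : ℤ, (shiftFunctor C n).Additive] [Pretriangulated C]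

lemma dist_iso₂ {X Y Y' Z : C} {f : X ⟶ Y} {g : Y ⟶ Z} {h : Z ⟶ X⟦(1 : ℤ)⟧}
    (hT : Triangle.mk f g h ∈ distTriang C) (i : Y ≅ Y') :
    Triangle.mk (f ≫ i.hom) (i.inv ≫ g) h ∈ distTriang C := by
  refine isomorphic_distinguished _ hT _ ?_
  refine Triangle.isoMk _ _ (Iso.refl _) i.symm (Iso.refl _) ?_ ?_ ?_
  · change (f ≫ i.hom) ≫ i.inv = 𝟙 _ ≫ f
    simp
  · change (i.inv ≫ g) ≫ 𝟙 _ = i.inv ≫ g
    simp
  · change h ≫ (shiftFunctor C (1 : ℤ)).map (𝟙 _) = 𝟙 _ ≫ h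
    simp

lemma dist_iso₁ {X X' Y Z : C} {f : X ⟶ Y} {g : Y ⟶ Z} {h : Z ⟶ X⟦(1 : ℤ)⟧}
    (hT : Triangle.mk f g h ∈ distTriang C) (i : X ≅ X') :
    Triangle.mk (i.inv ≫ f) g (h ≫ i.hom⟦(1 : ℤ)⟧') ∈ distTriang C := by
  refine isomorphic_distinguished _ hT _ ?_
  refine Triangle.isoMk _ _ i.symm (Iso.refl _) (Iso.refl _) ?_ ?_ ?_
  · change (i.inv ≫ f) ≫ 𝟙 _ = i.inv ≫ f
    simp
  · change g ≫ 𝟙 _ = 𝟙 _ ≫ g
    simp
  · change (h ≫ (shiftFunctor C (1 : ℤ)).map i.hom) ≫ (shiftFunctor C (1 : ℤ)).map i.inv = 𝟙 _ ≫ h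
    rw [Category.assoc, ← Functor.map_comp, i.hom_inv_id, CategoryTheory.Functor.map_id,
      Category.id_comp]
    exact Category.comp_id _

lemma dist_shift1 {X Y Z : C} {f : X ⟶ Y} {g : Y ⟶ Z} {h : Z ⟶ X⟦(1 : ℤ)⟧}
    (hT : Triangle.mk f g h ∈ distTriang C) :
    Triangle.mk (-f⟦(1 : ℤ)⟧') (-g⟦(1 : ℤ)⟧') (-h⟦(1 : ℤ)⟧') ∈ distTriang C :=
  rot_of_distTriang _ (rot_of_distTriang _ (rot_of_distTriang _ hT))

lemma exists_inv_rot {X Y Z : C} {f : X ⟶ Y} {g : Y ⟶ Z} {h : Z ⟶ X⟦(1 : ℤ)⟧}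
    (hT : Triangle.mk f g h ∈ distTriang C) :
    ∃ (u : Z⟦(-1 : ℤ)⟧ ⟶ X) (v : Y ⟶ (Z⟦(-1 : ℤ)⟧)⟦(1 : ℤ)⟧),
      Triangle.mk u f v ∈ distTriang C :=
  ⟨_, _, inv_rot_of_distTriang _ hT⟩

lemma post_inj {O : C} {X Y Z : C} {f : X ⟶ Y} {g : Y ⟶ Z} {h : Z ⟶ X⟦(1 : ℤ)⟧}
    (hT : Triangle.mk f g h ∈ distTriang C) (hV : Vn O 0 X) (x : O ⟶ Y) (hx : x ≫ g = 0) :
    x = 0 := by
  obtain ⟨y, hy⟩ : ∃ y : O ⟶ X, x = y ≫ f := Triangle.coyoneda_exact₂ _ hT x hx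
  rw [hy, vn_zero.1 hV y, zero_comp]

lemma post_surj {O : C} {X Y Z : C} {f : X ⟶ Y} {g : Y ⟶ Z} {h : Z ⟶ X⟦(1 : ℤ)⟧}
    (hT : Triangle.mk f g h ∈ distTriang C) (hV : Vn O (-1) X) (z : O ⟶ Z) :
    ∃ y : O ⟶ Y, y ≫ g = z := by
  have h1 : z ≫ h = 0 := vn_zero.1 ((vn_shift (by ring)).2 hV) _
  obtain ⟨y, hy⟩ : ∃ y : O ⟶ Y, z = y ≫ g := Triangle.coyoneda_exact₃ _ hT z h1
  exact ⟨y, hy.symm⟩

lemma post_inj₁ {O : C} {X Y Z : C} {f : X ⟶ Y} {g : Y ⟶ Z} {h : Z ⟶ X⟦(1 : ℤ)⟧}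
    (hT : Triangle.mk f g h ∈ distTriang C) (hV : Vn O 1 Z) (x : O ⟶ X) (hx : x ≫ f = 0) :
    x = 0 := by
  obtain ⟨u, v, hT'⟩ := exists_inv_rot hT
  obtain ⟨y, hy⟩ : ∃ y : O ⟶ Z⟦(-1 : ℤ)⟧, x = y ≫ u := Triangle.coyoneda_exact₂ _ hT' x hx
  rw [hy, vn_zero.1 ((vn_shift (by ring)).2 hV) y, zero_comp]

/-- postcomposition as a linear map -/
def postL (O : C) {X Y : C} (f : X ⟶ Y) : (O ⟶ X) →ₗ[(End O)ᵐᵒᵖ] (O ⟶ Y) where
  toFun x := x ≫ f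
  map_add' x y := Preadditive.add_comp _ _ _ _ _ _
  map_smul' r x := by
    change (r.unop ≫ x) ≫ f = r.unop ≫ (x ≫ f)
    rw [Category.assoc]

lemma postL_apply (O : C) {X Y : C} (f : X ⟶ Y) (x : O ⟶ X) : postL O f x = x ≫ f := rfl

end

section

variable {C : Type u} [Category.{v} C] [Preadditive C] [HasZeroObject C]
    [HasShift C ℤ] [∀ n : ℤ, (shiftFunctor C n).Additive] [Pretriangulated C]
    [MonoidalCategory C] [SymmetricCategory C] [RigidlyCompactlyGenerated C]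

variable {e O : C} {a : e ⟶ 𝟙_ C} {b : 𝟙_ C ⟶ O}

lemma Hrt.iso {X Y : C} (i : X ≅ Y) (h : Hrt e O X) : Hrt e O Y :=
  ⟨⟨(isLocIdeal_ann e).iso i h.1.1, fun k hk => vn_iso i (h.1.2 k hk)⟩, h.2.iso i⟩

/-- truncation of a connective object to the heart -/
lemma Conn.heart (hA : AffUnit e O a b) {X : C} (hX : Conn e O X) :
    ∃ (B Q : C) (p : B⟦(1 : ℤ)⟧ ⟶ X) (q : X ⟶ Q) (w : Q ⟶ B⟦(1 : ℤ)⟧⟦(1 : ℤ)⟧),
      Triangle.mk p q w ∈ distTriang C ∧ Conn e O B ∧ Hrt e O Q := by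
  have hX' : Ann e (X⟦(-1 : ℤ)⟧) := (isLocIdeal_ann e).shift _ _ hX.1
  obtain ⟨B, Z, p, q, w, hT, hB, hZ⟩ := exists_trunc hA hX'
  have hBc : Conn e O B := hB _ (isAisle_conn hA.toLocUnit) (conn_unit hA)
  let j : (X⟦(-1 : ℤ)⟧)⟦(1 : ℤ)⟧ ≅ X := (shiftFunctorCompIsoId C (-1) 1 (by norm_num)).app X
  have hT' := dist_iso₂ (dist_shift1 hT) j
  refine ⟨B, Z⟦(1 : ℤ)⟧, _, _, _, hT', hBc, ?_, ?_⟩
  · refine ⟨(isLocIdeal_ann e).shift _ _ hZ.1, fun k hk => ?_⟩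
    exact vn_ext₃ _ hT' (hX.2 k hk) (vn_shift1.2 (hBc.2 _ (by omega)))
  · refine ⟨(isLocIdeal_ann e).shift _ _ hZ.1, fun k hk => ?_⟩
    exact vn_shift1.2 (hZ.2 _ (by omega))

/-- cokernels in the heart -/
lemma exists_coker (hA : AffUnit e O a b) {Z X : C} (hZ : Conn e O Z) (hX : Conn e O X)
    (f : Z ⟶ X) : ∃ (Q : C) (q : X ⟶ Q), Hrt e O Q ∧ (∀ y : O ⟶ Q, ∃ x, x ≫ q = y) ∧
      (∀ x : O ⟶ X, x ≫ q = 0 → ∃ z : O ⟶ Z, z ≫ f = x) ∧ f ≫ q = 0 := by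
  have hc := isAisle_conn hA.toLocUnit
  obtain ⟨D, g, h, hT⟩ := distinguished_cocone_triangle f
  have hD : Conn e O D := hc.ext₃ _ hT hZ hX
  obtain ⟨B, Q, p, q, w, hT', hB, hQ⟩ := hD.heart hA
  have hfg : f ≫ g = 0 := comp_distTriang_mor_zero₁₂ _ hT
  refine ⟨Q, g ≫ q, hQ, ?_, ?_, ?_⟩
  · intro y
    obtain ⟨d, hd⟩ := post_surj hT' (vn_shift1.2 (hB.2 _ (by norm_num))) y
    obtain ⟨x, hx⟩ := post_surj hT (hZ.2 _ (by norm_num)) d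
    exact ⟨x, by rw [← Category.assoc, hx, hd]⟩
  · intro x hx
    rw [← Category.assoc] at hx
    have h1 := post_inj hT' (vn_shift1.2 (hB.2 _ (by norm_num))) _ hx
    obtain ⟨z, hz⟩ : ∃ z : O ⟶ Z, x = z ≫ f := Triangle.coyoneda_exact₂ _ hT x h1
    exact ⟨z, hz.symm⟩
  · rw [← Category.assoc, hfg, zero_comp]

/-- kernels of epimorphisms in the heart -/
lemma exists_ker {X Q : C} (hX : Hrt e O X) (hQ : Hrt e O Q)
    (q : X ⟶ Q) (hs : ∀ y : O ⟶ Q, ∃ x, x ≫ q = y) :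
    ∃ (K : C) (i : K ⟶ X) (w : Q ⟶ K⟦(1 : ℤ)⟧), Triangle.mk i q w ∈ distTriang C ∧
      Hrt e O K := by
  obtain ⟨K, i, w, hT⟩ := distinguished_cocone_triangle₁ q
  have hK : Ann e K := (isLocIdeal_ann e).toIsLoc.ext₁ _ hT hX.1.1 hQ.1.1
  refine ⟨K, i, w, hT, ⟨hK, fun k hk => ?_⟩, ⟨hK, fun k hk => ?_⟩⟩
  · rcases lt_or_ge (k + 1) 0 with h | h
    · exact vn_ext₁ _ hT (hQ.1.2 _ h) (hX.1.2 _ hk)
    · obtain rfl : k = -1 := by omega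
      refine (vn_shift (k := 0) (n := 1) (by norm_num)).1 ?_
      rw [vn_zero]
      intro φ
      have h1 : φ ≫ i⟦(1 : ℤ)⟧' = 0 := vn_zero.1 (vn_shift1.2 (hX.1.2 _ (by norm_num))) _
      obtain ⟨y, hy⟩ : ∃ y : O ⟶ Q, φ = y ≫ w := Triangle.coyoneda_exact₁ _ hT φ h1
      obtain ⟨x, rfl⟩ := hs y
      have h2 : q ≫ w = 0 := comp_distTriang_mor_zero₂₃ _ hT
      rw [hy, Category.assoc, h2, comp_zero]
  · exact vn_ext₁ _ hT (hQ.2.2 _ (by omega)) (hX.2.2 _ hk)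

lemma conn_copow (hA : AffUnit e O a b) (J : Type v) : Conn e O (∐ fun _ : J => O) :=
  (isAisle_conn hA.toLocUnit).coprod _ _ (fun _ => conn_unit hA)

/-- quotients in the heart -/
lemma exists_quot (hA : AffUnit e O a b) {X : C} (hX : Hrt e O X)
    (N : Submodule (End O)ᵐᵒᵖ (O ⟶ X)) :
    ∃ (K Q : C) (i : K ⟶ X) (q : X ⟶ Q) (w : Q ⟶ K⟦(1 : ℤ)⟧), Triangle.mk i q w ∈ distTriang C ∧
      Hrt e O K ∧ Hrt e O Q ∧ (∀ y : O ⟶ Q, ∃ x, x ≫ q = y) ∧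
      ∀ x : O ⟶ X, x ≫ q = 0 ↔ x ∈ N := by
  obtain ⟨Q, q, hQ, hs, hk, h0⟩ := exists_coker hA (conn_copow hA N) hX.1
    (Sigma.desc fun x : N => x.1)
  obtain ⟨K, i, w, hT, hK⟩ := exists_ker hX hQ q hs
  refine ⟨K, Q, i, q, w, hT, hK, hQ, hs, fun x => ⟨fun hx => ?_, fun hx => ?_⟩⟩
  · obtain ⟨z, rfl⟩ := hk x hx
    obtain ⟨s, g, rfl⟩ := hA.cpt₀ (fun _ => hA.ann) z
    rw [Preadditive.sum_comp]
    refine N.sum_mem (fun j _ => ?_)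
    rw [Category.assoc, Sigma.ι_desc]
    exact N.smul_mem (MulOpposite.op (g j)) j.2
  · have h1 := Sigma.ι (fun _ : N => O) ⟨x, hx⟩ ≫= h0
    rwa [← Category.assoc, Sigma.ι_desc, comp_zero] at h1

/-- realization of linear maps -/
lemma Conn.real (hA : AffUnit e O a b) {X Y : C} (hX : Conn e O X) (hY : Coc e O Y)
    (g : (O ⟶ X) →ₗ[(End O)ᵐᵒᵖ] (O ⟶ Y)) : ∃ φ : X ⟶ Y, ∀ x : O ⟶ X, x ≫ φ = g x := by
  obtain ⟨B, q, w, hB, hT⟩ := hX.cover hA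
  obtain ⟨u, v, hT'⟩ := exists_inv_rot hT
  let φ₀ : (∐ fun _ : (O ⟶ X) => O) ⟶ Y := Sigma.desc (fun x => g x)
  let j : (B⟦(1 : ℤ)⟧)⟦(-1 : ℤ)⟧ ≅ B := (shiftFunctorCompIsoId C 1 (-1) (by norm_num)).app B
  have hB' : Conn e O ((B⟦(1 : ℤ)⟧)⟦(-1 : ℤ)⟧) := (isAisle_conn hA.toLocUnit).iso j.symm hB
  have h0 : u ≫ φ₀ = 0 := by
    apply hB'.ext hA hY
    intro y
    have h1 : (y ≫ u) ≫ (Sigma.desc fun x : (O ⟶ X) => x) = 0 := by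
      have h2 : u ≫ (Sigma.desc fun x : (O ⟶ X) => x) = 0 := comp_distTriang_mor_zero₁₂ _ hT'
      rw [Category.assoc, h2, comp_zero]
    rw [← Category.assoc]
    generalize y ≫ u = z at h1
    obtain ⟨s, c, hz⟩ := hA.cpt₀ (fun _ => hA.ann) z
    have h3 : z ≫ φ₀ = g (z ≫ Sigma.desc fun x : (O ⟶ X) => x) := by
      rw [hz, Preadditive.sum_comp, Preadditive.sum_comp, map_sum]
      refine Finset.sum_congr rfl (fun x _ => ?_)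
      rw [Category.assoc, Category.assoc, Sigma.ι_desc, Sigma.ι_desc]
      exact (g.map_smul (MulOpposite.op (c x)) x).symm
    rw [h3, h1, map_zero]
  obtain ⟨φ, hφ⟩ : ∃ φ : X ⟶ Y, φ₀ = (Sigma.desc fun x : (O ⟶ X) => x) ≫ φ :=
    Triangle.yoneda_exact₂ _ hT' φ₀ h0
  refine ⟨φ, fun x => ?_⟩
  have h1 := Sigma.ι (fun _ : (O ⟶ X) => O) x ≫= hφ
  rw [Sigma.ι_desc, ← Category.assoc, Sigma.ι_desc] at h1
  exact h1.symm

/-- objects of the heart with isomorphic modules are isomorphic -/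
lemma Hrt.isoOf (hA : AffUnit e O a b) {X Y : C} (hX : Hrt e O X) (hY : Hrt e O Y)
    (g : (O ⟶ X) ≃ₗ[(End O)ᵐᵒᵖ] (O ⟶ Y)) : Nonempty (X ≅ Y) := by
  obtain ⟨φ, hφ⟩ := hX.1.real hA hY.2 g.toLinearMap
  obtain ⟨ψ, hψ⟩ := hY.1.real hA hX.2 g.symm.toLinearMap
  refine ⟨⟨φ, ψ, ?_, ?_⟩⟩
  · rw [← sub_eq_zero]
    apply hX.1.ext hA hX.2
    intro x
    rw [Preadditive.comp_sub, ← Category.assoc, hφ, hψ, Category.comp_id, sub_eq_zero]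
    exact g.symm_apply_apply x
  · rw [← sub_eq_zero]
    apply hY.1.ext hA hY.2
    intro x
    rw [Preadditive.comp_sub, ← Category.assoc, hψ, hφ, Category.comp_id, sub_eq_zero]
    exact g.apply_symm_apply x

lemma hrt_coprod (hA : AffUnit e O a b) {J : Type v} {X : J → C} (h : ∀ j, Hrt e O (X j)) :
    Hrt e O (∐ X) :=
  ⟨(isAisle_conn hA.toLocUnit).coprod J X (fun j => (h j).1),
    (isLocIdeal_ann e).coprod J X (fun j => (h j).1.1),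
    fun k hk => hA.vn_coprod (fun j => (h j).1.1) (fun j => (h j).2.2 k hk)⟩

/-- `π₀` of a coproduct -/
noncomputable def piCoprod (hU : LocUnit e O a b) {J : Type v} {X : J → C}
    (h : ∀ j, Ann e (X j)) :
    (Π₀ j, (O ⟶ X j)) ≃ₗ[(End O)ᵐᵒᵖ] (O ⟶ ∐ X) := by
  classical
  refine LinearEquiv.ofBijective
    (DFinsupp.lsum ℕ (fun j => postL O (Sigma.ι X j))) ⟨?_, ?_⟩
  · rw [injective_iff_map_eq_zero]
    intro f hf
    ext j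
    have h1 : (DFinsupp.lsum ℕ (fun j => postL O (Sigma.ι X j)) f) ≫ Sigma.π X j = f j := by
      rw [DFinsupp.lsum_apply_apply, DFinsupp.sumAddHom_apply, DFinsupp.sum]
      rw [Preadditive.sum_comp, Finset.sum_eq_single j]
      · change (f j ≫ Sigma.ι X j) ≫ Sigma.π X j = f j
        rw [Category.assoc, Sigma.ι_π_eq_id, Category.comp_id]
      · intro i _ hi
        change (f i ≫ Sigma.ι X i) ≫ Sigma.π X j = 0
        rw [Category.assoc, Sigma.ι_π_of_ne _ hi, comp_zero]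
      · intro hj
        rw [DFinsupp.notMem_support_iff.1 hj]
        simp
    rw [← h1, hf, zero_comp]
    rfl
  · intro f
    obtain ⟨s, g, rfl⟩ := hU.cpt₀ h f
    refine ⟨∑ j ∈ s, DFinsupp.single j (g j), ?_⟩
    rw [map_sum]
    refine Finset.sum_congr rfl (fun j _ => ?_)
    rw [DFinsupp.lsum_single]
    rfl

end

end Pool.Agent.Helper609_TT
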