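import Pool.Agent.Helper609_TT.Spectrum

/-!
# Monoidal exact functors: images of dualizable objects
-/

namespace Pool.Agent.Helper609_TT

open CategoryTheory CategoryTheory.Limits CategoryTheory.Pretriangulated
open CategoryTheory.MonoidalCategory

universe v u u' v'

section

variable {C : Type u} [Category.{v} C] [MonoidalCategory C]
variable {D : Type u'} [Category.{v'} D] [MonoidalCategory D]

open Functor.LaxMonoidal Functor.OplaxMonoidal Functor.Monoidal in
/-- a strong monoidal functor preserves exact pairings -/
@[instance_reducible]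
noncomputable def mapExactPairing (Φ : C ⥤ D) [Φ.Monoidal] (X Y : C) [ExactPairing X Y] :
    ExactPairing (Φ.obj X) (Φ.obj Y) where
  coevaluation' := ε Φ ≫ Φ.map (ExactPairing.coevaluation X Y) ≫ δ Φ X Y
  evaluation' := μ Φ Y X ≫ Φ.map (ExactPairing.evaluation X Y) ≫ η Φ
  coevaluation_evaluation' := by
    have h := congrArg Φ.map (ExactPairing.coevaluation_evaluation X Y)
    simp only [Functor.map_comp, map_whiskerLeft, map_whiskerRight, map_associator_inv,
      map_leftUnitor_inv, map_rightUnitor] at h
    simp only [Category.assoc, μ_δ_assoc, cancel_epi, MonoidalCategory.whiskerLeft_comp,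
      comp_whiskerRight] at h ⊢
    have h2 := Φ.obj Y ◁ ε Φ ≫= h =≫ (δ Φ (𝟙_ C) Y ≫ η Φ ▷ Φ.obj Y)
    simpa only [Category.assoc, μ_δ_assoc, ← MonoidalCategory.whiskerLeft_comp_assoc, ε_η,
      MonoidalCategory.whiskerLeft_id, Category.id_comp, ← comp_whiskerRight,
      MonoidalCategory.id_whiskerRight, Category.comp_id] using h2
  evaluation_coevaluation' := by
    have h := congrArg Φ.map (ExactPairing.evaluation_coevaluation X Y)
    simp only [Functor.map_comp, map_whiskerLeft, map_whiskerRight, map_associator,
      map_leftUnitor, map_rightUnitor_inv] at h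
    simp only [Category.assoc, μ_δ_assoc, cancel_epi, MonoidalCategory.whiskerLeft_comp,
      comp_whiskerRight] at h ⊢
    have h2 := ε Φ ▷ Φ.obj X ≫= h =≫ (δ Φ X (𝟙_ C) ≫ Φ.obj X ◁ η Φ)
    simpa only [Category.assoc, μ_δ_assoc, ← comp_whiskerRight_assoc, ε_η,
      MonoidalCategory.id_whiskerRight, Category.id_comp, ← MonoidalCategory.whiskerLeft_comp,
      MonoidalCategory.whiskerLeft_id, Category.comp_id] using h2

end

end Pool.Agent.Helper609_TT
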