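import Pool.Agent.Helper609_TT.LGP

/-!
# Homotopy colimits, again
-/

namespace Pool.Agent.Helper609_TT

open CategoryTheory CategoryTheory.Limits CategoryTheory.Pretriangulated
open CategoryTheory.MonoidalCategory

universe v u u'

section

variable {C : Type u} [Category.{v} C] [Preadditive C] [HasZeroObject C]
    [HasShift C ℤ] [∀ n : ℤ, (shiftFunctor C n).Additive] [Pretriangulated C]
    [MonoidalCategory C] [SymmetricCategory C] [RigidlyCompactlyGenerated C]

/-- classes of objects closed under isomorphisms, positive shifts, extensions and coproducts -/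
structure IsAisle (A : ObjectProperty C) : Prop where
  iso : ∀ {X Y : C}, (X ≅ Y) → A X → A Y
  shift1 : ∀ X : C, A X → A (X⟦(1 : ℤ)⟧)
  ext₂ : ∀ T : Triangle C, T ∈ distTriang C → A T.obj₁ → A T.obj₃ → A T.obj₂
  coprod : ∀ (J : Type v) (X : J → C), (∀ j, A (X j)) → A (∐ X)

lemma IsAisle.ext₃ {A : ObjectProperty C} (hA : IsAisle A) (T : Triangle C)
    (hT : T ∈ distTriang C) (h₁ : A T.obj₁) (h₂ : A T.obj₂) : A T.obj₃ :=
  hA.ext₂ _ (rot_of_distTriang _ hT) h₂ (hA.shift1 _ h₁)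

lemma IsLoc.isAisle {A : ObjectProperty C} (hA : IsLoc A) : IsAisle A where
  iso := hA.iso
  shift1 X h := hA.shift X 1 h
  ext₂ := hA.ext₂
  coprod := hA.coprod

/-- `H` is a homotopy colimit of the sequence -/
def IsHoc (F : ℕ → C) (φ : ∀ n, F n ⟶ F (n + 1)) (H : C) (ι : ∀ n, F n ⟶ H) : Prop :=
  ∃ (q : tot F ⟶ H) (δ : H ⟶ (tot F)⟦(1 : ℤ)⟧),
    Triangle.mk (oneSub F φ) q δ ∈ distTriang C ∧ ∀ n, ι n = tin F n ≫ q

theorem exists_isHoc (F : ℕ → C) (φ : ∀ n, F n ⟶ F (n + 1)) :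
    ∃ (H : C) (ι : ∀ n, F n ⟶ H), IsHoc F φ H ι := by
  obtain ⟨H, q, δ, hT⟩ := distinguished_cocone_triangle (oneSub F φ)
  exact ⟨H, fun n => tin F n ≫ q, q, δ, hT, fun n => rfl⟩

namespace IsHoc

variable {F : ℕ → C} {φ : ∀ n, F n ⟶ F (n + 1)} {H : C} {ι : ∀ n, F n ⟶ H}

lemma comm (h : IsHoc F φ H ι) (n : ℕ) : φ n ≫ ι (n + 1) = ι n := by
  obtain ⟨q, δ, hT, hι⟩ := h
  have h12 : oneSub F φ ≫ q = 0 := comp_distTriang_mor_zero₁₂ _ hT
  have := tin F n ≫= h12
  rw [← Category.assoc, tin_oneSub, Preadditive.sub_comp, comp_zero, sub_eq_zero,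
    Category.assoc] at this
  rw [hι, hι]
  exact this.symm

lemma comm_trans (h : IsHoc F φ H ι) (n k : ℕ) : trans F φ n k ≫ ι (n + k) = ι n := by
  induction k with
  | zero => simp [trans]
  | succ k ih =>
    rw [trans, Category.assoc]
    have := h.comm (n + k)
    exact (congrArg (trans F φ n k ≫ ·) this).trans ih

lemma desc (h : IsHoc F φ H ι) {X : C} (g : ∀ n, F n ⟶ X)
    (hg : ∀ n, φ n ≫ g (n + 1) = g n) : ∃ k : H ⟶ X, ∀ n, ι n ≫ k = g n := by
  obtain ⟨q, δ, hT, hι⟩ := h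
  let G : tot F ⟶ X := Sigma.desc (fun n : ULift.{v} ℕ => g n.down)
  have hG : ∀ n, tin F n ≫ G = g n := fun n => by simp [G, tin]
  have h0 : oneSub F φ ≫ G = 0 := by
    apply Sigma.hom_ext
    rintro ⟨n⟩
    change tin F n ≫ _ = tin F n ≫ _
    rw [← Category.assoc, tin_oneSub, Preadditive.sub_comp, Category.assoc, hG, hG, hg,
      sub_self, comp_zero]
  obtain ⟨k, hk⟩ : ∃ k : H ⟶ X, G = q ≫ k := Triangle.yoneda_exact₂ _ hT G h0
  refine ⟨k, fun n => ?_⟩
  rw [hι, Category.assoc, ← hk, hG]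

lemma factor (h : IsHoc F φ H ι) {c : C} (hc : IsCpt c) (f : c ⟶ H) :
    ∃ (n : ℕ) (f' : c ⟶ F n), f = f' ≫ ι n := by
  classical
  have hh := h
  obtain ⟨q, δ, hT, hι⟩ := h
  let adj : shiftFunctor C (-1 : ℤ) ⊣ shiftFunctor C (1 : ℤ) :=
    (shiftEquiv' C (-1 : ℤ) 1 (by norm_num)).toAdjunction
  have hδ : f ≫ δ = 0 := by
    have h31 : δ ≫ (oneSub F φ)⟦(1 : ℤ)⟧' = 0 := comp_distTriang_mor_zero₃₁ _ hT
    have h1 : (adj.homEquiv _ _).symm (f ≫ δ) ≫ oneSub F φ = 0 := by
      rw [← adj.homEquiv_naturality_right_symm, Category.assoc, h31, comp_zero]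
      exact (adj.homAddEquiv _ _).symm.map_zero
    have h2 := eq_zero_of_comp_oneSub F φ (isCpt_shift hc (-1)) _ h1
    exact (adj.homAddEquiv _ _).symm.injective (h2.trans (adj.homAddEquiv _ _).symm.map_zero.symm)
  obtain ⟨k, hk⟩ : ∃ k : c ⟶ tot F, f = k ≫ q := Triangle.coyoneda_exact₃ _ hT f hδ
  obtain ⟨s, g, hg⟩ := hc _ _ k
  have key : ∀ s : Finset (ULift.{v} ℕ), ∃ (N : ℕ) (f' : c ⟶ F N),
      (∑ j ∈ s, g j ≫ Sigma.ι (fun n : ULift.{v} ℕ => F n.down) j) ≫ q = f' ≫ ι N := by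
    intro s
    induction s using Finset.induction_on with
    | empty => exact ⟨0, 0, by simp⟩
    | insert a s ha ih =>
      obtain ⟨N, f', hf'⟩ := ih
      refine ⟨N + a.down, f' ≫ trans F φ N a.down +
        g a ≫ trans F φ a.down N ≫ eqToHom (by rw [Nat.add_comm]), ?_⟩
      rw [Finset.sum_insert ha, Preadditive.add_comp, hf', Preadditive.add_comp, add_comm,
        Category.assoc f', hh.comm_trans]
      congr 1
      have h5 : ∀ (m m' : ℕ) (h : m = m'), eqToHom (by rw [h]) ≫ ι m' = ι m := by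
        intro m m' h; subst h; simp
      simp only [Category.assoc]
      rw [h5 (a.down + N) (N + a.down) (Nat.add_comm _ _), hh.comm_trans, hι]
  obtain ⟨N, f', hf'⟩ := key s
  exact ⟨N, f', by rw [hk, hg, hf']⟩

lemma vanish (h : IsHoc F φ H ι) {c : C} (hc : IsCpt c) (n : ℕ) (f : c ⟶ F n)
    (hf : f ≫ ι n = 0) : ∃ k : ℕ, f ≫ trans F φ n k = 0 := by
  classical
  obtain ⟨q, δ, hT, hι⟩ := h
  have h0 : (f ≫ tin F n) ≫ q = 0 := by rw [Category.assoc, ← hι, hf]
  obtain ⟨g, hg⟩ : ∃ g : c ⟶ tot F, f ≫ tin F n = g ≫ oneSub F φ :=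
    Triangle.coyoneda_exact₂ _ hT _ h0
  -- components of `g`
  have hzero : g ≫ tpr F 0 = (f ≫ tin F n) ≫ tpr F 0 := by
    rw [hg, Category.assoc, oneSub_tpr_zero]
  have hsucc : ∀ m, g ≫ tpr F (m + 1) = (f ≫ tin F n) ≫ tpr F (m + 1) +
      (g ≫ tpr F m) ≫ φ m := by
    intro m
    rw [hg, Category.assoc g (oneSub F φ), oneSub_tpr_succ, Preadditive.comp_sub, Category.assoc]
    simp
  have hlow : ∀ m, m < n → g ≫ tpr F m = 0 := by
    intro m hm
    induction m with
    | zero => rw [hzero, Category.assoc, tin_tpr_ne F (by omega), comp_zero]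
    | succ m ih =>
      rw [hsucc, ih (by omega), Category.assoc, tin_tpr_ne F (by omega), comp_zero, zero_comp,
        add_zero]
  have hn : g ≫ tpr F n = f := by
    cases n with
    | zero => rw [hzero, Category.assoc, tin_tpr, Category.comp_id]
    | succ n =>
      rw [hsucc, hlow n (by omega), Category.assoc, tin_tpr, Category.comp_id, zero_comp,
        add_zero]
  have hhigh : ∀ k, g ≫ tpr F (n + k) = f ≫ trans F φ n k := by
    intro k
    induction k with
    | zero =>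
      change g ≫ tpr F n = f ≫ 𝟙 _
      rw [hn, Category.comp_id]
    | succ k ih =>
      have h1 := hsucc (n + k)
      rw [ih, Category.assoc f (tin F n), tin_tpr_ne F (by omega), comp_zero, zero_add,
        Category.assoc] at h1
      exact h1
  obtain ⟨s, g', hg'⟩ := hc _ _ g
  obtain ⟨N, hN⟩ : ∃ N : ℕ, ∀ j ∈ s, j.down < N := by
    refine ⟨(s.sup fun j => j.down) + 1, fun j hj => ?_⟩
    have := Finset.le_sup (f := fun j : ULift.{v} ℕ => j.down) hj
    omega
  refine ⟨N, ?_⟩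
  rw [← hhigh N, hg', Preadditive.sum_comp]
  refine Finset.sum_eq_zero (fun j hj => ?_)
  have hj' := hN j hj
  have : Sigma.ι (fun n : ULift.{v} ℕ => F n.down) j ≫ tpr F (n + N) = 0 :=
    Sigma.ι_π_of_ne _ (fun h' => by
      have := congrArg ULift.down h'
      simp only at this
      omega)
  rw [Category.assoc, this, comp_zero]

lemma mem (h : IsHoc F φ H ι) {A : ObjectProperty C} (hA : IsAisle A) (hF : ∀ n, A (F n)) :
    A H := by
  obtain ⟨q, δ, hT, hι⟩ := h
  exact hA.ext₃ _ hT (hA.coprod _ _ (fun n => hF n.down)) (hA.coprod _ _ (fun n => hF n.down))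

lemma isZero_of_zero (h : IsHoc F φ H ι) (h0 : ∀ n, φ n = 0) : IsZero H := by
  apply isZero_of_forall_cpt
  intro c hc f
  obtain ⟨n, f', rfl⟩ := h.factor hc f
  rw [← h.comm n, h0, zero_comp, comp_zero]

section

variable {D : Type u'} [Category.{v} D] [Preadditive D] [HasZeroObject D]
    [HasShift D ℤ] [∀ n : ℤ, (shiftFunctor D n).Additive] [Pretriangulated D]
    [MonoidalCategory D] [SymmetricCategory D] [RigidlyCompactlyGenerated D]

/-- the image of a homotopy colimit under an exact coproduct preserving functor -/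
lemma map (h : IsHoc F φ H ι) (G : C ⥤ D) [G.CommShift ℤ]
    [G.IsTriangulated] (hG : ∀ J : Type v, PreservesColimitsOfShape (Discrete J) G) :
    IsHoc (fun n => G.obj (F n)) (fun n => G.map (φ n)) (G.obj H) (fun n => G.map (ι n)) := by
  have := hG (ULift.{v} ℕ)
  obtain ⟨q, δ, hT, hι⟩ := h
  let e : G.obj (tot F) ≅ tot (fun n => G.obj (F n)) :=
    PreservesCoproduct.iso G (fun n : ULift.{v} ℕ => F n.down)
  have he : ∀ n, tin (fun n => G.obj (F n)) n ≫ e.inv = G.map (tin F n) := by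
    intro n
    simp only [e, PreservesCoproduct.inv_hom]
    exact ι_comp_sigmaComparison G (fun n : ULift.{v} ℕ => F n.down) ⟨n⟩
  have he2 : ∀ n, G.map (tin F n) ≫ e.hom = tin (fun n => G.obj (F n)) n := by
    intro n
    rw [← he, Category.assoc, e.inv_hom_id, Category.comp_id]
  refine ⟨e.inv ≫ G.map q, G.map δ ≫ (G.commShiftIso (1 : ℤ)).hom.app _ ≫ e.hom⟦(1 : ℤ)⟧', ?_, ?_⟩
  · refine isomorphic_distinguished _ (G.map_distinguished _ hT) _ ?_
    refine Triangle.isoMk _ _ e.symm e.symm (Iso.refl _) ?_ ?_ ?_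
    · change oneSub (fun n => G.obj (F n)) (fun n => G.map (φ n)) ≫ e.inv =
        e.inv ≫ G.map (oneSub F φ)
      apply Sigma.hom_ext
      rintro ⟨n⟩
      change tin (fun n => G.obj (F n)) n ≫ _ = tin (fun n => G.obj (F n)) n ≫ _
      rw [← Category.assoc, tin_oneSub, Preadditive.sub_comp, Category.assoc, he, he,
        ← Category.assoc, he, ← G.map_comp, ← G.map_comp, ← G.map_sub, tin_oneSub]
    · change (e.inv ≫ G.map q) ≫ 𝟙 _ = e.inv ≫ G.map q
      simp
    · change (G.map δ ≫ (G.commShiftIso (1 : ℤ)).hom.app _ ≫ e.hom⟦(1 : ℤ)⟧') ≫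
        (e.inv)⟦(1 : ℤ)⟧' = 𝟙 _ ≫ G.map δ ≫ (G.commShiftIso (1 : ℤ)).hom.app _
      simp only [Category.assoc, ← Functor.map_comp, e.hom_inv_id, CategoryTheory.Functor.map_id,
        Category.id_comp]
      exact congrArg (G.map δ ≫ ·) (Category.comp_id _)
  · intro n
    change G.map (ι n) = _
    rw [hι, G.map_comp, ← he, Category.assoc]

end

end IsHoc

end

end Pool.Agent.Helper609_TT
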