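import Pool.Agent.Helper609_TT.Seq

/-!
# Residue fields
-/

namespace Pool.Agent.Helper609_TT

open CategoryTheory CategoryTheory.Limits CategoryTheory.Pretriangulated
open CategoryTheory.MonoidalCategory ZeroObject

universe v u u'

section

variable {C : Type u} [Category.{v} C] [Preadditive C] [HasZeroObject C]
    [HasShift C ℤ] [∀ n : ℤ, (shiftFunctor C n).Additive] [Pretriangulated C]
    [MonoidalCategory C] [SymmetricCategory C] [RigidlyCompactlyGenerated C]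

variable {e O : C} {a : e ⟶ 𝟙_ C} {b : 𝟙_ C ⟶ O}

omit [HasZeroObject C] [HasShift C ℤ] [∀ n : ℤ, (shiftFunctor C n).Additive]
  [Pretriangulated C] [MonoidalCategory C] [SymmetricCategory C]
  [RigidlyCompactlyGenerated C] in
/-- an endomorphism of `O` as an element of the ring `(End O)ᵐᵒᵖ` -/
abbrev ro {O : C} (r : O ⟶ O) : (End O)ᵐᵒᵖ := MulOpposite.op r

/-- an element of the ring `(End O)ᵐᵒᵖ` as an endomorphism of `O` -/
abbrev ru {O : C} (s : (End O)ᵐᵒᵖ) : O ⟶ O := s.unop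

/-- the quotient of the unit by an ideal, in the heart -/
lemma exists_kappa (hA : AffUnit e O a b) (I : Ideal (End O)ᵐᵒᵖ) :
    ∃ (κ : C) (u : O ⟶ κ), QR e O κ u ∧ ∀ r : O ⟶ O, r ≫ u = 0 ↔ MulOpposite.op r ∈ I := by
  obtain ⟨H, u, hH, hs, hi⟩ := exists_unitHeart hA
  obtain ⟨K, κ, i, q, w, hT, hK, hκ, hqs, hqk⟩ := exists_quot hA hH
    (Submodule.map (LinearMap.toSpanSingleton (End O)ᵐᵒᵖ (O ⟶ H) u) I)
  refine ⟨κ, u ≫ q, ⟨hκ, fun y => ?_⟩, fun r => ?_⟩
  · obtain ⟨x, rfl⟩ := hqs y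
    obtain ⟨r, rfl⟩ := hs x
    exact ⟨r, (Category.assoc _ _ _).symm⟩
  · rw [← Category.assoc, hqk, Submodule.mem_map]
    constructor
    · rintro ⟨s, hs, hsr⟩
      have h1 : (ru s - r) ≫ u = 0 := by
        rw [Preadditive.sub_comp, sub_eq_zero]
        exact hsr
      have h2 : ru s = r := sub_eq_zero.1 (hi _ h1)
      rw [← h2]
      exact hs
    · intro hr
      exact ⟨MulOpposite.op r, hr, rfl⟩

/-- `t ⊗ κ` is a coproduct of shifts of the residue field `κ` -/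
lemma mem_kappa (hA : AffUnit e O a b) {κ : C} {u : O ⟶ κ} (hQ : QR e O κ u)
    (I : Ideal (End O)ᵐᵒᵖ) (hI : I.IsMaximal) (hu : ∀ r : O ⟶ O, r ≫ u = 0 ↔ MulOpposite.op r ∈ I)
    (t : C) {L : ObjectProperty C} (hL : IsLoc L) (hLt : L (t ⊗ κ)) (hne : ¬ IsZero (t ⊗ κ)) :
    L κ := by
  classical
  have hM : Ann e (t ⊗ κ) := (isLocIdeal_ann e).tensor t κ hQ.hrt.1.1
  -- extension of morphisms to `κ`
  have hext : ∀ (n : ℤ) (x : O ⟶ (t ⊗ κ)⟦(-n)⟧), ∃ x' : κ ⟶ (t ⊗ κ)⟦(-n)⟧, u ≫ x' = x := by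
    intro n x
    let i : (t ⊗ κ)⟦(-n)⟧ ≅ t⟦(-n)⟧ ⊗ κ :=
      (shiftFunctor C (-n)).mapIso (β_ t κ) ≪≫ (((tensorLeft κ).commShiftIso (-n)).app t).symm ≪≫
        β_ κ (t⟦(-n)⟧)
    obtain ⟨x', hx'⟩ := hQ.extend hA (t⟦(-n)⟧) (x ≫ i.hom)
    exact ⟨x' ≫ i.inv, by rw [← Category.assoc, hx', Category.assoc, i.hom_inv_id,
      Category.comp_id]⟩
  have hkill : ∀ (n : ℤ), ∀ r ∈ I, ∀ x : O ⟶ (t ⊗ κ)⟦(-n)⟧, r • x = 0 := by
    intro n r hr x
    obtain ⟨x', rfl⟩ := hext n x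
    change r.unop ≫ u ≫ x' = 0
    rw [← Category.assoc, (hu r.unop).2 hr, zero_comp]
  have hcomm : ∀ r s : (End O)ᵐᵒᵖ, r * s = s * r := by
    intro r s
    apply MulOpposite.unop_injective
    exact hA.comm r.unop s.unop
  choose J β hspan hind using fun n : ℤ =>
    exists_basis_mod hcomm I hI (O ⟶ (t ⊗ κ)⟦(-n)⟧) (hkill n)
  choose x' hx' using fun (n : ℤ) (j : J n) => hext n (β n j)
  let adj : ∀ n : ℤ, shiftFunctor C n ⊣ shiftFunctor C (-n) := fun n =>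
    (shiftEquiv C n).toAdjunction
  let JJ : Type v := Σ n : ULift.{v} ℤ, J n.down
  let Θ : (∐ fun j : JJ => κ⟦j.1.down⟧) ⟶ t ⊗ κ :=
    Sigma.desc (fun j : JJ => ((adj j.1.down).homAddEquiv _ _).symm (x' j.1.down j.2))
  have hΘ : ∀ (n : ℤ) (j : J n) (r : O ⟶ O), (r ≫ u)⟦n⟧' ≫
      Sigma.ι (fun j : JJ => κ⟦j.1.down⟧) ⟨⟨n⟩, j⟩ ≫ Θ =
      ((adj n).homAddEquiv _ _).symm (ro r • β n j) := by
    intro n j r
    rw [Sigma.ι_desc]
    have h1 := (adj n).homEquiv_naturality_left_symm (r ≫ u) (x' n j)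
    have h2 : (r ≫ u) ≫ x' n j = ro r • β n j := by
      rw [Category.assoc, hx']
      rfl
    rw [h2] at h1
    exact h1.symm
  have hiso : IsIso Θ := by
    apply isIso_of_bij hA Θ
    · exact (isLocIdeal_ann e).coprod _ _ (fun j => (isLocIdeal_ann e).shift _ _ hQ.hrt.1.1)
    · exact hM
    · intro k α hα
      obtain ⟨s, g, rfl⟩ := hA.cpt (fun j : JJ => (isLocIdeal_ann e).shift _ _ hQ.hrt.1.1) α
      have hg0 : ∀ j : JJ, j.1.down ≠ k → g j = 0 := by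
        intro j hj
        refine (vn_shift (m := k - j.1.down) (by ring)).2 ?_ (g j)
        rcases lt_or_gt_of_ne hj with h | h
        · exact hQ.hrt.2.2 _ (by omega)
        · exact hQ.hrt.1.2 _ (by omega)
      let ε : J k → JJ := fun j => ⟨⟨k⟩, j⟩
      have hε : Function.Injective ε := by
        intro j j' h
        have := eq_of_heq (Sigma.mk.inj_iff.1 h).2
        exact this
      have hεr : ∀ j : JJ, j ∉ Set.range ε → j.1.down ≠ k := by
        rintro ⟨⟨n⟩, j⟩ hj rfl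
        exact hj ⟨j, rfl⟩
      have hr : ∀ j : J k, ∃ r : O ⟶ O, g (ε j) = (r ≫ u)⟦k⟧' := by
        intro j
        obtain ⟨y, hy⟩ := (shiftFunctor C k).map_surjective (g (ε j))
        obtain ⟨r, rfl⟩ := hQ.surj y
        exact ⟨r, hy.symm⟩
      choose r hr using hr
      have h1 : ∑ j ∈ s.preimage ε hε.injOn, ro (r j) • β k j = 0 := by
        apply ((adj k).homAddEquiv _ _).symm.injective
        rw [map_sum, map_zero, ← hα, Preadditive.sum_comp,
          ← Finset.sum_preimage ε s hε.injOn]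
        · refine Finset.sum_congr rfl (fun j _ => ?_)
          rw [← hΘ, hr, Category.assoc]
        · intro j _ hj
          rw [hg0 j (hεr j hj)]
          simp
      have h2 := hind k _ _ h1
      refine Finset.sum_eq_zero (fun j hj => ?_)
      by_cases hjε : j ∈ Set.range ε
      · obtain ⟨j, rfl⟩ := hjε
        have h3 := h2 j (Finset.mem_preimage.2 hj)
        rw [hr, (hu (r j)).2 h3, Functor.map_zero, zero_comp]
      · rw [hg0 j (hεr j hjε), zero_comp]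
    · intro k φ
      obtain ⟨s, r, hs⟩ := hspan k ((adj k).homAddEquiv _ _ φ)
      refine ⟨∑ j ∈ s, ((r j).unop ≫ u)⟦k⟧' ≫ Sigma.ι (fun j : JJ => κ⟦j.1.down⟧) ⟨⟨k⟩, j⟩, ?_⟩
      apply ((adj k).homAddEquiv _ _).injective
      rw [hs, Preadditive.sum_comp, map_sum]
      refine Finset.sum_congr rfl (fun j _ => ?_)
      rw [Category.assoc, hΘ, AddEquiv.apply_symm_apply]
      rfl
  by_cases hJ : Nonempty JJ
  · obtain ⟨j⟩ := hJ
    have h1 : L (∐ fun j : JJ => κ⟦j.1.down⟧) := hL.iso (asIso Θ).symm hLt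
    refine hL.unshift j.1.down (hL.retract ⟨Sigma.ι (fun j : JJ => κ⟦j.1.down⟧) j,
      Sigma.π (fun j : JJ => κ⟦j.1.down⟧) j, Sigma.ι_π_eq_id _ _⟩ h1)
  · exfalso
    apply hne
    refine IsZero.of_iso ?_ (asIso Θ).symm
    rw [IsZero.iff_id_eq_zero]
    apply Sigma.hom_ext
    intro j
    exact absurd ⟨j⟩ hJ

end

end Pool.Agent.Helper609_TT
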