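import Pool.Agent.Helper609_TT.Descent

/-!
# Scattered spectra and the local-to-global principle
-/

namespace Pool.Agent.Helper609_TT

open CategoryTheory CategoryTheory.Limits CategoryTheory.Pretriangulated
open CategoryTheory.MonoidalCategory

universe v u u'

section

variable {T : Type u} [Category.{v} T] [Preadditive T] [HasZeroObject T]
    [HasShift T ℤ] [∀ n : ℤ, (shiftFunctor T n).Additive] [Pretriangulated T]
    [MonoidalCategory T] [SymmetricCategory T] [RigidlyCompactlyGenerated T]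

/-- localizing subcategories are closed under retracts -/
lemma IsLoc.retract {L : ObjectProperty T} (hL : IsLoc L) {X Z : T} (h : Retract X Z)
    (hZ : L Z) : L X := by
  obtain ⟨H, ι, hι, hext, hcpt, hloc⟩ := exists_hocolim (fun _ : ℕ => Z)
    (fun _ => h.r ≫ h.i)
  obtain ⟨p, hp⟩ := hext X (fun _ => h.r) (fun _ => by simp)
  have hι0 : ∀ n, (h.r ≫ h.i) ≫ ι 0 = ι n := by
    intro n
    induction n with
    | zero =>
      have h1 : (h.r ≫ h.i) ≫ ι 1 = ι 0 := hι 0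
      rw [← h1]
      simp
    | succ n ih =>
      have h1 : (h.r ≫ h.i) ≫ ι (n + 1) = ι n := hι n
      have h2 : (h.r ≫ h.i) ≫ (h.r ≫ h.i) ≫ ι (n + 1) = (h.r ≫ h.i) ≫ ι (n + 1) := by simp
      have h3 : ∀ m, (h.r ≫ h.i) ≫ ι m = ι m := by
        intro m
        have h1' : (h.r ≫ h.i) ≫ ι (m + 1) = ι m := hι m
        rw [← h1']
        simp
      rw [ih, ← h1, h3]
  -- the map `p : H ⟶ X` is an isomorphism
  obtain ⟨Q, q, δ, hT⟩ := distinguished_cocone_triangle p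
  have hback : ∀ (c : T), IsCpt c → ∀ f : c ⟶ H, f ≫ p ≫ h.i ≫ ι 0 = f := by
    intro c hc f
    obtain ⟨n, f', rfl⟩ := hcpt c hc f
    have h1 : ι n ≫ p = h.r := hp n
    have h2 := hι0 n
    rw [Category.assoc] at h2
    rw [Category.assoc, ← Category.assoc (ι n), h1, h2]
  have hpsec : (h.i ≫ ι 0) ≫ p = 𝟙 X := by
    have h1 : ι 0 ≫ p = h.r := hp 0
    rw [Category.assoc, h1, h.retract]
  have hq : q = 0 := by
    have h1 : p ≫ q = 0 := comp_distTriang_mor_zero₁₂ _ hT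
    rw [← Category.id_comp q, ← hpsec, Category.assoc, Category.assoc, h1]
    simp
  have hQ : IsZero Q := by
    apply isZero_of_forall_cpt
    intro c hc f
    have h31 : δ ≫ p⟦(1 : ℤ)⟧' = 0 := comp_distTriang_mor_zero₃₁ _ hT
    have hz : f ≫ δ = 0 := by
      let adj : shiftFunctor T (-1 : ℤ) ⊣ shiftFunctor T (1 : ℤ) :=
        (shiftEquiv' T (-1 : ℤ) 1 (by norm_num)).toAdjunction
      have h1 : (adj.homEquiv _ _).symm (f ≫ δ) ≫ p = 0 := by
        rw [← adj.homEquiv_naturality_right_symm, Category.assoc, h31, comp_zero]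
        exact (adj.homAddEquiv _ _).symm.map_zero
      have h2 := hback _ (isCpt_shift hc (-1)) ((adj.homEquiv _ _).symm (f ≫ δ))
      rw [← Category.assoc, h1, zero_comp] at h2
      exact (adj.homAddEquiv _ _).symm.injective
        (h2.symm.trans (adj.homAddEquiv _ _).symm.map_zero.symm)
    obtain ⟨k, hk⟩ : ∃ k : c ⟶ X, f = k ≫ q := Triangle.coyoneda_exact₃ _ hT f hz
    rw [hk, hq, comp_zero]
  have : IsIso p := (Triangle.isZero₃_iff_isIso₁ _ hT).1 hQ
  exact hL.iso (asIso p) (hloc L hL (fun _ => hZ))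

/-- the compact objects in a localizing ideal form a thick ideal -/
lemma isThickIdeal_inter {L : ObjectProperty T} (hL : IsLocIdeal L) :
    IsThickIdeal (fun x => IsCpt x ∧ L x) where
  cpt h := h.1
  zero _ h := ⟨isCpt_of_isZero h, hL.zero h⟩
  shift X n h := ⟨isCpt_shift h.1 n, hL.shift X n h.2⟩
  ext₂ T hT h₁ h₃ := ⟨isCpt_ext₂ T hT h₁.1 h₃.1, hL.ext₂ T hT h₁.2 h₃.2⟩
  retract r h := ⟨isCpt_of_retract r h.1, hL.toIsLoc.retract r h.2⟩
  tensor X Y hX h := ⟨isCpt_tensor hX h.1, hL.tensor X Y h.2⟩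

/-- the local-to-global principle holds as soon as the unit lies in the localizing ideal
generated by the Balmer-Favi idempotents -/
lemma localToGlobal_of_unit
    (h : locIdeal (fun x : T => ∃ P : Spc T, IsBalmerFavi P x) (𝟙_ T)) : LocalToGlobal T := by
  intro t
  funext x
  apply propext
  constructor
  · refine fun hx => locIdeal_le (isLocIdeal_locIdeal _) ?_ hx
    intro t' ht'
    rw [show t' = t from ht']
    have h1 : IsLocIdeal (fun z : T => locIdeal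
        (fun x => ∃ (P : Spc T) (g : T), IsBalmerFavi P g ∧ x = g ⊗ t) (t ⊗ z)) :=
      isLocIdeal_colon (isLocIdeal_locIdeal _) t
    have h2 := locIdeal_le h1 (fun g ⟨P, hg⟩ =>
      (isLocIdeal_locIdeal _).iso (β_ g t) (subset_locIdeal _ ⟨P, g, hg, rfl⟩)) h
    exact (isLocIdeal_locIdeal _).iso (ρ_ t) h2
  · refine fun hx => locIdeal_le (isLocIdeal_locIdeal _) ?_ hx
    rintro _ ⟨P, g, _, rfl⟩
    exact (isLocIdeal_locIdeal _).tensor g t (subset_locIdeal _ rfl)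

/-- If every proper thick ideal has an isolated point outside its support, then the
local-to-global principle holds. -/
theorem localToGlobal_of_isolated (hT : WeaklyNoetherian T)
    (H : ∀ W : ObjectProperty T, IsThickIdeal W → ¬ W (𝟙_ T) →
      ∃ (P : Spc T) (d : T), IsCpt d ∧ (∀ w, W w → P.1 w) ∧ ¬ W d ∧
        ∀ x, P.1 x → W (d ⊗ x)) : LocalToGlobal T := by
  apply localToGlobal_of_unit
  let L : ObjectProperty T := locIdeal (fun x : T => ∃ P : Spc T, IsBalmerFavi P x)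
  have hL : IsLocIdeal L := isLocIdeal_locIdeal _
  by_contra hcon
  have hW := isThickIdeal_inter hL
  obtain ⟨P, d, hd, hWP, hdW, hdP⟩ := H _ hW (fun h => hcon h.2)
  have hPd : ¬ P.1 d := fun h => hdW (hW.radical hd (hdP d h))
  obtain ⟨Y₁, Y₂, hY₁, hY₂, hPY⟩ := hT P
  have hP : P ∈ Y₁ ∩ Y₂ᶜ := hPY ▸ Set.mem_singleton P
  obtain ⟨y, hy, hPy, hyY⟩ := hY₁.exists_supp hP.1
  obtain ⟨e₁, f₁, hp₁⟩ := exists_idempotentPair Y₁
  obtain ⟨e₂, f₂, hp₂⟩ := exists_idempotentPair Y₂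
  obtain ⟨e, f, a, b, hi⟩ := exists_idem hW
  have hg : L (e₁ ⊗ f₂) := subset_locIdeal _
    ⟨P, Y₁, Y₂, e₁, f₁, e₂, f₂, hY₁, hY₂, hPY, hp₁, hp₂, ⟨Iso.refl _⟩⟩
  -- `(d ⊗ y) ⊗ f` lies in `L`
  have h1 : Ann f₁ ((d ⊗ y) ⊗ f) :=
    (isLocIdeal_ann f₁).tensor' _ ((isLocIdeal_ann f₁).tensor d y (hp₁.kill ⟨hy, hyY⟩))
  obtain ⟨i₁⟩ := hp₁.iso_left h1
  have h2 : Ann ((d ⊗ y) ⊗ f) e₂ := by
    refine locIdeal_le (isLocIdeal_ann _) (fun v hv => ?_) hp₂.mem_loc
    have hPv : P.1 v := by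
      by_contra h
      exact hP.2 (hv.2 h)
    have h3 : Ann f (d ⊗ v) := hi.kill' hW (hdP v hPv)
    have h4 : Ann f (y ⊗ (d ⊗ v)) := (isLocIdeal_ann f).tensor _ _ h3
    have h5 : IsZero (f ⊗ (y ⊗ (d ⊗ v))) := h4
    refine h5.of_iso ?_
    exact whiskerRightIso (β_ _ f) v ≪≫ α_ f (d ⊗ y) v ≪≫
      whiskerLeftIso f (whiskerRightIso (β_ d y) v ≪≫ α_ y d v)
  obtain ⟨i₂⟩ := hp₂.iso_right (ann_symm h2)
  have h3 : L ((d ⊗ y) ⊗ f) := by
    refine hL.iso i₁ (hL.iso (whiskerRightIso i₂.symm e₁) ?_)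
    refine hL.iso (α_ _ _ _).symm ?_
    exact hL.tensor _ _ (hL.iso (β_ _ _) hg)
  have h4 : L e := hi.loc _ hL.toIsLoc (fun w hw => hw.2)
  obtain ⟨δ, hT'⟩ := hi.tri
  have h5 : L ((d ⊗ y) ⊗ 𝟙_ T) :=
    hL.ext₂ _ ((tensorLeft (d ⊗ y)).map_distinguished _ hT') (hL.tensor _ _ h4) h3
  have h6 : L (d ⊗ y) := hL.iso (ρ_ _) h5
  have h7 : P.1 (d ⊗ y) := hWP _ ⟨isCpt_tensor hd hy, h6⟩
  rcases P.2.prime d y hd hy h7 with h | h
  · exact hPd h
  · exact hPy h

/-- scattered spectrum: isolated points in terms of thick ideals -/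
lemma isolated_of_scattered (hsc : HochsterScattered T) (W : ObjectProperty T)
    (hW : IsThickIdeal W) (h1 : ¬ W (𝟙_ T)) :
    ∃ (P : Spc T) (d : T), IsCpt d ∧ (∀ w, W w → P.1 w) ∧ ¬ W d ∧
      ∀ x, P.1 x → W (d ⊗ x) := by
  let Z : Set (Spc T) := {P | ∃ w, W w ∧ P ∈ supp w}
  have hZ : IsThomason Z := isThomason_of (by
    rintro P ⟨w, hw, hP⟩
    exact ⟨w, hW.cpt hw, hP, fun Q hQ => ⟨w, hw, hQ⟩⟩)
  have hmem : ∀ a : T, IsCpt a → supp a ⊆ Z → W a := by
    intro a ha haZ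
    by_contra hWa
    obtain ⟨P, hP, hPa⟩ := exists_prime_of_not_mem hW ha hWa
    obtain ⟨w, hw, hPw⟩ := haZ hPa
    exact hPw (hP w hw)
  have hne : Z ≠ Set.univ := by
    intro h
    exact h1 (hmem _ isCpt_unit (h ▸ Set.subset_univ _))
  obtain ⟨P, Y, hY, hYP⟩ := hsc Z hZ hne
  have hP : P ∈ Y ∩ Zᶜ := hYP ▸ Set.mem_singleton P
  obtain ⟨d, hd, hPd, hdY⟩ := hY.exists_supp hP.1
  refine ⟨P, d, hd, ?_, ?_, ?_⟩
  · intro w hw
    by_contra h
    exact hP.2 ⟨w, hw, h⟩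
  · intro h
    exact hP.2 ⟨d, h, hPd⟩
  · intro x hx
    refine hmem _ (isCpt_tensor hd (P.2.cpt hx)) ?_
    rw [supp_tensor hd (P.2.cpt hx)]
    rintro R ⟨hR1, hR2⟩
    by_contra hR3
    have hRP : R ∈ ({P} : Set (Spc T)) := hYP ▸ ⟨hdY hR1, hR3⟩
    rw [Set.mem_singleton_iff] at hRP
    rw [hRP] at hR2
    exact hR2 hx

lemma scattered_of_isolated (hT : WeaklyNoetherian T)
    (H : ∀ W : ObjectProperty T, IsThickIdeal W → ¬ W (𝟙_ T) →
      ∃ (P : Spc T) (d : T), IsCpt d ∧ (∀ w, W w → P.1 w) ∧ ¬ W d ∧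
        ∀ x, P.1 x → W (d ⊗ x)) : HochsterScattered T := by
  intro W hW hne
  obtain ⟨P, d, hd, hWP, hdW, hdP⟩ := H _ (isThickIdeal_cptOn W) (by
    intro h
    apply hne
    have h2 := h.2
    rw [supp_unit] at h2
    exact Set.eq_univ_of_univ_subset h2)
  have hPd : ¬ P.1 d := fun h => hdW ((isThickIdeal_cptOn W).radical hd (hdP d h))
  have hPW : P ∉ W := by
    intro h
    obtain ⟨a, ha, hPa, haW⟩ := hW.exists_supp h
    exact hPa (hWP a ⟨ha, haW⟩)
  obtain ⟨Y₁, Y₂, hY₁, hY₂, hPY⟩ := hT P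
  have hP : P ∈ Y₁ ∩ Y₂ᶜ := hPY ▸ Set.mem_singleton P
  obtain ⟨y, hy, hPy, hyY⟩ := hY₁.exists_supp hP.1
  refine ⟨P, supp (d ⊗ y), isThomason_supp (isCpt_tensor hd hy), ?_⟩
  apply Set.Subset.antisymm
  · rintro R ⟨hR1, hR2⟩
    rw [supp_tensor hd hy] at hR1
    rw [hPY]
    refine ⟨hyY hR1.2, ?_⟩
    intro hR3
    obtain ⟨v, hv, hRv, hvY⟩ := hY₂.exists_supp hR3
    have hPv : P.1 v := by
      by_contra h
      exact hP.2 (hvY h)
    have h2 := (hdP v hPv).2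
    rw [supp_tensor hd hv] at h2
    exact hR2 (h2 ⟨hR1.1, hRv⟩)
  · rintro R hR
    rw [Set.mem_singleton_iff] at hR
    subst hR
    refine ⟨?_, hPW⟩
    rw [supp_tensor hd hy]
    exact ⟨hPd, hPy⟩

section

variable {S : Type u'} [Category.{v} S] [Preadditive S] [HasZeroObject S]
    [HasShift S ℤ] [∀ n : ℤ, (shiftFunctor S n).Additive] [Pretriangulated S]
    [MonoidalCategory S] [SymmetricCategory S] [RigidlyCompactlyGenerated S]

/-- Descent of the local-to-global principle. -/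
theorem scattered_and_localToGlobal (Φ : T ⥤ S) [Φ.Monoidal] [Φ.CommShift ℤ] [Φ.IsTriangulated]
    (hpres : ∀ J : Type v, PreservesColimitsOfShape (Discrete J) Φ)
    (hΦ : (∀ t : T, IsZero (Φ.obj t) → IsZero t) ∨ Function.Surjective (Spc.comap Φ))
    (hT : WeaklyNoetherian T) (hS : LocalToGlobal S) :
    HochsterScattered T ∧ LocalToGlobal T := by
  have hsurj : Function.Surjective (Spc.comap Φ) := by
    rcases hΦ with h | h
    · exact comap_surjective_of_conservative h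
    · exact h
  have H := fun (W : ObjectProperty T) (hW : IsThickIdeal W) (h1 : ¬ W (𝟙_ T)) =>
    exists_isolated hpres hsurj hS hW h1
  exact ⟨scattered_of_isolated hT H, localToGlobal_of_isolated hT H⟩

end

end

end Pool.Agent.Helper609_TT
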