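import Pool.Agent.Helper609_TT.Cpt

/-!
# Localizing subcategories and homotopy colimits
-/

namespace Pool.Agent.Helper609_TT

open CategoryTheory CategoryTheory.Limits CategoryTheory.Pretriangulated
open CategoryTheory.MonoidalCategory

universe v u u'

section

variable {C : Type u} [Category.{v} C] [Preadditive C] [HasZeroObject C]
    [HasShift C ℤ] [∀ n : ℤ, (shiftFunctor C n).Additive] [Pretriangulated C]
    [MonoidalCategory C] [SymmetricCategory C] [RigidlyCompactlyGenerated C]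

namespace IsLoc

variable {L : ObjectProperty C}

lemma zero (hL : IsLoc L) {X : C} (hX : IsZero X) : L X := by
  have h := hL.coprod PEmpty (fun x => x.elim) (fun x => x.elim)
  refine hL.iso ?_ h
  refine IsZero.iso ?_ hX
  rw [IsZero.iff_id_eq_zero]
  apply Sigma.hom_ext
  intro x
  exact x.elim

lemma ext₁ (hL : IsLoc L) (T : Triangle C) (hT : T ∈ distTriang C) (h₂ : L T.obj₂)
    (h₃ : L T.obj₃) : L T.obj₁ :=
  hL.ext₂ _ (inv_rot_of_distTriang _ hT) (hL.shift _ (-1) h₃) h₂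

lemma ext₃ (hL : IsLoc L) (T : Triangle C) (hT : T ∈ distTriang C) (h₁ : L T.obj₁)
    (h₂ : L T.obj₂) : L T.obj₃ :=
  hL.ext₂ _ (rot_of_distTriang _ hT) h₂ (hL.shift _ 1 h₁)

lemma unshift (hL : IsLoc L) {X : C} (n : ℤ) (h : L (X⟦n⟧)) : L X :=
  hL.iso (shiftShiftNeg X n) (hL.shift _ (-n) h)

end IsLoc

section

variable {D : Type u'} [Category.{v} D] [Preadditive D] [HasZeroObject D]
    [HasShift D ℤ] [∀ n : ℤ, (shiftFunctor D n).Additive] [Pretriangulated D]
    [MonoidalCategory D] [SymmetricCategory D] [RigidlyCompactlyGenerated D]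

/-- preimages of localizing subcategories under exact coproduct preserving functors -/
lemma IsLoc.preimage {L : ObjectProperty D} (hL : IsLoc L) (G : C ⥤ D) [G.CommShift ℤ]
    [G.IsTriangulated] (hG : ∀ J : Type v, PreservesColimitsOfShape (Discrete J) G) :
    IsLoc (fun x : C => L (G.obj x)) where
  iso e h := hL.iso (G.mapIso e) h
  shift X n h := hL.iso ((G.commShiftIso n).app X).symm (hL.shift _ n h)
  ext₂ T hT h₁ h₃ := hL.ext₂ _ (G.map_distinguished T hT) h₁ h₃
  coprod J X h := by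
    have := hG J
    exact hL.iso (PreservesCoproduct.iso G X).symm (hL.coprod J _ h)

end

lemma isLoc_isZero : IsLoc (fun x : C => IsZero x) where
  iso e h := h.of_iso e.symm
  shift X n h := (shiftFunctor C n).map_isZero h
  ext₂ T hT h₁ h₃ := T.isZero₂_of_isZero₁₃ hT h₁ h₃
  coprod J X h := by
    rw [IsZero.iff_id_eq_zero]
    apply Sigma.hom_ext
    intro j
    exact (h j).eq_of_src _ _

/-- the annihilator of an object -/
def Ann (a : C) : ObjectProperty C := fun z => IsZero (a ⊗ z)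

lemma isLoc_tensorLeft {L : ObjectProperty C} (hL : IsLoc L) (a : C) :
    IsLoc (fun z => L (a ⊗ z)) :=
  hL.preimage (tensorLeft a) (fun _ => inferInstance)

lemma isZero_tensor_left (a : C) {b : C} (h : IsZero b) : IsZero (a ⊗ b) :=
  (tensorLeft a).map_isZero h

lemma isZero_tensor_right {a : C} (b : C) (h : IsZero a) : IsZero (a ⊗ b) :=
  (isZero_tensor_left b h).of_iso (β_ a b)

lemma isLocIdeal_ann (a : C) : IsLocIdeal (Ann a) where
  toIsLoc := isLoc_tensorLeft isLoc_isZero a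
  tensor X Y h := by
    have h' : IsZero (a ⊗ Y) := h
    refine (isZero_tensor_left X h').of_iso ?_
    exact (α_ a X Y).symm ≪≫ whiskerRightIso (β_ a X) Y ≪≫ α_ X a Y

lemma ann_symm {a b : C} (h : Ann a b) : Ann b a :=
  IsZero.of_iso h (β_ b a)

lemma IsLocIdeal.tensor' {L : ObjectProperty C} (hL : IsLocIdeal L) (X : C) {Y : C} (h : L X) :
    L (X ⊗ Y) :=
  hL.iso (β_ Y X) (hL.tensor Y X h)

lemma isLocIdeal_locIdeal (A : ObjectProperty C) : IsLocIdeal (locIdeal A) where
  iso e h := fun L hL hA => hL.iso e (h L hL hA)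
  shift X n h := fun L hL hA => hL.shift X n (h L hL hA)
  ext₂ T hT h₁ h₃ := fun L hL hA => hL.ext₂ T hT (h₁ L hL hA) (h₃ L hL hA)
  coprod J X h := fun L hL hA => hL.coprod J X (fun j => h j L hL hA)
  tensor X Y h := fun L hL hA => hL.tensor X Y (h L hL hA)

lemma subset_locIdeal (A : ObjectProperty C) {a : C} (ha : A a) : locIdeal A a :=
  fun _ _ hA => hA a ha

lemma locIdeal_le {A L : ObjectProperty C} (hL : IsLocIdeal L) (hA : ∀ a, A a → L a) {x : C}
    (hx : locIdeal A x) : L x := hx L hL hA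

/-- for localizing subcategories closed under tensor products, closure under shifts is
automatic -/
lemma isLocIdeal_of {L : ObjectProperty C} (iso : ∀ {X Y : C}, (X ≅ Y) → L X → L Y)
    (ext₂ : ∀ T : Triangle C, T ∈ distTriang C → L T.obj₁ → L T.obj₃ → L T.obj₂)
    (coprod : ∀ (J : Type v) (X : J → C), (∀ j, L (X j)) → L (∐ X))
    (tensor : ∀ X Y : C, L Y → L (X ⊗ Y)) : IsLocIdeal L where
  iso := iso
  ext₂ := ext₂
  coprod := coprod
  tensor := tensor
  shift X n h := by
    let e1 : X ⊗ ((𝟙_ C)⟦n⟧) ≅ (X ⊗ 𝟙_ C)⟦n⟧ := ((tensorLeft X).commShiftIso n).app (𝟙_ C)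
    let e2 : (𝟙_ C)⟦n⟧ ⊗ X ≅ X⟦n⟧ :=
      β_ _ _ ≪≫ e1 ≪≫ (shiftFunctor C n).mapIso (ρ_ X)
    exact iso e2 (tensor _ _ h)

/-- The ideal of the objects `z` with `z ⊗ t` in a localizing ideal. -/
lemma isLocIdeal_colon {L : ObjectProperty C} (hL : IsLocIdeal L) (t : C) :
    IsLocIdeal (fun z => L (t ⊗ z)) where
  toIsLoc := isLoc_tensorLeft hL.toIsLoc t
  tensor X Y h := by
    refine hL.iso ?_ (hL.tensor X _ h)
    exact (α_ X t Y).symm ≪≫ whiskerRightIso (β_ X t) Y ≪≫ α_ t X Y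

end

/-! ## Homotopy colimits -/

section Hocolim

variable {C : Type u} [Category.{v} C] [Preadditive C] [HasZeroObject C]
    [HasShift C ℤ] [∀ n : ℤ, (shiftFunctor C n).Additive] [Pretriangulated C]
    [MonoidalCategory C] [SymmetricCategory C] [RigidlyCompactlyGenerated C]

/-- the coproduct of a sequence, indexed by `ULift ℕ` -/
noncomputable abbrev tot (F : ℕ → C) : C := ∐ fun n : ULift.{v} ℕ => F n.down

/-- the inclusion of a term -/
noncomputable abbrev tin (F : ℕ → C) (n : ℕ) : F n ⟶ tot F :=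
  Sigma.ι (fun n : ULift.{v} ℕ => F n.down) ⟨n⟩

/-- the projection to a term -/
noncomputable abbrev tpr (F : ℕ → C) (n : ℕ) : tot F ⟶ F n :=
  Sigma.π (fun n : ULift.{v} ℕ => F n.down) ⟨n⟩

lemma tin_tpr (F : ℕ → C) (n : ℕ) : tin F n ≫ tpr F n = 𝟙 _ := Sigma.ι_π_eq_id _ _

lemma tin_tpr_ne (F : ℕ → C) {n m : ℕ} (h : n ≠ m) : tin F n ≫ tpr F m = 0 :=
  Sigma.ι_π_of_ne _ (fun h' => h (congrArg ULift.down h'))

/-- identity minus shift -/
noncomputable def oneSub (F : ℕ → C) (φ : ∀ n, F n ⟶ F (n + 1)) : tot F ⟶ tot F :=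
  Sigma.desc (fun n : ULift.{v} ℕ => tin F n.down - φ n.down ≫ tin F (n.down + 1))

lemma tin_oneSub (F : ℕ → C) (φ : ∀ n, F n ⟶ F (n + 1)) (n : ℕ) :
    tin F n ≫ oneSub F φ = tin F n - φ n ≫ tin F (n + 1) := by
  simp [oneSub, tin]

lemma oneSub_tpr_zero (F : ℕ → C) (φ : ∀ n, F n ⟶ F (n + 1)) :
    oneSub F φ ≫ tpr F 0 = tpr F 0 := by
  apply Sigma.hom_ext
  rintro ⟨n⟩
  change tin F n ≫ _ = tin F n ≫ _
  rw [← Category.assoc, tin_oneSub, Preadditive.sub_comp, Category.assoc,
    tin_tpr_ne F (Nat.succ_ne_zero n), comp_zero, sub_zero]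

lemma oneSub_tpr_succ (F : ℕ → C) (φ : ∀ n, F n ⟶ F (n + 1)) (m : ℕ) :
    oneSub F φ ≫ tpr F (m + 1) = tpr F (m + 1) - tpr F m ≫ φ m := by
  apply Sigma.hom_ext
  rintro ⟨n⟩
  change tin F n ≫ _ = tin F n ≫ _
  rw [← Category.assoc, tin_oneSub, Preadditive.sub_comp, Category.assoc, Preadditive.comp_sub,
    ← Category.assoc (tin F n) (tpr F m)]
  congr 1
  by_cases h : n = m
  · subst h
    rw [tin_tpr, tin_tpr, Category.comp_id, Category.id_comp]
  · rw [tin_tpr_ne F h, tin_tpr_ne F (by omega), comp_zero, zero_comp]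

/-- for compact `c`, composing with `1 - shift` is injective -/
lemma eq_zero_of_comp_oneSub (F : ℕ → C) (φ : ∀ n, F n ⟶ F (n + 1)) {c : C} (hc : IsCpt c)
    (f : c ⟶ tot F) (h : f ≫ oneSub F φ = 0) : f = 0 := by
  classical
  have hp : ∀ m, f ≫ tpr F m = 0 := by
    intro m
    induction m with
    | zero => rw [← oneSub_tpr_zero F φ, ← Category.assoc, h, zero_comp]
    | succ m ih =>
      have h1 : f ≫ oneSub F φ ≫ tpr F (m + 1) = 0 := by rw [← Category.assoc, h, zero_comp]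
      rw [oneSub_tpr_succ, Preadditive.comp_sub, ← Category.assoc f (tpr F m), ih, zero_comp,
        sub_zero] at h1
      exact h1
  obtain ⟨s, g, hg⟩ := hc _ _ f
  have h2 : ∀ j ∈ s, g j = 0 := by
    intro j hj
    have h3 := hp j.down
    rw [hg, Preadditive.sum_comp, Finset.sum_eq_single j] at h3
    · rw [Category.assoc] at h3
      have : Sigma.ι (fun n : ULift.{v} ℕ => F n.down) j ≫ tpr F j.down = 𝟙 _ :=
        Sigma.ι_π_eq_id _ _
      rwa [this, Category.comp_id] at h3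
    · intro i _ hi
      rw [Category.assoc]
      have : Sigma.ι (fun n : ULift.{v} ℕ => F n.down) i ≫ tpr F j.down = 0 :=
        Sigma.ι_π_of_ne _ hi
      rw [this, comp_zero]
    · intro h'; exact absurd hj h'
  rw [hg]
  refine Finset.sum_eq_zero (fun j hj => ?_)
  rw [h2 j hj, zero_comp]

/-- the composite of the transition maps -/
noncomputable def trans (F : ℕ → C) (φ : ∀ n, F n ⟶ F (n + 1)) (n : ℕ) : ∀ k, F n ⟶ F (n + k)
  | 0 => 𝟙 _
  | k + 1 => trans F φ n k ≫ φ (n + k)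

/-- Homotopy colimit of a sequence. -/
theorem exists_hocolim (F : ℕ → C) (φ : ∀ n, F n ⟶ F (n + 1)) :
    ∃ (H : C) (ι : ∀ n, F n ⟶ H), (∀ n, φ n ≫ ι (n + 1) = ι n) ∧
      (∀ (X : C) (g : ∀ n, F n ⟶ X), (∀ n, φ n ≫ g (n + 1) = g n) →
        ∃ h : H ⟶ X, ∀ n, ι n ≫ h = g n) ∧
      (∀ (c : C), IsCpt c → ∀ f : c ⟶ H, ∃ (n : ℕ) (f' : c ⟶ F n), f = f' ≫ ι n) ∧
      (∀ L : ObjectProperty C, IsLoc L → (∀ n, L (F n)) → L H) := by
  classical
  obtain ⟨H, q, δ, hT⟩ := distinguished_cocone_triangle (oneSub F φ)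
  have h12 : oneSub F φ ≫ q = 0 := comp_distTriang_mor_zero₁₂ _ hT
  have hι : ∀ n, φ n ≫ tin F (n + 1) ≫ q = tin F n ≫ q := by
    intro n
    have := tin F n ≫= h12
    rw [← Category.assoc, tin_oneSub, Preadditive.sub_comp, comp_zero, sub_eq_zero,
      Category.assoc] at this
    exact this.symm
  refine ⟨H, fun n => tin F n ≫ q, hι, ?_, ?_, ?_⟩
  · intro X g hg
    let G : tot F ⟶ X := Sigma.desc (fun n : ULift.{v} ℕ => g n.down)
    have hG : ∀ n, tin F n ≫ G = g n := fun n => by simp [G, tin]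
    have h0 : oneSub F φ ≫ G = 0 := by
      apply Sigma.hom_ext
      rintro ⟨n⟩
      change tin F n ≫ _ = tin F n ≫ _
      rw [← Category.assoc, tin_oneSub, Preadditive.sub_comp, Category.assoc, hG, hG, hg,
        sub_self, comp_zero]
    obtain ⟨h, hh⟩ : ∃ h : H ⟶ X, G = q ≫ h := Triangle.yoneda_exact₂ _ hT G h0
    refine ⟨h, fun n => ?_⟩
    change (tin F n ≫ q) ≫ h = g n
    rw [Category.assoc, ← hh, hG]
  · intro c hc f
    -- the composite with `δ` vanishes
    let adj : shiftFunctor C (-1 : ℤ) ⊣ shiftFunctor C (1 : ℤ) :=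
      (shiftEquiv' C (-1 : ℤ) 1 (by norm_num)).toAdjunction
    have hδ : f ≫ δ = 0 := by
      have h31 : δ ≫ (oneSub F φ)⟦(1 : ℤ)⟧' = 0 := comp_distTriang_mor_zero₃₁ _ hT
      have h1 : (adj.homEquiv _ _).symm (f ≫ δ) ≫ oneSub F φ = 0 := by
        rw [← adj.homEquiv_naturality_right_symm, Category.assoc, h31, comp_zero]
        exact (adj.homAddEquiv _ _).symm.map_zero
      have h2 := eq_zero_of_comp_oneSub F φ (isCpt_shift hc (-1)) _ h1
      exact (adj.homAddEquiv _ _).symm.injective (h2.trans (adj.homAddEquiv _ _).symm.map_zero.symm)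
    obtain ⟨k, hk⟩ : ∃ k : c ⟶ tot F, f = k ≫ q := Triangle.coyoneda_exact₃ _ hT f hδ
    obtain ⟨s, g, hg⟩ := hc _ _ k
    -- all terms go through a common stage
    have hstage : ∀ (n k : ℕ), tin F n ≫ q = trans F φ n k ≫ tin F (n + k) ≫ q := by
      intro n k
      induction k with
      | zero => simp [trans]
      | succ k ih =>
        rw [ih, trans, Category.assoc]
        congr 1
        exact (hι (n + k)).symm
    have key : ∀ s : Finset (ULift.{v} ℕ), ∃ (N : ℕ) (f' : c ⟶ F N),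
        (∑ j ∈ s, g j ≫ Sigma.ι (fun n : ULift.{v} ℕ => F n.down) j) ≫ q
          = f' ≫ tin F N ≫ q := by
      intro s
      induction s using Finset.induction_on with
      | empty => exact ⟨0, 0, by simp⟩
      | insert a s ha ih =>
        obtain ⟨N, f', hf'⟩ := ih
        refine ⟨N + a.down, f' ≫ trans F φ N a.down +
          g a ≫ trans F φ a.down N ≫ eqToHom (by rw [Nat.add_comm]), ?_⟩
        rw [Finset.sum_insert ha, Preadditive.add_comp, hf', Preadditive.add_comp, add_comm,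
          Category.assoc f', ← hstage N a.down]
        congr 1
        have h5 : ∀ (m m' : ℕ) (h : m = m'), eqToHom (by rw [h]) ≫ tin F m' ≫ q
            = tin F m ≫ q := by
          intro m m' h; subst h; simp
        simp only [Category.assoc]
        rw [h5 (a.down + N) (N + a.down) (Nat.add_comm _ _), ← hstage a.down N]
    obtain ⟨N, f', hf'⟩ := key s
    refine ⟨N, f', ?_⟩
    rw [hk, hg]
    exact hf'
  · intro L hL hF
    refine hL.ext₃ _ hT ?_ ?_
    · exact hL.coprod _ _ (fun n => hF n.down)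
    · exact hL.coprod _ _ (fun n => hF n.down)

end Hocolim

end Pool.Agent.Helper609_TT
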