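import Pool.Agent.Helper609_TT.Det
import Pool.Agent.Helper609_TT.AffDefs

/-!
# Minimality at locally affine points
-/

namespace Pool.Agent.Helper609_TT

open CategoryTheory CategoryTheory.Limits CategoryTheory.Pretriangulated
open CategoryTheory.MonoidalCategory ZeroObject

universe v u u'

section

variable {T : Type u} [Category.{v} T] [Preadditive T] [HasZeroObject T]
    [HasShift T ℤ] [∀ n : ℤ, (shiftFunctor T n).Additive] [Pretriangulated T]
    [MonoidalCategory T] [SymmetricCategory T] [RigidlyCompactlyGenerated T]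

/-- compact objects in `P` annihilate the objects of the local category -/
lemma ann_local {P : Spc T} {e O : T} {a : e ⟶ 𝟙_ T} {b : 𝟙_ T ⟶ O}
    (hi : IsIdem P.1 e O a b) {X : T} (hX : Ann e X) {w : T} (hw : P.1 w) : Ann w X := by
  obtain ⟨i⟩ := hi.iso_left (hi.kill' P.2.toIsThickIdeal hw)
  have h1 : Ann X (w ⊗ e) := (isLocIdeal_ann X).tensor w e (ann_symm hX)
  exact ann_symm ((isLocIdeal_ann X).iso i h1)

/-- idempotent triangles with left term in the localizing ideal generated by `K` -/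
lemma isIdem_of {K : ObjectProperty T} (hK : IsThickIdeal K) {e f : T} {a : e ⟶ 𝟙_ T}
    {b : 𝟙_ T ⟶ f} {d : f ⟶ e⟦(1 : ℤ)⟧} (hT : Triangle.mk a b d ∈ distTriang T)
    (hloc : locIdeal K e) (horth : ∀ w, K w → ∀ φ : w ⟶ f, φ = 0) : IsIdem K e f a b := by
  refine ⟨⟨d, hT⟩, ?_, horth⟩
  obtain ⟨e', f', a', b', hi⟩ := exists_idem hK
  have h1 : Ann f' e := locIdeal_le (isLocIdeal_ann f') (fun w hw => hi.kill' hK hw) hloc
  have h2 : Ann f e' := hi.loc _ (isLocIdeal_ann f).toIsLoc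
    (fun w hw => ann_symm (isZero_tensor_of_orth hK horth hw))
  obtain ⟨i⟩ := hi.iso_left h1
  have hT' := (tensorLeft e').map_distinguished _ hT
  have h0 : IsZero (e' ⊗ f) := ann_symm h2
  have : IsIso (e' ◁ a) := (Triangle.isZero₃_iff_isIso₁ _ hT').1 h0
  let j : e' ≅ e := (ρ_ e').symm ≪≫ (asIso (e' ◁ a)).symm ≪≫ β_ e' e ≪≫ i
  exact fun L hL hKL => hL.iso j (hi.loc L hL hKL)

lemma affUnit_of {P : Spc T} (h : LocallyAffineAt P) :
    ∃ (e O : T) (a : e ⟶ 𝟙_ T) (b : 𝟙_ T ⟶ O), IsIdem P.1 e O a b ∧ AffUnit e O a b := by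
  obtain ⟨e, O, a, b, d, hT, hloc, horth, h1, h2, N, h3⟩ := h
  have hi := isIdem_of P.2.toIsThickIdeal hT hloc horth
  have hU : LocUnit e O a b := ⟨hi.tri, ann_symm (hi.ef P.2.toIsThickIdeal)⟩
  refine ⟨e, O, a, b, hi, hU, ?_, ?_, N, ?_⟩
  · intro X hX hV
    exact h1 X (fun w hw => ann_local hi hX hw) (fun n => (hU.vn_iff hX).1 (hV n))
  · intro k hk
    exact (hU.vn_iff hU.ann).2 (h2 k hk)
  · intro k hk
    exact (hU.vn_iff hU.ann).2 (h3 k hk)

lemma ann_e_bf {P : Spc T} {e O : T} {a : e ⟶ 𝟙_ T} {b : 𝟙_ T ⟶ O}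
    (hi : IsIdem P.1 e O a b) {g : T} (hg : IsBalmerFavi P g) : Ann e g :=
  ann_symm (hi.loc _ (isLocIdeal_ann g).toIsLoc (fun _ hw => ann_symm (ann_of_mem hg hw)))

lemma bf_ne_zero {P : Spc T} {g : T} (hg : IsBalmerFavi P g) : ¬ IsZero g := by
  intro h
  obtain ⟨c, e, f, a, b, hc, hU, hloc, hne⟩ := exists_piece hg
  apply hne (𝟙_ T) isCpt_unit P.2.ne_top
  apply isZero_tensor_left
  have h3 : IsLocIdeal (fun x : T => IsZero x) :=
    { toIsLoc := isLoc_isZero
      tensor := fun X Y h => isZero_tensor_left X h }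
  exact locIdeal_le h3 (fun y hy => by rw [show y = g from hy]; exact h) hloc

end

section

variable {T : Type u} [Category.{v} T] [Preadditive T] [HasZeroObject T]
    [HasShift T ℤ] [∀ n : ℤ, (shiftFunctor T n).Additive] [Pretriangulated T]
    [MonoidalCategory T] [SymmetricCategory T] [RigidlyCompactlyGenerated T] [IsTriangulated T]
variable {S : Type u'} [Category.{v} S] [Preadditive S] [HasZeroObject S]
    [HasShift S ℤ] [∀ n : ℤ, (shiftFunctor S n).Additive] [Pretriangulated S]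
    [MonoidalCategory S] [SymmetricCategory S] [RigidlyCompactlyGenerated S]
variable {Φ : T ⥤ S} [Φ.Monoidal] [Φ.CommShift ℤ] [Φ.IsTriangulated]

/-- minimality at a locally affine point -/
theorem minimality_at (hpres : ∀ J : Type v, PreservesColimitsOfShape (Discrete J) Φ)
    (hcons : ∀ t : T, IsZero (Φ.obj t) → IsZero t) (hS : LocalToGlobal S)
    (hS' : TensorProductFormula S) {P : Spc T} (haff : LocallyAffineAt P) {gP : T} (hgP : IsBalmerFavi P gP)
    {L : ObjectProperty T} (hL : IsLocIdeal L)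
    (hLg : ∀ x, L x → locIdeal (fun y => y = gP) x) (hne : ∃ x, L x ∧ ¬ IsZero x) : L gP := by
  obtain ⟨e, O, a, b, hi, hA⟩ := affUnit_of haff
  have hgP' := hgP
  obtain ⟨Y₁, Y₂, e₁, f₁, e₂, f₂, hY₁, hY₂, hPY, hp₁, hp₂, ⟨i⟩⟩ := hgP
  have hPm : P ∈ Y₁ ∩ Y₂ᶜ := hPY ▸ Set.mem_singleton P
  have hgPe : Ann e gP := ann_e_bf hi hgP'
  -- the unit is nonzero
  have hO : ¬ IsZero O := by
    intro h
    exact P.2.ne_top (mem_of_ann P.2.toIsThickIdeal hi isCpt_unit (isZero_tensor_right _ h))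
  have hnt : Nontrivial (End O)ᵐᵒᵖ := by
    refine ⟨⟨1, 0, fun h => hO ?_⟩⟩
    rw [IsZero.iff_id_eq_zero]
    exact congrArg MulOpposite.unop h
  obtain ⟨I, hI⟩ := Ideal.exists_maximal (End O)ᵐᵒᵖ
  obtain ⟨κ, u, hQ, hu⟩ := exists_kappa hA I
  have hnonunit : ∀ r : O ⟶ O, ro r ∈ I → ¬ IsIso r := by
    intro r hr hiso
    apply hI.ne_top
    refine Ideal.eq_top_of_unit_mem I (ro r) (ro (inv r)) hr ?_
    exact MulOpposite.unop_injective (IsIso.inv_hom_id r)
  -- vanishing of telescopes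
  have hnil : ∀ y : T, cptOn Y₁ y → ∀ r : ℕ → (O ⟶ O), (∀ n, ro (r n) ∈ I) →
      ∃ (N : T) (ι : ℕ → (O ⟶ N)), IsHoc (fun _ => O) r N ι ∧ IsZero (y ⊗ N) := by
    intro y hy r hr
    obtain ⟨N, ι, hN⟩ := exists_isHoc (fun _ : ℕ => O) r
    refine ⟨N, ι, hN, ?_⟩
    have h0 : IsZero (gP ⊗ N) := telescope_zero hpres hcons hS hS' hgP' hA hi r
      (fun n => hnonunit _ (hr n)) hN
    have hNe : Ann e N := hN.mem (isLocIdeal_ann e).toIsLoc.isAisle (fun _ => hA.ann)
    have h1 : Ann N e₂ := locIdeal_le (isLocIdeal_ann N) (fun c hc => by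
      have hPc : P.1 c := by
        by_contra h
        exact hPm.2 (hc.2 h)
      exact ann_symm (ann_local hi hNe hPc)) hp₂.mem_loc
    obtain ⟨j⟩ := hp₂.iso_right (ann_symm h1)
    obtain ⟨k⟩ := hp₁.iso_left (hp₁.kill hy)
    have h2 : Ann e₁ (N ⊗ f₂) := by
      have h3 : IsZero (gP ⊗ N) := h0
      refine h3.of_iso ?_
      exact whiskerLeftIso e₁ (β_ N f₂) ≪≫ (α_ e₁ f₂ N).symm ≪≫ whiskerRightIso i.symm N
    have h3 : Ann N e₁ := ann_symm ((isLocIdeal_ann e₁).iso j.symm h2)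
    have h4 : Ann N y := (isLocIdeal_ann N).iso k ((isLocIdeal_ann N).tensor y e₁ h3)
    exact ann_symm h4
  -- objects built from the residue field
  have hbuild : ∀ M : ObjectProperty T, IsLoc M → M κ → ∀ y : T, cptOn Y₁ y → M (y ⊗ O) :=
    fun M hM hMκ y hy => mem_of_nil hA hQ I hI hu hM hMκ hy.1 (hnil y hy)
  obtain ⟨t, hLt, ht0⟩ := hne
  have htg := hLg t hLt
  -- `t ⊗ κ ≠ 0`
  have htκ : ¬ IsZero (t ⊗ κ) := by
    intro h
    apply ht0
    have hte : Ann e t := locIdeal_le (isLocIdeal_ann e)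
      (fun y hy => by rw [show y = gP from hy]; exact hgPe) htg
    have htf : Ann f₁ t := locIdeal_le (isLocIdeal_ann f₁) (fun y hy => by
      rw [show y = gP from hy]
      exact (isLocIdeal_ann f₁).iso i.symm ((isLocIdeal_ann f₁).tensor' e₁ hp₁.ef)) htg
    have h1 : Ann t e₁ := locIdeal_le (isLocIdeal_ann t) (fun y hy => by
      have h2 : IsZero (t ⊗ (y ⊗ O)) := hbuild (Ann t) (isLocIdeal_ann t).toIsLoc h y hy
      have h3 : Ann y (t ⊗ O) := h2.of_iso
        ((α_ y t O).symm ≪≫ whiskerRightIso (β_ y t) O ≪≫ α_ t y O)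
      exact ann_symm ((isLocIdeal_ann y).iso (hA.m hte) h3)) hp₁.mem_loc
    obtain ⟨j⟩ := hp₁.iso_left htf
    have h4 : IsZero (t ⊗ e₁) := h1
    exact h4.of_iso j.symm
  have hLκ : L κ := mem_kappa hA hQ I hI hu t hL.toIsLoc (hL.tensor' t hLt |> fun h => h) htκ
  have h1 : L (O ⊗ e₁) := locIdeal_le (isLocIdeal_colon hL O)
    (fun y hy => hL.iso (β_ y O) (hbuild L hL.toIsLoc hLκ y hy)) hp₁.mem_loc
  have h2 : L (f₂ ⊗ (O ⊗ e₁)) := hL.tensor _ _ h1
  refine hL.iso ?_ h2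
  exact β_ _ _ ≪≫ α_ O e₁ f₂ ≪≫ whiskerLeftIso O i.symm ≪≫ β_ _ _ ≪≫ hA.m hgPe

/-- descent of stratification to locally affine categories -/
theorem stratified_of_locallyAffine
    (hpres : ∀ J : Type v, PreservesColimitsOfShape (Discrete J) Φ)
    (hcons : ∀ t : T, IsZero (Φ.obj t) → IsZero t) (hT : WeaklyNoetherian T)
    (haff : ∀ P : Spc T, LocallyAffineAt P) (hS : LocalToGlobal S)
    (hS' : TensorProductFormula S) : Stratified T := by
  refine ⟨(scattered_and_localToGlobal Φ hpres (Or.inl hcons) hT hS).2, ?_⟩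
  intro P g hg
  refine ⟨bf_ne_zero hg, fun L hL hLg hne => ?_⟩
  have h1 := minimality_at hpres hcons hS hS' (haff P) hg hL hLg hne
  funext x
  apply propext
  exact ⟨hLg x, fun hx => locIdeal_le hL (fun y hy => by rw [show y = g from hy]; exact h1) hx⟩

end

end Pool.Agent.Helper609_TT
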