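import Pool.Agent.Helper609_TT.Kap

/-!
# T-nilpotence and the residue field
-/

namespace Pool.Agent.Helper609_TT

open CategoryTheory CategoryTheory.Limits CategoryTheory.Pretriangulated
open CategoryTheory.MonoidalCategory ZeroObject

universe v u u'

section

variable {C : Type u} [Category.{v} C] [Preadditive C] [HasZeroObject C]
    [HasShift C ℤ] [∀ n : ℤ, (shiftFunctor C n).Additive] [Pretriangulated C]
    [MonoidalCategory C] [SymmetricCategory C] [RigidlyCompactlyGenerated C]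

variable {e O : C} {a : e ⟶ 𝟙_ C} {b : 𝟙_ C ⟶ O}

/-- the truncation triangles in all degrees -/
lemma exists_trunc_nat (hA : AffUnit e O a b) {X : C} (hX : Ann e X) (n : ℕ) :
    ∃ (E Z : C) (p : E ⟶ X) (q : X ⟶ Z) (w : Z ⟶ E⟦(1 : ℤ)⟧),
      Triangle.mk p q w ∈ distTriang C ∧ Conn e O (E⟦(n : ℤ)⟧) ∧ VV e O (Z⟦(n : ℤ)⟧) := by
  obtain ⟨E, Z, p, q, w, hT, hE, hZ⟩ := exists_trunc hA
    ((isLocIdeal_ann e).shift X (n : ℤ) hX)
  have hEc : Conn e O E := hE _ (isAisle_conn hA.toLocUnit) (conn_unit hA)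
  obtain ⟨u, v, w', hT2⟩ : ∃ (u : E⟦(-(n : ℤ))⟧ ⟶ (X⟦(n : ℤ)⟧)⟦(-(n : ℤ))⟧)
      (v : (X⟦(n : ℤ)⟧)⟦(-(n : ℤ))⟧ ⟶ Z⟦(-(n : ℤ))⟧)
      (w' : Z⟦(-(n : ℤ))⟧ ⟶ (E⟦(-(n : ℤ))⟧)⟦(1 : ℤ)⟧), Triangle.mk u v w' ∈ distTriang C :=
    ⟨_, _, _, Triangle.shift_distinguished _ hT (-(n : ℤ))⟩
  have hT3 := dist_iso₂ hT2 (shiftShiftNeg X (n : ℤ))
  refine ⟨_, _, _, _, _, hT3, ?_, ?_⟩
  · exact (isAisle_conn hA.toLocUnit).iso (shiftNegShift E (n : ℤ)).symm hEc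
  · exact hZ.iso (shiftNegShift Z (n : ℤ)).symm

/-- morphisms from compact objects factor through bounded below objects -/
lemma exists_bddBelow (hA : AffUnit e O a b) {X y : C} (hX : Ann e X) (hy : IsCpt y)
    (f : y ⟶ X) : ∃ (n : ℕ) (E : C) (g : y ⟶ E) (h : E ⟶ X), Conn e O (E⟦(n : ℤ)⟧) ∧
      f = g ≫ h := by
  choose E Z p q w hT hE hZ using fun n : ℕ => exists_trunc_nat hA hX n
  have horth : ∀ n, p n ≫ q (n + 1) = 0 := by
    intro n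
    apply (shiftFunctor C (n : ℤ)).map_injective
    rw [Functor.map_zero]
    apply (hE n).orth hA
    have h1 := (hZ (n + 1)).shift_neg
    exact h1.iso ((shiftFunctorAdd' C ((n + 1 : ℕ) : ℤ) (-1) (n : ℤ) (by push_cast; ring)).symm.app
      (Z (n + 1)))
  have htr : ∀ n, ∃ ψ : Z n ⟶ Z (n + 1), q (n + 1) = q n ≫ ψ := fun n =>
    Triangle.yoneda_exact₂ _ (hT n) (q (n + 1)) (horth n)
  choose ψ hψ using htr
  have hZe : ∀ n, Ann e (Z n) := fun n =>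
    (isLocIdeal_ann e).toIsLoc.unshift (n : ℤ) (hZ n).1
  obtain ⟨H, ι, hH⟩ := exists_isHoc Z ψ
  have hH0 : IsZero H := by
    apply hA.gen H (hH.mem (isLocIdeal_ann e).toIsLoc.isAisle hZe)
    intro k
    refine hA.hoc_vn hH hZe (N := (-k).toNat) (fun n hn => ?_)
    exact (vn_shift (k := k + n) (n := n) rfl).1 ((hZ n).2 _ (by omega))
  obtain ⟨k, hk⟩ := hH.vanish hy 0 (f ≫ q 0) (hH0.eq_of_tgt _ _)
  have hq : ∀ k, q 0 ≫ trans Z ψ 0 k = q (0 + k) := by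
    intro k
    induction k with
    | zero => exact Category.comp_id _
    | succ k ih =>
      rw [trans, ← Category.assoc, ih]
      exact (hψ (0 + k)).symm
  rw [Category.assoc, hq] at hk
  obtain ⟨g, hg⟩ : ∃ g : y ⟶ E (0 + k), f = g ≫ p (0 + k) :=
    Triangle.coyoneda_exact₂ _ (hT (0 + k)) f hk
  exact ⟨0 + k, E (0 + k), g, p (0 + k), hE (0 + k), hg⟩

lemma exists_lower (hA : AffUnit e O a b) {y : C} (hy : IsCpt y) :
    ∃ n : ℕ, Conn e O ((y ⊗ O)⟦(n : ℤ)⟧) := by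
  have hyO : Ann e (y ⊗ O) := (isLocIdeal_ann e).tensor y O hA.ann
  obtain ⟨n, E, g, h, hE, hgh⟩ := exists_bddBelow hA hyO hy ((ρ_ y).inv ≫ y ◁ b)
  have hEe : Ann e E := (isLocIdeal_ann e).toIsLoc.unshift (n : ℤ) hE.1
  obtain ⟨g', hg'⟩ := hA.liftT y hEe ((ρ_ y).hom ≫ g)
  have h1 : g' ≫ h = 𝟙 (y ⊗ O) := by
    apply hA.uniqT y hyO
    rw [← Category.assoc, hg', Category.assoc, ← hgh, Iso.hom_inv_id_assoc, Category.comp_id]
  refine ⟨n, (isLocIdeal_ann e).shift _ _ hyO, fun k hk => ?_⟩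
  exact vn_retract (Retract.map ⟨g', h, h1⟩ (shiftFunctor C (n : ℤ))) (hE.2 k hk)

/-- `y ⊗ O` is bounded for compact `y` -/
lemma exists_bounds (hA : AffUnit e O a b) {y : C} (hy : IsCpt y) :
    ∃ lo hi : ℤ, (∀ k : ℤ, k < lo → Vn O k (y ⊗ O)) ∧ ∀ k : ℤ, hi < k → Vn O k (y ⊗ O) := by
  obtain ⟨n, hn⟩ := exists_lower hA hy
  obtain ⟨y', hy', ⟨i1⟩, _⟩ := exists_dual hy
  obtain ⟨n', hn'⟩ := exists_lower hA hy'
  obtain ⟨N, hN⟩ := hA.bdd
  refine ⟨-n, N + n', fun k hk => ?_, fun k hk => ?_⟩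
  · exact (vn_shift (k := k + n) (n := n) rfl).1 (hn.2 _ (by omega))
  · rw [← vn_shift (k := 0) (n := -k) (by ring), vn_zero]
    intro φ
    let j : (y ⊗ O)⟦(-k)⟧ ≅ y ⊗ O⟦(-k)⟧ := (((tensorLeft y).commShiftIso (-k)).app O).symm
    rw [← cancel_mono j.hom, zero_comp]
    have hz : ∀ ψ : y' ⊗ O ⟶ O⟦(-k)⟧, ψ = 0 := by
      intro ψ
      apply (shiftFunctor C (n' : ℤ)).map_injective
      rw [Functor.map_zero]
      apply hn'.orth hA
      refine ⟨(isLocIdeal_ann e).shift _ _ ((isLocIdeal_ann e).shift _ _ hA.ann), fun l hl => ?_⟩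
      exact (vn_shift (m := l - n') (by ring)).2
        ((vn_shift (m := l - n' + k) (by ring)).2 (hN _ (by omega)))
    rw [← (tensorLeftHomEquiv O y y' (O⟦(-k)⟧)).apply_symm_apply (φ ≫ j.hom),
      hz ((tensorLeftHomEquiv O y y' (O⟦(-k)⟧)).symm (φ ≫ j.hom))]
    have h3 : y ◁ (0 : y' ⊗ O ⟶ O⟦(-k)⟧) = 0 := (tensorLeft y).map_zero _ _
    change (λ_ _).inv ≫ _ ▷ _ ≫ (α_ _ _ _).hom ≫ y ◁ (0 : y' ⊗ O ⟶ O⟦(-k)⟧) = 0
    rw [h3]
    simp

/-- iterated multiplication -/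
def rcomp {O Z : C} (r : ℕ → (O ⟶ O)) (x : O ⟶ Z) : ℕ → (O ⟶ Z)
  | 0 => x
  | n + 1 => r n ≫ rcomp r x n

lemma exists_rcomp_eq_zero (hU : LocUnit e O a b) (r : ℕ → (O ⟶ O)) {N : C} {ι : ℕ → (O ⟶ N)}
    (hN : IsHoc (fun _ => O) r N ι) {Z : C} (hZ : Ann e Z) (h0 : IsZero (Z ⊗ N)) (x : O ⟶ Z) :
    ∃ j, rcomp r x j = 0 := by
  have hN' := hN.map (tensorLeft Z) (fun _ => inferInstance)
  have hZO : Ann e (Z ⊗ O) := (isLocIdeal_ann e).tensor Z O hU.ann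
  obtain ⟨k, hk⟩ := hU.hoc_vanish₀ hN' (fun _ => hZO) 0 (x ≫ (hU.m hZ).inv)
    (IsZero.eq_of_tgt (show IsZero ((tensorLeft Z).obj N) from h0) _ _)
  have key : ∀ j, (x ≫ (hU.m hZ).inv) ≫ trans (fun _ => (tensorLeft Z).obj O)
      (fun n => (tensorLeft Z).map (r n)) 0 j = rcomp r x j ≫ (hU.m hZ).inv := by
    intro j
    induction j with
    | zero => exact Category.comp_id _
    | succ j ih =>
      rw [trans, ← Category.assoc, ih]
      have h1 := hU.act hZ (r (0 + j)) (rcomp r x j)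
      have h2 : rcomp r x (j + 1) = r (0 + j) ≫ rcomp r x j := by
        rw [Nat.zero_add]; rfl
      rw [h2, ← h1]
      change (rcomp r x j ≫ (hU.m hZ).inv) ≫ Z ◁ r (0 + j) = _
      simp
  refine ⟨k, ?_⟩
  rw [key] at hk
  rw [← cancel_mono (hU.m hZ).inv, hk, zero_comp]

variable [IsTriangulated C]

/-- if sequences in the maximal ideal are T-nilpotent on `y ⊗ O`, then `y ⊗ O` is built
from the residue field -/
theorem mem_of_nil (hA : AffUnit e O a b) {κ : C} {u : O ⟶ κ} (hQ : QR e O κ u)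
    (I : Ideal (End O)ᵐᵒᵖ) (hI : I.IsMaximal) (hu : ∀ r : O ⟶ O, r ≫ u = 0 ↔ ro r ∈ I)
    {L : ObjectProperty C} (hL : IsLoc L) (hLκ : L κ) {y : C} (hy : IsCpt y)
    (hnil : ∀ r : ℕ → (O ⟶ O), (∀ n, ro (r n) ∈ I) →
      ∃ (N : C) (ι : ℕ → (O ⟶ N)), IsHoc (fun _ => O) r N ι ∧ IsZero (y ⊗ N)) : L (y ⊗ O) := by
  classical
  have hyO : Ann e (y ⊗ O) := (isLocIdeal_ann e).tensor y O hA.ann
  obtain ⟨lo, hi, hlo, hhi⟩ := exists_bounds hA hy
  refine bdd_mem hA hL hyO hlo hhi ?_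
  rintro k Q hQ' ⟨g⟩
  refine MD.mem hA hL (N := ModuleCat.of _ (O ⟶ (y ⊗ O)⟦k⟧)) ?_ hQ' g
  refine good_of_socle (isGood_MD hA hL) I ?_ _ ?_
  · -- cyclic modules killed by `I`
    intro M x hx hIx
    by_cases hx0 : x = 0
    · refine ⟨0, ⟨⟨(isLocIdeal_ann e).zero (isZero_zero C), fun k _ =>
        vn_of_isZero (isZero_zero C) k⟩, (isLocIdeal_ann e).zero (isZero_zero C), fun k _ =>
        vn_of_isZero (isZero_zero C) k⟩, hL.zero (isZero_zero C), ⟨?_⟩⟩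
      have h1 : Subsingleton M := ⟨fun y z => by
        obtain ⟨r, rfl⟩ := hx y
        obtain ⟨s, rfl⟩ := hx z
        rw [hx0, smul_zero, smul_zero]⟩
      have h2 : Subsingleton (O ⟶ (0 : C)) := ⟨fun y z => (isZero_zero C).eq_of_tgt _ _⟩
      exact LinearEquiv.ofBijective (0 : (O ⟶ (0 : C)) →ₗ[(End O)ᵐᵒᵖ] M)
        ⟨fun _ _ _ => Subsingleton.elim _ _, fun y => ⟨0, Subsingleton.elim _ _⟩⟩
    · refine ⟨κ, hQ.hrt, hLκ, ⟨?_⟩⟩
      refine equivOfKer (LinearMap.toSpanSingleton (End O)ᵐᵒᵖ (O ⟶ κ) u)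
        (LinearMap.toSpanSingleton (End O)ᵐᵒᵖ M x) ?_ ?_ ?_
      · intro z
        obtain ⟨r, hr⟩ := hQ.surj z
        exact ⟨ro r, hr⟩
      · intro z
        obtain ⟨r, hr⟩ := hx z
        exact ⟨r, hr.symm⟩
      · have h1 : LinearMap.ker (LinearMap.toSpanSingleton (End O)ᵐᵒᵖ (O ⟶ κ) u) = I := by
          ext r
          exact hu (ru r)
        have h2 : I ≤ LinearMap.ker (LinearMap.toSpanSingleton (End O)ᵐᵒᵖ M x) :=
          fun r hr => hIx r hr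
        have h3 : LinearMap.ker (LinearMap.toSpanSingleton (End O)ᵐᵒᵖ M x) ≠ ⊤ := by
          intro h
          apply hx0
          have h4 : (1 : (End O)ᵐᵒᵖ) ∈
              LinearMap.ker (LinearMap.toSpanSingleton (End O)ᵐᵒᵖ M x) := by
            rw [h]; trivial
          have h5 : (1 : (End O)ᵐᵒᵖ) • x = 0 := h4
          rwa [one_smul] at h5
        rw [h1]
        exact hI.eq_of_le h3 h2
  · -- T-nilpotence
    intro A hA'
    by_contra hcon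
    push Not at hcon
    obtain ⟨x₀, hx₀⟩ : ∃ x : (O ⟶ (y ⊗ O)⟦k⟧), x ∉ A := by
      by_contra h
      push Not at h
      exact hA' (eq_top_iff.2 (fun x _ => h x))
    choose r hr hrA using hcon
    let xs : ℕ → {x : (O ⟶ (y ⊗ O)⟦k⟧) // x ∉ A} := fun n =>
      Nat.rec ⟨x₀, hx₀⟩ (fun _ x => ⟨r x.1 x.2 • x.1, hrA x.1 x.2⟩) n
    let rs : ℕ → (O ⟶ O) := fun n => ru (r (xs n).1 (xs n).2)
    have hxs : ∀ n, rcomp rs x₀ n = (xs n).1 := by
      intro n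
      induction n with
      | zero => rfl
      | succ n ih =>
        rw [rcomp, ih]
        rfl
    obtain ⟨N, ι, hN, h0⟩ := hnil rs (fun n => hr (xs n).1 (xs n).2)
    have hZ : Ann e ((y ⊗ O)⟦k⟧) := (isLocIdeal_ann e).shift _ _ hyO
    have h0' : IsZero ((y ⊗ O)⟦k⟧ ⊗ N) := by
      have h1 : Ann N y := ann_symm h0
      exact ann_symm ((isLocIdeal_ann N).shift _ k ((isLocIdeal_ann N).tensor' y h1))
    obtain ⟨j, hj⟩ := exists_rcomp_eq_zero hA.toLocUnit rs hN hZ h0' x₀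
    rw [hxs] at hj
    exact (xs j).2 (hj ▸ A.zero_mem)

end

end Pool.Agent.Helper609_TT
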