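import Pool.Agent.Helper609_TT.Nil
import Pool.Agent.Helper609_TT.AffDefs

/-!
# Balmer-Favi idempotents and minimality
-/

namespace Pool.Agent.Helper609_TT

open CategoryTheory CategoryTheory.Limits CategoryTheory.Pretriangulated
open CategoryTheory.MonoidalCategory ZeroObject

universe v u u'

section

variable {S : Type u} [Category.{v} S] [Preadditive S] [HasZeroObject S]
    [HasShift S ℤ] [∀ n : ℤ, (shiftFunctor S n).Additive] [Pretriangulated S]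
    [MonoidalCategory S] [SymmetricCategory S] [RigidlyCompactlyGenerated S]

lemma IsIdempotentPair.locUnit {Y : Set (Spc S)} {e f : S} (h : IsIdempotentPair Y e f) :
    ∃ (a : e ⟶ 𝟙_ S) (b : 𝟙_ S ⟶ f), LocUnit e f a b := by
  have hef := h.ef
  obtain ⟨a, b, d, hT, _, _⟩ := h
  exact ⟨a, b, ⟨d, hT⟩, ann_symm hef⟩

lemma IsIdempotentPair.mem_of_ann {Y : Set (Spc S)} {e f : S} (h : IsIdempotentPair Y e f)
    {x : S} (hx : IsCpt x) (h0 : Ann f x) : cptOn Y x := by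
  obtain ⟨e', f', a', b', hi⟩ := exists_idem (isThickIdeal_cptOn Y)
  have h1 : Ann f' e := locIdeal_le (isLocIdeal_ann f')
    (fun w hw => hi.kill' (isThickIdeal_cptOn Y) hw) h.mem_loc
  obtain ⟨i⟩ := h.iso_right (ann_symm h1)
  refine Pool.Agent.Helper609_TT.mem_of_ann (isThickIdeal_cptOn Y) hi hx ?_
  have h2 : Ann x (f' ⊗ f) := (isLocIdeal_ann x).tensor f' f (ann_symm h0)
  exact ann_symm ((isLocIdeal_ann x).iso i.symm h2)

lemma isLocIdeal_inter {L M : ObjectProperty S} (hL : IsLocIdeal L) (hM : IsLocIdeal M) :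
    IsLocIdeal (fun x => L x ∧ M x) where
  iso i h := ⟨hL.iso i h.1, hM.iso i h.2⟩
  shift X n h := ⟨hL.shift X n h.1, hM.shift X n h.2⟩
  ext₂ T hT h₁ h₃ := ⟨hL.ext₂ T hT h₁.1 h₃.1, hM.ext₂ T hT h₁.2 h₃.2⟩
  coprod J X h := ⟨hL.coprod J X (fun j => (h j).1), hM.coprod J X (fun j => (h j).2)⟩
  tensor X Y h := ⟨hL.tensor X Y h.1, hM.tensor X Y h.2⟩

/-- compact objects in a prime annihilate its idempotent -/
lemma ann_of_mem {Q : Spc S} {g : S} (hg : IsBalmerFavi Q g) {c : S}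
    (hQc : Q.1 c) : Ann c g := by
  have hc : IsCpt c := Q.2.cpt hQc
  obtain ⟨Y₁, Y₂, e₁, f₁, e₂, f₂, hY₁, hY₂, hQ, hp₁, hp₂, ⟨i⟩⟩ := hg
  have h1 : Ann (c ⊗ f₂) e₁ := by
    refine locIdeal_le (isLocIdeal_ann _) (fun a ha => ?_) hp₁.mem_loc
    have h2 : cptOn Y₂ (a ⊗ c) := by
      refine ⟨isCpt_tensor ha.1 hc, ?_⟩
      rw [supp_tensor ha.1 hc]
      rintro R ⟨hR1, hR2⟩
      by_contra hR3
      have hRQ : R ∈ ({Q} : Set (Spc S)) := hQ ▸ ⟨ha.2 hR1, hR3⟩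
      rw [Set.mem_singleton_iff] at hRQ
      rw [hRQ] at hR2
      exact hR2 hQc
    have h3 : IsZero ((a ⊗ c) ⊗ f₂) := ann_symm (hp₂.kill h2)
    exact h3.of_iso (β_ _ _ ≪≫ (α_ a c f₂).symm)
  have h5 : IsZero ((c ⊗ f₂) ⊗ e₁) := h1
  refine h5.of_iso ?_
  exact whiskerLeftIso c (i ≪≫ β_ e₁ f₂) ≪≫ (α_ _ _ _).symm

/-- the objects `a ⊗ f₂` -/
lemma exists_piece {Q : Spc S} {g : S} (hg : IsBalmerFavi Q g) :
    ∃ (c e f : S) (a : e ⟶ 𝟙_ S) (b : 𝟙_ S ⟶ f), IsCpt c ∧ LocUnit e f a b ∧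
      locIdeal (fun y => y = g) (c ⊗ f) ∧ (∀ x : S, IsCpt x → ¬ Q.1 x → ¬ IsZero (x ⊗ (c ⊗ f))) := by
  obtain ⟨Y₁, Y₂, e₁, f₁, e₂, f₂, hY₁, hY₂, hQ, hp₁, hp₂, ⟨i⟩⟩ := hg
  have hQm : Q ∈ Y₁ ∩ Y₂ᶜ := hQ ▸ Set.mem_singleton Q
  obtain ⟨c, hc, hQc, hcY⟩ := hY₁.exists_supp hQm.1
  obtain ⟨a, b, hU⟩ := hp₂.locUnit
  refine ⟨c, e₂, f₂, a, b, hc, hU, ?_, ?_⟩
  · obtain ⟨j⟩ := hp₁.iso_left (hp₁.kill ⟨hc, hcY⟩)
    have h1 : locIdeal (fun y => y = g) (c ⊗ g) :=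
      (isLocIdeal_locIdeal _).tensor c g (subset_locIdeal _ rfl)
    exact (isLocIdeal_locIdeal _).iso
      (whiskerLeftIso c i ≪≫ (α_ c e₁ f₂).symm ≪≫ whiskerRightIso j f₂) h1
  · intro x hx hQx h0
    have h1 : Ann f₂ (x ⊗ c) := by
      have h2 : IsZero (x ⊗ (c ⊗ f₂)) := h0
      exact h2.of_iso (β_ _ _ ≪≫ α_ x c f₂)
    have h3 := (hp₂.mem_of_ann (isCpt_tensor hx hc) h1).2
    rw [supp_tensor hx hc] at h3
    exact hQm.2 (h3 ⟨hQx, hQc⟩)

lemma min_mem (hmin : Minimality S) {Q : Spc S} {g : S} (hg : IsBalmerFavi Q g)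
    {L : ObjectProperty S} (hL : IsLocIdeal L) {x : S} (hx : L x)
    (hxg : locIdeal (fun y => y = g) x) (hx0 : ¬ IsZero x) : L g := by
  have h1 := (hmin Q g hg).2 _ (isLocIdeal_inter hL (isLocIdeal_locIdeal (fun y => y = g)))
    (fun z hz => hz.2) ⟨x, ⟨hx, hxg⟩, hx0⟩
  have h2 : locIdeal (fun y => y = g) g := subset_locIdeal _ rfl
  rw [← h1] at h2
  exact h2.1

lemma min_le (hmin : Minimality S) {Q : Spc S} {g : S} (hg : IsBalmerFavi Q g)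
    {L : ObjectProperty S} (hL : IsLocIdeal L) {x : S} (hx : L x)
    (hxg : locIdeal (fun y => y = g) x) (hx0 : ¬ IsZero x) {z : S}
    (hz : locIdeal (fun y => y = g) z) : L z :=
  locIdeal_le hL (fun y hy => by rw [show y = g from hy]; exact min_mem hmin hg hL hx hxg hx0) hz

/-- the half tensor product formula -/
lemma tensor_ne_zero {Q : Spc S} {g : S} (hg : IsBalmerFavi Q g)
    {c : S} (hc : IsCpt c) (hQc : ¬ Q.1 c) {s : S} (hs : locIdeal (fun y => y = g) s)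
    (hs0 : ¬ IsZero s) : ¬ IsZero (c ⊗ s) := by
  intro h0
  apply hs0
  obtain ⟨Y₁, Y₂, e₁, f₁, e₂, f₂, hY₁, hY₂, hQ, hp₁, hp₂, ⟨i⟩⟩ := hg
  have hQm : Q ∈ Y₁ ∩ Y₂ᶜ := hQ ▸ Set.mem_singleton Q
  obtain ⟨y, hy, hQy, hyY⟩ := hY₁.exists_supp hQm.1
  -- the thick ideal of the compact objects annihilating `s`
  have hK := isThickIdeal_ann s
  have hK₂ : ∀ z, cptOn Y₂ z → Ann s z := by
    intro z hz
    have h1 : Ann z f₂ := ann_symm (hp₂.kill hz)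
    have h2 : Ann z s := locIdeal_le (isLocIdeal_ann z) (fun y hy => by
      rw [show y = g from hy]
      exact (isLocIdeal_ann z).iso i.symm ((isLocIdeal_ann z).tensor e₁ f₂ h1)) hs
    exact ann_symm h2
  have hpr : ∀ z, cptOn Y₁ z → ¬ Ann s z → ∀ x, IsCpt x ∧ Ann s x → Q.1 x := by
    intro z hz hzs
    obtain ⟨R, hR, hRz⟩ := exists_prime_of_not_mem hK hz.1 (fun h => hzs h.2)
    have hRQ : R ∈ ({Q} : Set (Spc S)) := by
      rw [hQ]
      refine ⟨hz.2 hRz, fun hR2 => ?_⟩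
      obtain ⟨w, hw, hRw, hwY⟩ := hY₂.exists_supp hR2
      exact hRw (hR w ⟨hw, hK₂ w ⟨hw, hwY⟩⟩)
    rw [Set.mem_singleton_iff] at hRQ
    rw [← hRQ]
    exact hR
  have hsy : Ann s y := by
    by_contra hcon
    have h1 : Q.1 (c ⊗ y) := hpr y ⟨hy, hyY⟩ hcon (c ⊗ y)
      ⟨isCpt_tensor hc hy, (isLocIdeal_ann s).tensor' c (ann_symm h0)⟩
    rcases Q.2.prime c y hc hy h1 with h | h
    · exact hQc h
    · exact hQy h
  have hsY : ∀ z, cptOn Y₁ z → Ann s z := by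
    intro z hz
    by_contra hcon
    exact hQy (hpr z hz hcon y ⟨hy, hsy⟩)
  have h1 : Ann s e₁ := locIdeal_le (isLocIdeal_ann s) hsY hp₁.mem_loc
  have h2 : Ann f₁ s := locIdeal_le (isLocIdeal_ann f₁) (fun y hy => by
    rw [show y = g from hy]
    exact (isLocIdeal_ann f₁).iso i.symm ((isLocIdeal_ann f₁).tensor' e₁ hp₁.ef)) hs
  obtain ⟨j⟩ := hp₁.iso_left h2
  have h3 : IsZero (s ⊗ e₁) := h1
  exact h3.of_iso j.symm

/-- objects of the localizing ideal generated by `g` absorb `g` -/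
lemma iso_of_mem {Q : Spc S} {g : S} (hg : IsBalmerFavi Q g) {s : S}
    (hs : locIdeal (fun y => y = g) s) : Nonempty (g ⊗ s ≅ s) := by
  obtain ⟨Y₁, Y₂, e₁, f₁, e₂, f₂, hY₁, hY₂, hQ, hp₁, hp₂, ⟨i⟩⟩ := hg
  have h1 : Ann f₁ s := locIdeal_le (isLocIdeal_ann f₁) (fun y hy => by
    rw [show y = g from hy]
    exact (isLocIdeal_ann f₁).iso i.symm ((isLocIdeal_ann f₁).tensor' e₁ hp₁.ef)) hs
  have h2 : Ann e₂ s := locIdeal_le (isLocIdeal_ann e₂) (fun y hy => by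
    rw [show y = g from hy]
    exact (isLocIdeal_ann e₂).iso i.symm ((isLocIdeal_ann e₂).tensor e₁ f₂ (ann_symm hp₂.ef))) hs
  obtain ⟨j⟩ := hp₁.iso_left h1
  obtain ⟨k⟩ := hp₂.iso_right h2
  exact ⟨whiskerRightIso i s ≪≫ β_ _ _ ≪≫ (α_ s e₁ f₂).symm ≪≫ whiskerRightIso j f₂ ≪≫ k.symm⟩

/-- the tensor product formula holds in a stratified category -/
lemma tensorProductFormula_of_minimality (hmin : Minimality S) : TensorProductFormula S := by
  intro Q g hg s t hs ht h0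
  have hgs : locIdeal (fun y => y = g) (g ⊗ s) :=
    (isLocIdeal_locIdeal _).tensor' _ (subset_locIdeal _ rfl)
  have hgt : locIdeal (fun y => y = g) (g ⊗ t) :=
    (isLocIdeal_locIdeal _).tensor' _ (subset_locIdeal _ rfl)
  -- `g ⊗ s` annihilates `g ⊗ t`
  have h1 : Ann (g ⊗ s) (g ⊗ t) := by
    have h2 : Ann g (g ⊗ (s ⊗ t)) := isZero_tensor_left g h0
    have h3 : IsZero (g ⊗ (g ⊗ (s ⊗ t))) := h2
    refine h3.of_iso ?_
    exact α_ g s (g ⊗ t) ≪≫ whiskerLeftIso g ((α_ s g t).symm ≪≫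
      whiskerRightIso (β_ s g) t ≪≫ α_ g s t)
  have h2 : Ann (g ⊗ s) g := min_mem hmin hg (isLocIdeal_ann (g ⊗ s)) h1 hgt ht
  obtain ⟨j⟩ := iso_of_mem hg hgs
  have h3 : IsZero (g ⊗ (g ⊗ s)) := ann_symm h2
  exact hs (h3.of_iso j.symm)

end

section

variable {T : Type u} [Category.{v} T] [Preadditive T] [HasZeroObject T]
    [HasShift T ℤ] [∀ n : ℤ, (shiftFunctor T n).Additive] [Pretriangulated T]
    [MonoidalCategory T] [SymmetricCategory T] [RigidlyCompactlyGenerated T]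
variable {S : Type u'} [Category.{v} S] [Preadditive S] [HasZeroObject S]
    [HasShift S ℤ] [∀ n : ℤ, (shiftFunctor S n).Additive] [Pretriangulated S]
    [MonoidalCategory S] [SymmetricCategory S] [RigidlyCompactlyGenerated S]
variable {Φ : T ⥤ S} [Φ.Monoidal] [Φ.CommShift ℤ] [Φ.IsTriangulated]

lemma isLocIdeal_map (hpres : ∀ J : Type v, PreservesColimitsOfShape (Discrete J) Φ)
    {L : ObjectProperty S} (hL : IsLocIdeal L) : IsLocIdeal (fun X : T => L (Φ.obj X)) where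
  toIsLoc := hL.toIsLoc.preimage Φ hpres
  tensor X Y h := hL.iso (tIso Φ X Y) (hL.tensor _ _ h)

/-- the points detecting the image of an object supported at `P` lie over `P` -/
theorem comap_eq (hpres : ∀ J : Type v, PreservesColimitsOfShape (Discrete J) Φ)
    {P : Spc T} {gP : T} (hgP : IsBalmerFavi P gP)
    {Q : Spc S} {g : S} (hg : IsBalmerFavi Q g) {t : T} (ht : locIdeal (fun y => y = gP) t)
    (hne : ¬ IsZero (g ⊗ Φ.obj t)) : Spc.comap Φ Q = P := by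
  obtain ⟨Y₁, Y₂, e₁, f₁, e₂, f₂, hY₁, hY₂, hP, hp₁, hp₂, ⟨i⟩⟩ := hgP
  have hgt : locIdeal (fun y => y = g) (g ⊗ Φ.obj t) :=
    (isLocIdeal_locIdeal _).tensor' _ (subset_locIdeal _ rfl)
  by_contra hcon
  have h1 : Spc.comap Φ Q ∉ Y₁ ∩ Y₂ᶜ := by
    rw [← hP]
    exact hcon
  by_cases h2 : Spc.comap Φ Q ∈ Y₁
  · have h3 : Spc.comap Φ Q ∈ Y₂ := by
      by_contra h
      exact h1 ⟨h2, h⟩
    obtain ⟨c, hc, hQc, hcY⟩ := hY₂.exists_supp h3
    have hQc' : ¬ Q.1 (Φ.obj c) := fun h => hQc ⟨hc, h⟩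
    apply tensor_ne_zero hg (isCpt_map Φ hc) hQc' hgt hne
    -- `c ⊗ t = 0`
    have h4 : Ann c f₂ := ann_symm (hp₂.kill ⟨hc, hcY⟩)
    have h5 : Ann c t := locIdeal_le (isLocIdeal_ann c) (fun y hy => by
      rw [show y = gP from hy]
      exact (isLocIdeal_ann c).iso i.symm ((isLocIdeal_ann c).tensor e₁ f₂ h4)) ht
    have h6 : Ann (Φ.obj c) (Φ.obj t) := (Φ.map_isZero h5).of_iso (tIso Φ c t)
    exact (isLocIdeal_ann (Φ.obj c)).tensor g _ h6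
  · apply hne
    have h3 : IsLocIdeal (fun X : T => Ann g (Φ.obj X)) := isLocIdeal_map hpres (isLocIdeal_ann g)
    have h4 : Ann g (Φ.obj e₁) := locIdeal_le h3 (fun c hc => by
      have h5 : Spc.comap Φ Q ∉ supp c := fun h => h2 (hc.2 h)
      have h6 : Q.1 (Φ.obj c) := (notMem_supp.1 h5).2
      exact ann_symm (ann_of_mem hg h6)) hp₁.mem_loc
    have h5 : Ann g (Φ.obj gP) := by
      exact h3.iso i.symm (h3.tensor' e₁ h4)
    exact locIdeal_le h3 (fun y hy => by rw [show y = gP from hy]; exact h5) ht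

end

end Pool.Agent.Helper609_TT
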