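import Pool.Agent.Helper609_TT.Bdd

/-!
# Quotients of the unit in the heart
-/

namespace Pool.Agent.Helper609_TT

open CategoryTheory CategoryTheory.Limits CategoryTheory.Pretriangulated
open CategoryTheory.MonoidalCategory ZeroObject

universe v u u'

section

variable {C : Type u} [Category.{v} C] [Preadditive C] [HasZeroObject C]
    [HasShift C ℤ] [∀ n : ℤ, (shiftFunctor C n).Additive] [Pretriangulated C]
    [MonoidalCategory C] [SymmetricCategory C] [RigidlyCompactlyGenerated C]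

variable {e O : C} {a : e ⟶ 𝟙_ C} {b : 𝟙_ C ⟶ O}

/-- quotients of the unit in the heart -/
structure QR (e O H : C) (u : O ⟶ H) : Prop where
  hrt : Hrt e O H
  surj : ∀ y : O ⟶ H, ∃ r : O ⟶ O, r ≫ u = y

lemma conn_fib {X K Q : C} (hX : Conn e O X) (hQ : Conn e O Q)
    {i : K ⟶ X} {q : X ⟶ Q} {w : Q ⟶ K⟦(1 : ℤ)⟧} (hT : Triangle.mk i q w ∈ distTriang C)
    (hs : ∀ y : O ⟶ Q, ∃ x, x ≫ q = y) : Conn e O K := by
  refine ⟨(isLocIdeal_ann e).toIsLoc.ext₁ _ hT hX.1 hQ.1, fun k hk => ?_⟩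
  rcases lt_or_ge (k + 1) 0 with h | h
  · exact vn_ext₁ _ hT (hQ.2 _ h) (hX.2 _ hk)
  · obtain rfl : k = -1 := by omega
    refine (vn_shift (k := 0) (n := 1) (by norm_num)).1 ?_
    rw [vn_zero]
    intro φ
    have h1 : φ ≫ i⟦(1 : ℤ)⟧' = 0 := vn_zero.1 (vn_shift1.2 (hX.2 _ (by norm_num))) _
    obtain ⟨y, hy⟩ : ∃ y : O ⟶ Q, φ = y ≫ w := Triangle.coyoneda_exact₁ _ hT φ h1
    obtain ⟨x, rfl⟩ := hs y
    have h2 : q ≫ w = 0 := comp_distTriang_mor_zero₂₃ _ hT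
    rw [hy, Category.assoc, h2, comp_zero]

/-- an object of the heart killed by the kernel of `O ⟶ H` is a module over `H` -/
lemma exists_action (hA : AffUnit e O a b) {X H : C} {u : O ⟶ H} (hX : Hrt e O X)
    (hQ : QR e O H u) (h : ∀ r : O ⟶ O, r ≫ u = 0 → ∀ x : O ⟶ X, r ≫ x = 0) :
    ∃ ν : X ⊗ H ⟶ X, X ◁ u ≫ ν = (hA.m hX.1.1).hom := by
  obtain ⟨W, w, δ, hT⟩ := distinguished_cocone_triangle₁ u
  have hW : Conn e O W := conn_fib (conn_unit hA) hQ.hrt.1 hT hQ.surj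
  have hwu : w ≫ u = 0 := comp_distTriang_mor_zero₁₂ _ hT
  have h0 : X ◁ w ≫ (hA.m hX.1.1).hom = 0 := by
    apply hX.1.t5 hA hW hX.2
    intro y
    have h1 : (y ≫ w) ≫ u = 0 := by rw [Category.assoc, hwu, comp_zero]
    have h2 : (hA.m hX.1.1).inv ≫ X ◁ (y ≫ w) ≫ (hA.m hX.1.1).hom = 0 := by
      apply hX.1.ext hA hX.2
      intro x
      rw [hA.act, h _ h1]
    rw [← Category.assoc, ← MonoidalCategory.whiskerLeft_comp,
      ← cancel_epi (hA.m hX.1.1).inv, h2, comp_zero]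
  obtain ⟨ν, hν⟩ : ∃ ν : X ⊗ H ⟶ X, (hA.m hX.1.1).hom = X ◁ u ≫ ν :=
    Triangle.yoneda_exact₂ _ ((tensorLeft X).map_distinguished _ hT) _ h0
  exact ⟨ν, hν.symm⟩

lemma exists_retract (hA : AffUnit e O a b) {X H : C} {u : O ⟶ H} (hX : Hrt e O X)
    (hQ : QR e O H u) (h : ∀ r : O ⟶ O, r ≫ u = 0 → ∀ x : O ⟶ X, r ≫ x = 0) :
    Nonempty (Retract X (X ⊗ H)) := by
  obtain ⟨ν, hν⟩ := exists_action hA hX hQ h
  exact ⟨⟨(hA.m hX.1.1).inv ≫ X ◁ u, ν, by rw [Category.assoc, hν, Iso.inv_hom_id]⟩⟩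

lemma QR.self (hA : AffUnit e O a b) {H : C} {u : O ⟶ H} (hQ : QR e O H u) (r : O ⟶ O)
    (hr : r ≫ u = 0) (x : O ⟶ H) : r ≫ x = 0 := by
  obtain ⟨s, rfl⟩ := hQ.surj x
  rw [← Category.assoc, hA.comm, Category.assoc, hr, comp_zero]

lemma LocUnit.lam_m (hU : LocUnit e O a b) :
    (λ_ O).inv ≫ b ▷ O ≫ (hU.m hU.annOO).hom = 𝟙 O := by
  apply hU.uniq hU.annOO
  have h6 : b ≫ (λ_ O).inv = (ρ_ (𝟙_ C)).inv ≫ (𝟙_ C) ◁ b := by
    rw [← unitors_inv_equal, leftUnitor_inv_naturality]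
  rw [← Category.assoc, h6, Category.assoc, ← Category.assoc ((𝟙_ C) ◁ b), whisker_exchange,
    Category.assoc, hU.b_m, rightUnitor_naturality, Iso.inv_hom_id_assoc, Category.comp_id]

lemma LocUnit.m_tensor (hU : LocUnit e O a b) {t H : C} (hH : Ann e H) :
    (α_ t H O).hom ≫ t ◁ (hU.m hH).hom = (hU.m ((isLocIdeal_ann e).tensor t H hH)).hom := by
  have := hU.isIso_b ((isLocIdeal_ann e).tensor t H hH)
  rw [← cancel_epi ((t ⊗ H) ◁ b), hU.b_m, ← Category.assoc]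
  have h1 : (t ⊗ H) ◁ b ≫ (α_ t H O).hom = (α_ t H (𝟙_ C)).hom ≫ t ◁ (H ◁ b) := by simp
  rw [h1, Category.assoc, ← MonoidalCategory.whiskerLeft_comp, hU.b_m]
  simp

/-- morphisms from `O` to `t ⊗ H` extend to `H` -/
lemma QR.extend (hA : AffUnit e O a b) {H : C} {u : O ⟶ H} (hQ : QR e O H u) (t : C)
    (β : O ⟶ t ⊗ H) : ∃ β' : H ⟶ t ⊗ H, u ≫ β' = β := by
  obtain ⟨ν, hν⟩ := exists_action hA hQ.hrt hQ (hQ.self hA)
  have htH : Ann e (t ⊗ H) := (isLocIdeal_ann e).tensor t H hQ.hrt.1.1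
  refine ⟨(λ_ H).inv ≫ (b ≫ β) ▷ H ≫ (α_ t H H).hom ≫ t ◁ ν, ?_⟩
  rw [← Category.assoc, leftUnitor_inv_naturality, Category.assoc,
    ← Category.assoc ((𝟙_ C) ◁ u), whisker_exchange, Category.assoc]
  have h1 : (t ⊗ H) ◁ u ≫ (α_ t H H).hom ≫ t ◁ ν = (hA.m htH).hom := by
    have h2 : (t ⊗ H) ◁ u ≫ (α_ t H H).hom = (α_ t H O).hom ≫ t ◁ (H ◁ u) := by simp
    rw [← Category.assoc, h2, Category.assoc, ← MonoidalCategory.whiskerLeft_comp, hν,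
      hA.m_tensor]
  rw [h1, comp_whiskerRight, Category.assoc, hA.m_nat hA.annOO htH β, ← Category.assoc (b ▷ O),
    ← Category.assoc, hA.lam_m, Category.id_comp]

/-- quotient by an endomorphism of `O` -/
lemma QR.step (hA : AffUnit e O a b) {H : C} {u : O ⟶ H} (hQ : QR e O H u) {r : O ⟶ O} {K : C}
    {g : O ⟶ K} {δ : K ⟶ O⟦(1 : ℤ)⟧} (hK : Triangle.mk r g δ ∈ distTriang C) :
    ∃ (H' : C) (v : H ⟶ H'), QR e O H' (u ≫ v) ∧ r ≫ u ≫ v = 0 ∧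
      ∀ L : ObjectProperty C, IsLocIdeal L → L H' → L (H ⊗ K) := by
  have hc := isAisle_conn hA.toLocUnit
  have hH := hQ.hrt.1.1
  obtain ⟨g', δ', hg', hT⟩ : ∃ (g' : H ⊗ O ⟶ H ⊗ K) (δ' : H ⊗ K ⟶ (H ⊗ O)⟦(1 : ℤ)⟧),
      g' = H ◁ g ∧ Triangle.mk (H ◁ r) g' δ' ∈ distTriang C :=
    ⟨_, _, rfl, (tensorLeft H).map_distinguished _ hK⟩
  have hHO : Hrt e O (H ⊗ O) := hQ.hrt.iso (hA.m hH).symm
  have hX : Conn e O (H ⊗ K) := hc.ext₃ _ hT hHO.1 hHO.1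
  obtain ⟨B, H', p, q, w, hT', hB, hH'⟩ := hX.heart hA
  have hrg : H ◁ r ≫ g' = 0 := comp_distTriang_mor_zero₁₂ _ hT
  -- the action of `r` on `H ⊗ O`
  have hact : ∀ x : O ⟶ H, x ≫ (hA.m hH).inv ≫ H ◁ r ≫ (hA.m hH).hom = r ≫ x := fun x =>
    hA.act hH r x
  have hact' : ∀ x : O ⟶ H, x ≫ (hA.m hH).inv ≫ H ◁ r = r ≫ x ≫ (hA.m hH).inv := by
    intro x
    rw [← cancel_mono (hA.m hH).hom]
    simp only [Category.assoc, Iso.inv_hom_id, Category.comp_id]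
    exact hact x
  have hru : r ≫ u ≫ (hA.m hH).inv ≫ g' = 0 := by
    have h1 := hact' u
    rw [← Category.assoc u, ← Category.assoc r, ← h1]
    simp only [Category.assoc]
    rw [hrg, comp_zero, comp_zero]
  refine ⟨H', (hA.m hH).inv ≫ g' ≫ q, ⟨hH', ?_⟩, ?_, ?_⟩
  · intro y
    obtain ⟨x, hx⟩ := post_surj hT' (vn_shift1.2 (hB.2 _ (by norm_num))) y
    obtain ⟨z, hz⟩ := post_surj hT (hHO.1.2 _ (by norm_num)) x
    obtain ⟨s, hs⟩ := hQ.surj (z ≫ (hA.m hH).hom)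
    refine ⟨s, ?_⟩
    rw [← Category.assoc, hs]
    simp only [Category.assoc, Iso.hom_inv_id_assoc]
    rw [← Category.assoc, hz, hx]
  · have h1 := hru =≫ q
    simpa only [Category.assoc, zero_comp] using h1
  · intro L hL hLH'
    have hBc : Hrt e O B := by
      refine ⟨hB, hB.1, fun k hk => ?_⟩
      have h1 : Vn O (k + 1) (B⟦(1 : ℤ)⟧) := by
        refine vn_ext₁ _ hT' (hH'.2.2 _ (by omega)) ?_
        exact vn_ext₃ _ hT (hHO.2.2 _ (by omega)) (hHO.2.2 _ (by omega))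
      exact (vn_shift (by ring)).1 h1
    have hann : ∀ s : O ⟶ O, s ≫ u ≫ (hA.m hH).inv ≫ g' ≫ q = 0 → ∀ x : O ⟶ B, s ≫ x = 0 := by
      intro s hs x
      -- `s` acts through multiples of `r` on `H`
      have h1 : (s ≫ u ≫ (hA.m hH).inv ≫ g') ≫ q = 0 := by
        simpa only [Category.assoc] using hs
      have h2 := post_inj hT' (vn_shift1.2 (hB.2 _ (by norm_num))) _ h1
      have h2' : (s ≫ u ≫ (hA.m hH).inv) ≫ g' = 0 := by
        simpa only [Category.assoc] using h2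
      obtain ⟨z, hz⟩ : ∃ z : O ⟶ H ⊗ O, s ≫ u ≫ (hA.m hH).inv = z ≫ H ◁ r :=
        Triangle.coyoneda_exact₂ _ hT _ h2'
      obtain ⟨t', ht'⟩ := hQ.surj (z ≫ (hA.m hH).hom)
      have h3 : s ≫ u = t' ≫ r ≫ u := by
        have h4 : s ≫ u = (s ≫ u ≫ (hA.m hH).inv) ≫ (hA.m hH).hom := by simp
        rw [h4, hz]
        have h5 : z = (t' ≫ u) ≫ (hA.m hH).inv := by rw [ht']; simp
        rw [h5]
        have h6 := hact (t' ≫ u)
        simp only [Category.assoc] at h6 ⊢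
        rw [h6, ← Category.assoc, ← Category.assoc, hA.comm r t']
      -- the element of `H ⊗ O`
      obtain ⟨x2, hx2⟩ := (shiftFunctor C (1 : ℤ)).map_surjective (x⟦(1 : ℤ)⟧' ≫ p ≫ δ')
      have h31 : δ' ≫ (H ◁ r)⟦(1 : ℤ)⟧' = 0 := comp_distTriang_mor_zero₃₁ _ hT
      have hx2r : x2 ≫ H ◁ r = 0 := by
        apply (shiftFunctor C (1 : ℤ)).map_injective
        rw [Functor.map_comp, hx2, Category.assoc, Category.assoc, h31, comp_zero, comp_zero,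
          Functor.map_zero]
      obtain ⟨t, ht⟩ := hQ.surj (x2 ≫ (hA.m hH).hom)
      have hx2' : x2 = (t ≫ u) ≫ (hA.m hH).inv := by rw [ht]; simp
      have h7 : r ≫ t ≫ u = 0 := by
        have h8 := hact (t ≫ u)
        rw [← h8, ← Category.assoc, ← hx2', ← Category.assoc, hx2r, zero_comp]
      have h9' : s ≫ t ≫ u = 0 := by
        calc s ≫ t ≫ u = (s ≫ t) ≫ u := (Category.assoc _ _ _).symm
          _ = (t ≫ s) ≫ u := by rw [hA.comm s t]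
          _ = t ≫ s ≫ u := Category.assoc _ _ _
          _ = (t ≫ t') ≫ r ≫ u := by rw [h3, Category.assoc]
          _ = (t' ≫ t) ≫ r ≫ u := by rw [hA.comm t t']
          _ = t' ≫ (t ≫ r) ≫ u := by simp only [Category.assoc]
          _ = t' ≫ r ≫ t ≫ u := by rw [hA.comm t r, Category.assoc]
          _ = 0 := by rw [h7, comp_zero]
      have h9 : s ≫ x2 = 0 := by
        rw [hx2', ← Category.assoc, h9', zero_comp]
      have h10 : (s ≫ x)⟦(1 : ℤ)⟧' ≫ p ≫ δ' = 0 := by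
        rw [Functor.map_comp, Category.assoc, ← hx2, ← Functor.map_comp, h9, Functor.map_zero]
      have h11 : (s ≫ x)⟦(1 : ℤ)⟧' ≫ p = 0 := by
        have h12 : ((s ≫ x)⟦(1 : ℤ)⟧' ≫ p) ≫ δ' = 0 := by rw [Category.assoc, h10]
        obtain ⟨y, hy⟩ : ∃ y : O⟦(1 : ℤ)⟧ ⟶ H ⊗ O, (s ≫ x)⟦(1 : ℤ)⟧' ≫ p = y ≫ g' :=
          Triangle.coyoneda_exact₃ _ hT _ h12
        rw [hy, hHO.2.2 1 (by norm_num) y, zero_comp]
      have h13 : (s ≫ x)⟦(1 : ℤ)⟧' = 0 := by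
        obtain ⟨u', v', hT''⟩ := exists_inv_rot hT'
        obtain ⟨y, hy⟩ : ∃ y : O⟦(1 : ℤ)⟧ ⟶ H'⟦(-1 : ℤ)⟧, (s ≫ x)⟦(1 : ℤ)⟧' = y ≫ u' :=
          Triangle.coyoneda_exact₂ _ hT'' _ h11
        rw [hy, (vn_shift (m := 2) (by norm_num)).2 (hH'.2.2 2 (by norm_num)) y, zero_comp]
      apply (shiftFunctor C (1 : ℤ)).map_injective
      rw [h13, Functor.map_zero]
    have hQ' : QR e O H' (u ≫ (hA.m hH).inv ≫ g' ≫ q) := by
      refine ⟨hH', fun y => ?_⟩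
      obtain ⟨x, hx⟩ := post_surj hT' (vn_shift1.2 (hB.2 _ (by norm_num))) y
      obtain ⟨z, hz⟩ := post_surj hT (hHO.1.2 _ (by norm_num)) x
      obtain ⟨s, hs⟩ := hQ.surj (z ≫ (hA.m hH).hom)
      refine ⟨s, ?_⟩
      rw [← Category.assoc, hs]
      simp only [Category.assoc, Iso.hom_inv_id_assoc]
      rw [← Category.assoc, hz, hx]
    obtain ⟨ret⟩ := exists_retract hA hBc hQ' hann
    have hLB : L B := hL.toIsLoc.retract ret (hL.tensor B H' hLH')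
    exact hL.ext₂ _ hT' (hL.shift _ _ hLB) hLH'

end

end Pool.Agent.Helper609_TT
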