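import Pool.Agent.Helper609_TT.EM

/-!
# Infinite resolutions in the heart
-/

namespace Pool.Agent.Helper609_TT

open CategoryTheory CategoryTheory.Limits CategoryTheory.Pretriangulated
open CategoryTheory.MonoidalCategory ZeroObject

universe v u u'

section

variable {C : Type u} [Category.{v} C] [Preadditive C] [HasZeroObject C]
    [HasShift C ℤ] [∀ n : ℤ, (shiftFunctor C n).Additive] [Pretriangulated C]
    [MonoidalCategory C] [SymmetricCategory C] [RigidlyCompactlyGenerated C]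

variable {e O : C} {a : e ⟶ 𝟙_ C} {b : 𝟙_ C ⟶ O}

/-- a morphism inducing bijections on all homotopy groups is an isomorphism -/
lemma isIso_of_bij (hA : AffUnit e O a b) {H X : C} (h : H ⟶ X) (hH : Ann e H) (hX : Ann e X)
    (hinj : ∀ (k : ℤ) (α : O⟦k⟧ ⟶ H), α ≫ h = 0 → α = 0)
    (hsurj : ∀ (k : ℤ) (β : O⟦k⟧ ⟶ X), ∃ α : O⟦k⟧ ⟶ H, α ≫ h = β) : IsIso h := by
  obtain ⟨Q, q, w, hT⟩ := distinguished_cocone_triangle h
  have hQ : IsZero Q := by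
    apply hA.gen Q ((isLocIdeal_ann e).toIsLoc.ext₃ _ hT hH hX)
    intro k ψ
    have h31 : w ≫ h⟦(1 : ℤ)⟧' = 0 := comp_distTriang_mor_zero₃₁ _ hT
    have hw : ψ ≫ w = 0 := by
      let j : O⟦k⟧ ≅ (O⟦k - 1⟧)⟦(1 : ℤ)⟧ := (shiftFunctorAdd' C (k - 1) 1 k (by ring)).app O
      obtain ⟨χ, hχ⟩ := (shiftFunctor C (1 : ℤ)).map_surjective (j.inv ≫ ψ ≫ w)
      have h4 : χ ≫ h = 0 := by
        apply (shiftFunctor C (1 : ℤ)).map_injective
        rw [Functor.map_comp, hχ, Category.assoc, Category.assoc, h31, comp_zero, comp_zero,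
          Functor.map_zero]
      rw [hinj _ χ h4, Functor.map_zero] at hχ
      rw [← cancel_epi j.inv, ← hχ, comp_zero]
    obtain ⟨β, hβ⟩ : ∃ β : O⟦k⟧ ⟶ X, ψ = β ≫ q := Triangle.coyoneda_exact₃ _ hT ψ hw
    obtain ⟨α, hα⟩ := hsurj k β
    have hpq : h ≫ q = 0 := comp_distTriang_mor_zero₁₂ _ hT
    rw [hβ, ← hα, Category.assoc, hpq, comp_zero]
  exact (Triangle.isZero₃_iff_isIso₁ _ hT).1 hQ

/-- states of the construction -/
structure ResSt (L W : ObjectProperty C) (X : C) where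
  E : C
  p : E ⟶ X
  X' : C
  k : ℤ
  D : C
  j : D ≅ X'⟦k⟧
  q : X ⟶ D
  w : D ⟶ E⟦(1 : ℤ)⟧
  tri : Triangle.mk p q w ∈ distTriang C
  hL : L E
  hW : W X'

variable [IsTriangulated C]

omit [MonoidalCategory C] [SymmetricCategory C] [RigidlyCompactlyGenerated C] in
lemma res_step {L W : ObjectProperty C} (hL : ∀ (T : Triangle C), T ∈ distTriang C →
      L T.obj₁ → L T.obj₃ → L T.obj₂) (hLs : ∀ (X : C) (n : ℤ), L X → L (X⟦n⟧))
    (hW : ∀ X, W X → ∃ (X' Z : C) (i : X' ⟶ Z) (f : Z ⟶ X) (g : X ⟶ X'⟦(1 : ℤ)⟧),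
      Triangle.mk i f g ∈ distTriang C ∧ L Z ∧ W X') {X : C} (s : ResSt L W X) :
    ∃ (s' : ResSt L W X) (φ : s.E ⟶ s'.E), φ ≫ s'.p = s.p ∧ s'.k = s.k + 1 := by
  obtain ⟨Y, Z, i, f, g, hT, hZ, hY⟩ := hW s.X' s.hW
  have hT1 := rot_of_distTriang _ hT
  have hT2 := Triangle.shift_distinguished _ hT1 s.k
  obtain ⟨u, v, w, hT3⟩ : ∃ (u : Z⟦s.k⟧ ⟶ s.X'⟦s.k⟧) (v : s.X'⟦s.k⟧ ⟶ (Y⟦(1 : ℤ)⟧)⟦s.k⟧)
      (w : (Y⟦(1 : ℤ)⟧)⟦s.k⟧ ⟶ (Z⟦s.k⟧)⟦(1 : ℤ)⟧), Triangle.mk u v w ∈ distTriang C :=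
    ⟨_, _, _, hT2⟩
  have hT4 := dist_iso₂ hT3 s.j.symm
  obtain ⟨E', p', w', hT5⟩ := distinguished_cocone_triangle₁ (s.q ≫ s.j.symm.inv ≫ v)
  let o := Triangulated.someOctahedron' rfl s.tri hT4 hT5
  let j' : (Y⟦(1 : ℤ)⟧)⟦s.k⟧ ≅ Y⟦s.k + 1⟧ :=
    ((shiftFunctorAdd' C 1 s.k (s.k + 1) (by ring)).app Y).symm
  have hE' : L E' := hL _ o.mem s.hL (hLs _ _ hZ)
  exact ⟨⟨E', p', Y, s.k + 1, _, j', _, w', hT5, hE', hY⟩, o.m₁, o.comm₁, rfl⟩

/-- objects of the heart admitting infinite resolutions by objects of a localizing subcategory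
lie in it -/
theorem mem_of_res (hA : AffUnit e O a b) {L W : ObjectProperty C} (hL : IsLoc L)
    (hWc : ∀ X, W X → Conn e O X)
    (hW : ∀ X, W X → ∃ (X' Z : C) (i : X' ⟶ Z) (f : Z ⟶ X) (g : X ⟶ X'⟦(1 : ℤ)⟧),
      Triangle.mk i f g ∈ distTriang C ∧ L Z ∧ W X') {X : C} (hX : W X) : L X := by
  classical
  -- localizing subcategory inside the local category
  let L' : ObjectProperty C := fun Y => L Y ∧ Ann e Y
  have hL' : IsLoc L' :=
    { iso := fun i h => ⟨hL.iso i h.1, (isLocIdeal_ann e).iso i h.2⟩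
      shift := fun X n h => ⟨hL.shift X n h.1, (isLocIdeal_ann e).shift X n h.2⟩
      ext₂ := fun T hT h₁ h₃ => ⟨hL.ext₂ T hT h₁.1 h₃.1, (isLocIdeal_ann e).ext₂ T hT h₁.2 h₃.2⟩
      coprod := fun J X h => ⟨hL.coprod J X (fun j => (h j).1),
        (isLocIdeal_ann e).coprod J X (fun j => (h j).2)⟩ }
  have hW' : ∀ X, W X → ∃ (X' Z : C) (i : X' ⟶ Z) (f : Z ⟶ X) (g : X ⟶ X'⟦(1 : ℤ)⟧),
      Triangle.mk i f g ∈ distTriang C ∧ L' Z ∧ W X' := by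
    intro X hX
    obtain ⟨X', Z, i, f, g, hT, hZ, hX'⟩ := hW X hX
    exact ⟨X', Z, i, f, g, hT, ⟨hZ, (isLocIdeal_ann e).ext₂ _ hT (hWc _ hX').1 (hWc _ hX).1⟩, hX'⟩
  choose nx φ h1 h2 using fun s : ResSt L' W X => res_step hL'.ext₂ hL'.shift hW' s
  let s0 : ResSt L' W X :=
    ⟨0, 0, X, 0, X, ((shiftFunctorZero C ℤ).app X).symm, 𝟙 X, 0,
      contractible_distinguished₁ X, hL'.zero (isZero_zero C), hX⟩
  let st : ℕ → ResSt L' W X := fun n => Nat.rec s0 (fun _ s => nx s) n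
  have hk : ∀ n : ℕ, (st n).k = n := by
    intro n
    induction n with
    | zero => rfl
    | succ n ih =>
      have : (st (n + 1)).k = (st n).k + 1 := h2 (st n)
      rw [this, ih]
      push_cast
      rfl
  obtain ⟨H, ι, hH⟩ := exists_isHoc (fun n => (st n).E) (fun n => φ (st n))
  obtain ⟨h, hh⟩ := hH.desc (fun n => (st n).p) (fun n => h1 (st n))
  have hFe : ∀ n, Ann e (st n).E := fun n => (st n).hL.2
  have hHL : L' H := hH.mem hL'.isAisle (fun n => (st n).hL)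
  have hstinj : ∀ (n : ℕ) (k : ℤ), k + 1 < n → ∀ α : O⟦k⟧ ⟶ (st n).E, α ≫ (st n).p = 0 →
      α = 0 := by
    intro n k hkn α hα
    obtain ⟨u, v, hT⟩ := exists_inv_rot (st n).tri
    obtain ⟨β, hβ⟩ : ∃ β : O⟦k⟧ ⟶ (st n).D⟦(-1 : ℤ)⟧, α = β ≫ u :=
      Triangle.coyoneda_exact₂ _ hT α hα
    have hV : Vn O (k + 1) (st n).D := by
      refine vn_iso (st n).j.symm ((vn_shift (m := k + 1 - n) (by rw [hk]; ring)).2 ?_)
      exact (hWc _ (st n).hW).2 _ (by omega)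
    rw [hβ, (vn_shift (m := k + 1) (by ring)).2 hV β, zero_comp]
  have hstsurj : ∀ (n : ℕ) (k : ℤ), k < n → ∀ β : O⟦k⟧ ⟶ X, ∃ α : O⟦k⟧ ⟶ (st n).E,
      α ≫ (st n).p = β := by
    intro n k hkn β
    have hV : Vn O k (st n).D := by
      refine vn_iso (st n).j.symm ((vn_shift (m := k - n) (by rw [hk]; ring)).2 ?_)
      exact (hWc _ (st n).hW).2 _ (by omega)
    obtain ⟨α, hα⟩ : ∃ α : O⟦k⟧ ⟶ (st n).E, β = α ≫ (st n).p :=
      Triangle.coyoneda_exact₂ _ (st n).tri β (hV _)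
    exact ⟨α, hα.symm⟩
  have hiso : IsIso h := by
    apply isIso_of_bij hA h hHL.2 (hWc X hX).1
    · intro k α hα
      obtain ⟨n, α', rfl⟩ := hA.hoc_factor hH hFe α
      obtain ⟨m, hm⟩ : ∃ m : ℕ, k + 1 < ((n + m : ℕ) : ℤ) := ⟨(k + 2).toNat, by omega⟩
      rw [← hH.comm_trans n m, ← Category.assoc] at hα ⊢
      rw [Category.assoc, hh] at hα
      rw [hstinj (n + m) k hm _ hα, zero_comp]
    · intro k β
      obtain ⟨n, hn⟩ : ∃ n : ℕ, k < (n : ℤ) := ⟨(k + 1).toNat, by omega⟩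
      obtain ⟨α, hα⟩ := hstsurj n k hn β
      exact ⟨α ≫ ι n, by rw [Category.assoc, hh, hα]⟩
  exact hL.iso (asIso h) hHL.1

end

end Pool.Agent.Helper609_TT
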