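import Pool.Agent.Helper609_TT.Quo

/-!
# Sequences of quotients of the unit
-/

namespace Pool.Agent.Helper609_TT

open CategoryTheory CategoryTheory.Limits CategoryTheory.Pretriangulated
open CategoryTheory.MonoidalCategory ZeroObject

universe v u u'

section

variable {C : Type u} [Category.{v} C] [Preadditive C] [HasZeroObject C]
    [HasShift C ℤ] [∀ n : ℤ, (shiftFunctor C n).Additive] [Pretriangulated C]
    [MonoidalCategory C] [SymmetricCategory C] [RigidlyCompactlyGenerated C]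

variable {e O : C} {a : e ⟶ 𝟙_ C} {b : 𝟙_ C ⟶ O}

theorem exists_seq (hA : AffUnit e O a b) (r : ℕ → (O ⟶ O)) (K : ℕ → C)
    (hK : ∀ n, ∃ (g : O ⟶ K n) (δ : K n ⟶ O⟦(1 : ℤ)⟧), Triangle.mk (r n) g δ ∈ distTriang C) :
    ∃ (H : ℕ → C) (u : ∀ n, O ⟶ H n) (v : ∀ n, H n ⟶ H (n + 1)) (E : C) (ι : ∀ n, H n ⟶ E),
      IsHoc H v E ι ∧ (∀ n, QR e O (H n) (u n)) ∧ (∀ n, u n ≫ v n = u (n + 1)) ∧
      (∀ s : O ⟶ O, s ≫ u 0 = 0 → s = 0) ∧
      (∀ (n : ℕ) (L : ObjectProperty C), IsLocIdeal L → L (H (n + 1)) → L (H n ⊗ K n)) ∧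
      ∀ n, E ◁ (r n) = 0 := by
  classical
  obtain ⟨H₀, u₀, hH₀, hs₀, hi₀⟩ := exists_unitHeart hA
  let St : Type _ := {p : Σ H : C, (O ⟶ H) // QR e O p.1 p.2}
  have hstep : ∀ (n : ℕ) (s : St), ∃ (s' : St) (v : s.1.1 ⟶ s'.1.1), s.1.2 ≫ v = s'.1.2 ∧
      r n ≫ s'.1.2 = 0 ∧
      ∀ L : ObjectProperty C, IsLocIdeal L → L s'.1.1 → L (s.1.1 ⊗ K n) := by
    rintro n ⟨⟨H, u⟩, hQ⟩
    obtain ⟨g, δ, hT⟩ := hK n
    obtain ⟨H', v, hQ', h1, h2⟩ := hQ.step hA hT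
    exact ⟨⟨⟨H', u ≫ v⟩, hQ'⟩, v, rfl, h1, h2⟩
  choose nx vv h1 h2 h3 using hstep
  let s₀ : St := ⟨⟨H₀, u₀⟩, hH₀, hs₀⟩
  let st : ℕ → St := fun n => Nat.rec s₀ (fun n s => nx n s) n
  obtain ⟨E, ι, hE⟩ := exists_isHoc (fun n => (st n).1.1) (fun n => vv n (st n))
  have hker : ∀ n k, r n ≫ (st (n + 1 + k)).1.2 = 0 := by
    intro n k
    induction k with
    | zero => exact h2 n (st n)
    | succ k ih =>
      have h4 : (st (n + 1 + k)).1.2 ≫ vv _ (st (n + 1 + k)) = (st (n + 1 + (k + 1))).1.2 :=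
        h1 (n + 1 + k) (st (n + 1 + k))
      rw [← h4, ← Category.assoc, ih, zero_comp]
  have hEc : Conn e O E := hE.mem (isAisle_conn hA.toLocUnit) (fun n => (st n).2.hrt.1)
  have hEh : Coc e O E := ⟨hEc.1, fun k hk =>
    hA.hoc_vn hE (fun n => (st n).2.hrt.1.1) (N := 0) (fun n _ => (st n).2.hrt.2.2 k hk)⟩
  refine ⟨fun n => (st n).1.1, fun n => (st n).1.2, fun n => vv n (st n), E, ι, hE,
    fun n => (st n).2, fun n => h1 n (st n), hi₀, fun n L hL h => h3 n (st n) L hL h, ?_⟩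
  intro n
  have h5 : (hA.m hEc.1).inv ≫ E ◁ r n ≫ (hA.m hEc.1).hom = 0 := by
    apply hEc.ext hA hEh
    intro x
    rw [hA.act]
    obtain ⟨j, x', rfl⟩ := hA.hoc_factor₀ hE (fun n => (st n).2.hrt.1.1) x
    obtain ⟨k, hk⟩ : ∃ k, j + (n + 1) = n + 1 + k := ⟨j, by omega⟩
    have h6 : r n ≫ (st (j + (n + 1))).1.2 = 0 := by rw [hk]; exact hker n k
    rw [← hE.comm_trans j (n + 1)]
    obtain ⟨s, hs⟩ := (st (j + (n + 1))).2.surj
      (x' ≫ trans (fun n => (st n).1.1) (fun n => vv n (st n)) j (n + 1))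
    rw [← Category.assoc x', ← hs, ← Category.assoc, ← Category.assoc, hA.comm (r n) s,
      Category.assoc s, h6, comp_zero, zero_comp]
  have h7 : E ◁ r n = (hA.m hEc.1).hom ≫ ((hA.m hEc.1).inv ≫ E ◁ r n ≫ (hA.m hEc.1).hom) ≫
      (hA.m hEc.1).inv := by simp
  rw [h7, h5]
  simp

end

end Pool.Agent.Helper609_TT
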