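import Pool.Agent.Helper609_TT.Bous

/-!
# The Balmer spectrum: existence of primes, supports, Thomason subsets
-/

namespace Pool.Agent.Helper609_TT

open CategoryTheory CategoryTheory.Limits CategoryTheory.Pretriangulated
open CategoryTheory.MonoidalCategory

universe v u u'

section

variable {C : Type u} [Category.{v} C] [Preadditive C] [HasZeroObject C]
    [HasShift C ℤ] [∀ n : ℤ, (shiftFunctor C n).Additive] [Pretriangulated C]
    [MonoidalCategory C] [SymmetricCategory C] [RigidlyCompactlyGenerated C]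

lemma IsThickIdeal.isClosedUnderIso {K : ObjectProperty C} (hK : IsThickIdeal K) {X Y : C}
    (e : X ≅ Y) : K X ↔ K Y := ⟨hK.iso e, hK.iso e.symm⟩

/-- The thick ideal of all compact objects. -/
lemma isThickIdeal_cpt : IsThickIdeal (fun x : C => IsCpt x) where
  cpt h := h
  zero _ h := isCpt_of_isZero h
  shift _ n h := isCpt_shift h n
  ext₂ T hT h₁ h₃ := isCpt_ext₂ T hT h₁ h₃
  retract r h := isCpt_of_retract r h
  tensor _ _ hX hY := isCpt_tensor hX hY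

/-- colon ideals: the compact objects `x` with `t ⊗ x ∈ K` -/
lemma isThickIdeal_colon {K : ObjectProperty C} (hK : IsThickIdeal K) (t : C) :
    IsThickIdeal (fun x : C => IsCpt x ∧ K (t ⊗ x)) where
  cpt h := h.1
  zero X h := ⟨isCpt_of_isZero h, hK.zero _ (isZero_tensor_left t h)⟩
  shift X n h := ⟨isCpt_shift h.1 n,
    hK.iso (((tensorLeft t).commShiftIso n).app X).symm (hK.shift _ n h.2)⟩
  ext₂ T hT h₁ h₃ := ⟨isCpt_ext₂ T hT h₁.1 h₃.1,
    hK.ext₂ _ ((tensorLeft t).map_distinguished T hT) h₁.2 h₃.2⟩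
  retract r h := ⟨isCpt_of_retract r h.1, hK.retract (r.map (tensorLeft t)) h.2⟩
  tensor X Y hX h := ⟨isCpt_tensor hX h.1, by
    refine hK.iso ?_ (hK.tensor X _ hX h.2)
    exact (α_ X t Y).symm ≪≫ whiskerRightIso (β_ X t) Y ≪≫ α_ t X Y⟩

/-- the compact objects annihilating a given object form a thick ideal -/
lemma isThickIdeal_ann (t : C) : IsThickIdeal (fun x : C => IsCpt x ∧ Ann t x) where
  cpt h := h.1
  zero X h := ⟨isCpt_of_isZero h, (isLocIdeal_ann t).zero h⟩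
  shift X n h := ⟨isCpt_shift h.1 n, (isLocIdeal_ann t).shift X n h.2⟩
  ext₂ T hT h₁ h₃ := ⟨isCpt_ext₂ T hT h₁.1 h₃.1, (isLocIdeal_ann t).ext₂ T hT h₁.2 h₃.2⟩
  retract {X Y} r h := ⟨isCpt_of_retract r h.1, by
    have h2 : IsZero ((tensorLeft t).obj Y) := h.2
    have r' := r.map (tensorLeft t)
    change IsZero ((tensorLeft t).obj X)
    rw [IsZero.iff_id_eq_zero, ← r'.retract, h2.eq_of_src r'.r 0, comp_zero]⟩
  tensor X Y hX h := ⟨isCpt_tensor hX h.1, (isLocIdeal_ann t).tensor X Y h.2⟩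

/-- Existence of primes containing a thick ideal and avoiding a multiplicative class. -/
theorem exists_prime {K : ObjectProperty C} (hK : IsThickIdeal K) (S : ObjectProperty C)
    (hSc : ∀ s, S s → IsCpt s) (hSne : ∃ s, S s) (hSm : ∀ s t, S s → S t → S (s ⊗ t))
    (hdisj : ∀ s, S s → ¬ K s) :
    ∃ P : Spc C, (∀ x, K x → P.1 x) ∧ ∀ s, S s → ¬ P.1 s := by
  let 𝒵 : Set (Set C) := {M | IsThickIdeal (C := C) (fun x => x ∈ M) ∧ (∀ x, K x → x ∈ M) ∧
    ∀ s, S s → s ∉ M}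
  have hz := zorn_subset_nonempty 𝒵 (by
    intro c hc hchain hne
    refine ⟨⋃₀ c, ⟨?_, ?_, ?_⟩, fun s hs => Set.subset_sUnion_of_mem hs⟩
    · obtain ⟨M₀, hM₀⟩ := hne
      refine ⟨?_, ?_, ?_, ?_, ?_, ?_⟩
      · rintro X ⟨M, hM, hX⟩
        exact (hc hM).1.cpt hX
      · intro X hX
        exact ⟨M₀, hM₀, (hc hM₀).1.zero X hX⟩
      · rintro X n ⟨M, hM, hX⟩
        exact ⟨M, hM, (hc hM).1.shift X n hX⟩
      · rintro T hT ⟨M, hM, hX⟩ ⟨M', hM', hX'⟩
        rcases hchain.total hM hM' with h | h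
        · exact ⟨M', hM', (hc hM').1.ext₂ T hT (h hX) hX'⟩
        · exact ⟨M, hM, (hc hM).1.ext₂ T hT hX (h hX')⟩
      · rintro X Y r ⟨M, hM, hX⟩
        exact ⟨M, hM, (hc hM).1.retract r hX⟩
      · rintro X Y hX ⟨M, hM, hY⟩
        exact ⟨M, hM, (hc hM).1.tensor X Y hX hY⟩
    · obtain ⟨M₀, hM₀⟩ := hne
      intro x hx
      exact ⟨M₀, hM₀, (hc hM₀).2.1 x hx⟩
    · rintro s hs ⟨M, hM, hsM⟩
      exact (hc hM).2.2 s hs hsM) {x | K x} ⟨hK, fun x hx => hx, hdisj⟩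
  obtain ⟨M, hKM, hM, hmax⟩ := hz
  have hMt : IsThickIdeal (C := C) (fun x => x ∈ M) := hM.1
  -- an ideal strictly larger than `M` meets `S`
  have hbig : ∀ N : ObjectProperty C, IsThickIdeal N → (∀ x, x ∈ M → N x) →
      (∃ x, N x ∧ x ∉ M) → ∃ s, S s ∧ N s := by
    intro N hN hMN ⟨x, hNx, hxM⟩
    by_contra hcon
    push Not at hcon
    have : {x | N x} ⊆ M := hmax (show {x | N x} ∈ 𝒵 from
      ⟨hN, fun y hy => hMN y (hKM hy), fun s hs hNs => hcon s hs hNs⟩) (fun y hy => hMN y hy)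
    exact hxM (this hNx)
  refine ⟨⟨fun x => x ∈ M, hMt, ?_, ?_⟩, fun x hx => hKM hx, hM.2.2⟩
  · intro h1
    obtain ⟨s, hs⟩ := hSne
    exact hM.2.2 s hs (hMt.iso (ρ_ s) (hMt.tensor s _ (hSc s hs) h1))
  · intro X Y hX hY hXY
    by_contra hcon
    push Not at hcon
    obtain ⟨s, hs, hs1⟩ := hbig _ (isThickIdeal_colon hMt Y)
      (fun x hx => ⟨hMt.cpt hx, hMt.tensor Y x hY hx⟩)
      ⟨X, ⟨hX, hMt.iso (β_ X Y) hXY⟩, hcon.1⟩
    obtain ⟨s', hs', hs2⟩ := hbig _ (isThickIdeal_colon hMt s)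
      (fun x hx => ⟨hMt.cpt hx, hMt.tensor s x (hSc s hs) hx⟩)
      ⟨Y, ⟨hY, hMt.iso (β_ Y s) hs1.2⟩, hcon.2⟩
    exact hM.2.2 _ (hSm s s' hs hs') hs2.2

/-- Existence of primes containing a thick ideal and avoiding an object outside it. -/
theorem exists_prime_of_not_mem {K : ObjectProperty C} (hK : IsThickIdeal K) {a : C}
    (ha : IsCpt a) (haK : ¬ K a) : ∃ P : Spc C, (∀ x, K x → P.1 x) ∧ ¬ P.1 a := by
  let S : ObjectProperty C := fun s => IsCpt s ∧ ∀ M : ObjectProperty C, IsThickIdeal M →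
    (∀ x, K x → M x) → M s → M a
  obtain ⟨P, hP, hPS⟩ := exists_prime hK S (fun s h => h.1) ⟨a, ha, fun M _ _ h => h⟩ (by
    intro s t hs ht
    refine ⟨isCpt_tensor hs.1 ht.1, fun M hM hKM hst => ?_⟩
    have h1 := hs.2 _ (isThickIdeal_colon hM t)
      (fun x hx => ⟨hK.cpt hx, hM.tensor t x ht.1 (hKM x hx)⟩) ⟨hs.1, hM.iso (β_ s t) hst⟩
    have h2 := ht.2 _ (isThickIdeal_colon hM a)
      (fun x hx => ⟨hK.cpt hx, hM.tensor a x ha (hKM x hx)⟩) ⟨ht.1, hM.iso (β_ t a) h1.2⟩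
    exact hM.radical ha h2.2) (fun s hs hKs => haK (hs.2 K hK (fun _ h => h) hKs))
  exact ⟨P, hP, hPS a ⟨ha, fun M _ _ h => h⟩⟩

/-! ## Supports -/

lemma mem_supp {a : C} {P : Spc C} : P ∈ supp a ↔ ¬ P.1 a := Iff.rfl

lemma notMem_supp {a : C} {P : Spc C} : P ∉ supp a ↔ P.1 a := not_not

lemma supp_tensor {a b : C} (ha : IsCpt a) (hb : IsCpt b) :
    supp (a ⊗ b) = supp a ∩ supp b := by
  ext P
  simp only [Set.mem_inter_iff, mem_supp]
  constructor
  · intro h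
    exact ⟨fun h' => h (P.2.toIsThickIdeal.tensor' h' hb), fun h' => h (P.2.tensor a b ha h')⟩
  · rintro ⟨h1, h2⟩ h
    rcases P.2.prime a b ha hb h with h' | h'
    · exact h1 h'
    · exact h2 h'

lemma supp_biprod (a b : C) : supp (a ⊞ b) = supp a ∪ supp b := by
  ext P
  simp only [Set.mem_union, mem_supp]
  constructor
  · intro h
    by_contra hcon
    push Not at hcon
    exact h (P.2.toIsThickIdeal.biprod hcon.1 hcon.2)
  · rintro (h | h) h'
    · exact h (P.2.retract ⟨biprod.inl, biprod.fst, by simp⟩ h')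
    · exact h (P.2.retract ⟨biprod.inr, biprod.snd, by simp⟩ h')

lemma supp_unit : supp (𝟙_ C) = Set.univ := by
  ext P
  simp only [mem_supp, Set.mem_univ, iff_true]
  exact P.2.ne_top

lemma isCpt_biprod {a b : C} (ha : IsCpt a) (hb : IsCpt b) : IsCpt (a ⊞ b) :=
  isCpt_ext₂ _ (binaryBiproductTriangle_distinguished a b) ha hb

lemma isThickIdeal_cptOn (Y : Set (Spc C)) : IsThickIdeal (cptOn Y) where
  cpt h := h.1
  zero X h := ⟨isCpt_of_isZero h, fun P hP => absurd (P.2.zero X h) hP⟩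
  shift X n h := ⟨isCpt_shift h.1 n, fun P hP => h.2 (fun h' => hP (P.2.shift X n h'))⟩
  ext₂ T hT h₁ h₃ := ⟨isCpt_ext₂ T hT h₁.1 h₃.1, fun P hP => by
    by_contra hcon
    exact hP (P.2.ext₂ T hT (by_contra fun h => hcon (h₁.2 h)) (by_contra fun h => hcon (h₃.2 h)))⟩
  retract r h := ⟨isCpt_of_retract r h.1, fun P hP => h.2 (fun h' => hP (P.2.retract r h'))⟩
  tensor X Y hX h := ⟨isCpt_tensor hX h.1, fun P hP => h.2 (fun h' => hP (P.2.tensor X Y hX h'))⟩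

/-! ## Topology -/

lemma isTopologicalBasis_spc :
    TopologicalSpace.IsTopologicalBasis {U : Set (Spc C) | ∃ a : C, IsCpt a ∧ U = (supp a)ᶜ} := by
  apply TopologicalSpace.isTopologicalBasis_of_subbasis_of_finiteInter rfl
  refine ⟨?_, ?_⟩
  · obtain ⟨z, hz⟩ := HasZeroObject.zero (C := C)
    refine ⟨z, isCpt_of_isZero hz, ?_⟩
    ext P
    simp only [Set.mem_univ, Set.mem_compl_iff, mem_supp, not_not, true_iff]
    exact P.2.zero z hz
  · rintro _ ⟨a, ha, rfl⟩ _ ⟨b, hb, rfl⟩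
    exact ⟨a ⊞ b, isCpt_biprod ha hb, by rw [supp_biprod, Set.compl_union]⟩

lemma isClosed_supp {a : C} (ha : IsCpt a) : IsClosed (supp a) := by
  rw [← isOpen_compl_iff]
  exact isTopologicalBasis_spc.isOpen ⟨a, ha, rfl⟩

/-- the complement of the support of a compact object is quasi-compact -/
lemma isCompact_compl_supp {z : C} (hz : IsCpt z) : IsCompact (supp z)ᶜ := by
  classical
  rw [isCompact_iff_finite_subcover]
  intro ι V hV hcov
  let S : ObjectProperty C := fun s => IsCpt s ∧ ∃ t : Finset ι, (supp s)ᶜ ⊆ ⋃ i ∈ t, V i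
  let K : ObjectProperty C := fun k => IsCpt k ∧ ∀ M : ObjectProperty C, IsThickIdeal M →
    M z → M k
  have hK : IsThickIdeal K :=
    { cpt := fun h => h.1
      zero := fun X h => ⟨isCpt_of_isZero h, fun M hM _ => hM.zero X h⟩
      shift := fun X n h => ⟨isCpt_shift h.1 n, fun M hM hMz => hM.shift X n (h.2 M hM hMz)⟩
      ext₂ := fun T hT h₁ h₃ => ⟨isCpt_ext₂ T hT h₁.1 h₃.1, fun M hM hMz =>
        hM.ext₂ T hT (h₁.2 M hM hMz) (h₃.2 M hM hMz)⟩
      retract := fun r h => ⟨isCpt_of_retract r h.1, fun M hM hMz =>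
        hM.retract r (h.2 M hM hMz)⟩
      tensor := fun X Y hX h => ⟨isCpt_tensor hX h.1, fun M hM hMz =>
        hM.tensor X Y hX (h.2 M hM hMz)⟩ }
  by_cases hdisj : ∀ s, S s → ¬ K s
  · exfalso
    obtain ⟨P, hP, hPS⟩ := exists_prime hK S (fun s h => h.1)
      ⟨𝟙_ C, isCpt_unit, ∅, by rw [supp_unit]; simp⟩ (by
        rintro s t ⟨hs, A, hA⟩ ⟨ht, B, hB⟩
        refine ⟨isCpt_tensor hs ht, A ∪ B, ?_⟩
        rw [supp_tensor hs ht, Set.compl_inter]
        intro Q hQ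
        rcases hQ with hQ | hQ
        · have := hA hQ
          simp only [Set.mem_iUnion] at this ⊢
          obtain ⟨i, hi, hQi⟩ := this
          exact ⟨i, Finset.mem_union_left _ hi, hQi⟩
        · have := hB hQ
          simp only [Set.mem_iUnion] at this ⊢
          obtain ⟨i, hi, hQi⟩ := this
          exact ⟨i, Finset.mem_union_right _ hi, hQi⟩) hdisj
    have hPz : P ∈ (supp z)ᶜ := by
      simp only [Set.mem_compl_iff, notMem_supp]
      exact hP z ⟨hz, fun M _ h => h⟩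
    obtain ⟨i, hi⟩ := Set.mem_iUnion.1 (hcov hPz)
    obtain ⟨_, ⟨a, ha, rfl⟩, hPa, haV⟩ :=
      isTopologicalBasis_spc.exists_subset_of_mem_open hi (hV i)
    refine hPS a ⟨ha, {i}, ?_⟩ (notMem_supp.1 hPa)
    simpa using haV
  · push Not at hdisj
    obtain ⟨s, ⟨_, t, ht⟩, hs2⟩ := hdisj
    refine ⟨t, fun P hP => ht ?_⟩
    simp only [Set.mem_compl_iff, notMem_supp] at hP ⊢
    exact hs2.2 P.1 P.2.toIsThickIdeal hP

/-- a closed subset with quasi-compact complement is the support of a compact object -/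
lemma exists_supp_eq {Z : Set (Spc C)} (hZ : IsClosed Z) (hZc : IsCompact Zᶜ) :
    ∃ a : C, IsCpt a ∧ Z = supp a := by
  classical
  let ι := {a : C // IsCpt a ∧ (supp a)ᶜ ⊆ Zᶜ}
  obtain ⟨t, ht⟩ := hZc.elim_finite_subcover (fun i : ι => (supp i.1)ᶜ)
    (fun i => isTopologicalBasis_spc.isOpen ⟨i.1, i.2.1, rfl⟩) (by
      intro P hP
      obtain ⟨_, ⟨a, ha, rfl⟩, hPa, haV⟩ :=
        isTopologicalBasis_spc.exists_subset_of_mem_open hP hZ.isOpen_compl
      exact Set.mem_iUnion.2 ⟨⟨a, ha, haV⟩, hPa⟩)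
  have key : ∀ t : Finset ι, ∃ a : C, IsCpt a ∧ (supp a)ᶜ = ⋃ i ∈ t, (supp i.1)ᶜ := by
    intro t
    induction t using Finset.induction_on with
    | empty => exact ⟨𝟙_ C, isCpt_unit, by rw [supp_unit]; simp⟩
    | insert i t _ ih =>
      obtain ⟨a, ha, hat⟩ := ih
      refine ⟨i.1 ⊗ a, isCpt_tensor i.2.1 ha, ?_⟩
      rw [supp_tensor i.2.1 ha, Set.compl_inter, hat]
      simp
  obtain ⟨a, ha, hat⟩ := key t
  refine ⟨a, ha, ?_⟩
  apply compl_injective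
  apply Set.Subset.antisymm
  · rw [hat]; exact ht
  · rw [hat]
    intro P hP
    simp only [Set.mem_iUnion] at hP
    obtain ⟨i, _, hPi⟩ := hP
    exact i.2.2 hPi

lemma IsThomason.exists_supp {Y : Set (Spc C)} (hY : IsThomason Y) {P : Spc C} (hP : P ∈ Y) :
    ∃ a : C, IsCpt a ∧ P ∈ supp a ∧ supp a ⊆ Y := by
  obtain ⟨𝒮, h𝒮, rfl⟩ := hY
  obtain ⟨Z, hZ, hPZ⟩ := hP
  obtain ⟨a, ha, rfl⟩ := exists_supp_eq (h𝒮 Z hZ).1 (h𝒮 Z hZ).2
  exact ⟨a, ha, hPZ, Set.subset_sUnion_of_mem hZ⟩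

lemma isThomason_of {Y : Set (Spc C)}
    (h : ∀ P ∈ Y, ∃ a : C, IsCpt a ∧ P ∈ supp a ∧ supp a ⊆ Y) : IsThomason Y := by
  refine ⟨{Z | ∃ a : C, IsCpt a ∧ supp a ⊆ Y ∧ Z = supp a}, ?_, ?_⟩
  · rintro _ ⟨a, ha, _, rfl⟩
    exact ⟨isClosed_supp ha, isCompact_compl_supp ha⟩
  · apply Set.Subset.antisymm
    · intro P hP
      obtain ⟨a, ha, hPa, haY⟩ := h P hP
      exact ⟨supp a, ⟨a, ha, haY, rfl⟩, hPa⟩
    · rintro P ⟨_, ⟨a, _, haY, rfl⟩, hPa⟩
      exact haY hPa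

lemma isThomason_supp {a : C} (ha : IsCpt a) : IsThomason (supp a) :=
  isThomason_of (fun _ hP => ⟨a, ha, hP, le_rfl⟩)

/-! ## Idempotents of Thomason subsets -/

theorem exists_idempotentPair (Y : Set (Spc C)) : ∃ e f : C, IsIdempotentPair Y e f := by
  obtain ⟨e, f, a, b, h⟩ := exists_idem (isThickIdeal_cptOn Y)
  obtain ⟨d, hT⟩ := h.tri
  exact ⟨e, f, a, b, d, hT, h.loc _ (isLocIdeal_locIdeal _).toIsLoc
    (fun w hw => subset_locIdeal _ hw), h.orth⟩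

namespace IsIdempotentPair

variable {Y : Set (Spc C)} {e f : C}

lemma kill (h : IsIdempotentPair Y e f) {w : C} (hw : cptOn Y w) : Ann f w := by
  obtain ⟨a, b, d, hT, hloc, horth⟩ := h
  exact ann_symm (isZero_tensor_of_orth (isThickIdeal_cptOn Y) horth hw)

lemma mem_loc (h : IsIdempotentPair Y e f) : locIdeal (cptOn Y) e := by
  obtain ⟨a, b, d, hT, hloc, horth⟩ := h
  exact hloc

lemma ef (h : IsIdempotentPair Y e f) : Ann f e :=
  locIdeal_le (isLocIdeal_ann f) (fun _ hw => h.kill hw) h.mem_loc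

lemma iso_left (h : IsIdempotentPair Y e f) {x : C} (hx : Ann f x) : Nonempty (x ⊗ e ≅ x) := by
  obtain ⟨a, b, d, hT, hloc, horth⟩ := h
  have hT' := (tensorLeft x).map_distinguished _ hT
  have h0 : IsZero (x ⊗ f) := ann_symm hx
  have : IsIso (x ◁ a) := (Triangle.isZero₃_iff_isIso₁ _ hT').1 h0
  exact ⟨asIso (x ◁ a) ≪≫ ρ_ x⟩

lemma iso_right (h : IsIdempotentPair Y e f) {x : C} (hx : Ann e x) :
    Nonempty (x ≅ x ⊗ f) := by
  obtain ⟨a, b, d, hT, hloc, horth⟩ := h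
  have hT' := (tensorLeft x).map_distinguished _ hT
  have h0 : IsZero (x ⊗ e) := ann_symm hx
  have : IsIso (x ◁ b) := (Triangle.isZero₁_iff_isIso₂ _ hT').1 h0
  exact ⟨(ρ_ x).symm ≪≫ asIso (x ◁ b)⟩

end IsIdempotentPair

/-- existence of Balmer-Favi idempotents -/
theorem exists_balmerFavi (hC : WeaklyNoetherian C) (P : Spc C) : ∃ g : C, IsBalmerFavi P g := by
  obtain ⟨Y₁, Y₂, h₁, h₂, h⟩ := hC P
  obtain ⟨e₁, f₁, hp₁⟩ := exists_idempotentPair Y₁
  obtain ⟨e₂, f₂, hp₂⟩ := exists_idempotentPair Y₂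
  exact ⟨e₁ ⊗ f₂, Y₁, Y₂, e₁, f₁, e₂, f₂, h₁, h₂, h, hp₁, hp₂, ⟨Iso.refl _⟩⟩

end

end Pool.Agent.Helper609_TT
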