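import Pool.Agent.Helper609_TT.Unit

/-!
# The t-structure of a local category generated by a connective unit
-/

namespace Pool.Agent.Helper609_TT

open CategoryTheory CategoryTheory.Limits CategoryTheory.Pretriangulated
open CategoryTheory.MonoidalCategory

universe v u u'

section

variable {C : Type u} [Category.{v} C] [Preadditive C] [HasZeroObject C]
    [HasShift C ℤ] [∀ n : ℤ, (shiftFunctor C n).Additive] [Pretriangulated C]
    [MonoidalCategory C] [SymmetricCategory C] [RigidlyCompactlyGenerated C]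

/-- an idempotent triangle whose local category is generated by the unit `O`, which is connective
and bounded -/
structure AffUnit (e O : C) (a : e ⟶ 𝟙_ C) (b : 𝟙_ C ⟶ O) : Prop extends LocUnit e O a b where
  gen : ∀ X : C, Ann e X → (∀ k, Vn O k X) → IsZero X
  neg : ∀ k : ℤ, k < 0 → Vn O k O
  bdd : ∃ N : ℤ, ∀ k : ℤ, N < k → Vn O k O

/-- connective objects -/
def Conn (e O : C) : ObjectProperty C := fun X => Ann e X ∧ ∀ k : ℤ, k < 0 → Vn O k X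

/-- coconnective objects -/
def Coc (e O : C) : ObjectProperty C := fun X => Ann e X ∧ ∀ k : ℤ, 0 < k → Vn O k X

/-- strictly coconnective objects -/
def VV (e O : C) : ObjectProperty C := fun X => Ann e X ∧ ∀ k : ℤ, 0 ≤ k → Vn O k X

/-- objects of the heart -/
def Hrt (e O : C) : ObjectProperty C := fun X => Conn e O X ∧ Coc e O X

lemma IsAisle.shiftNat {A : ObjectProperty C} (hA : IsAisle A) {X : C} (h : A X) (n : ℕ) :
    A (X⟦(n : ℤ)⟧) := by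
  induction n with
  | zero => exact hA.iso ((shiftFunctorZero C ℤ).app X).symm h
  | succ n ih =>
    exact hA.iso ((shiftFunctorAdd' C (n : ℤ) 1 ((n + 1 : ℕ) : ℤ) (by push_cast; rfl)).app X).symm
      (hA.shift1 _ ih)

lemma vn_shift1 {O X : C} {k : ℤ} : Vn O k (X⟦(1 : ℤ)⟧) ↔ Vn O (k - 1) X := vn_shift (by ring)

section

variable {e O : C} {a : e ⟶ 𝟙_ C} {b : 𝟙_ C ⟶ O}

lemma isAisle_conn (hU : LocUnit e O a b) : IsAisle (Conn e O) where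
  iso i h := ⟨(isLocIdeal_ann e).iso i h.1, fun k hk => vn_iso i (h.2 k hk)⟩
  shift1 X h := ⟨(isLocIdeal_ann e).shift X 1 h.1, fun k hk => vn_shift1.2 (h.2 _ (by omega))⟩
  ext₂ T hT h₁ h₃ := ⟨(isLocIdeal_ann e).ext₂ T hT h₁.1 h₃.1,
    fun k hk => vn_ext₂ T hT (h₁.2 k hk) (h₃.2 k hk)⟩
  coprod J X h := ⟨(isLocIdeal_ann e).coprod J X (fun j => (h j).1),
    fun k hk => hU.vn_coprod (fun j => (h j).1) (fun j => (h j).2 k hk)⟩

lemma conn_unit (hA : AffUnit e O a b) : Conn e O O := ⟨hA.ann, hA.neg⟩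

lemma trunc_step (O : C) {X : C} (s : Σ E : C, (E ⟶ X)) :
    ∃ (s' : Σ E : C, (E ⟶ X)) (φ : s.1 ⟶ s'.1), φ ≫ s'.2 = s.2 ∧
      (∀ (i : ℕ) (α : O⟦(i : ℤ)⟧ ⟶ s.1), α ≫ s.2 = 0 → α ≫ φ = 0) ∧
      (∀ A : ObjectProperty C, IsAisle A → A O → A s.1 → A s'.1) := by
  obtain ⟨E, p⟩ := s
  let J : Type v := Σ i : ULift.{v} ℕ, {α : O⟦(i.down : ℤ)⟧ ⟶ E // α ≫ p = 0}
  let m : (∐ fun j : J => O⟦(j.1.down : ℤ)⟧) ⟶ E := Sigma.desc (fun j : J => j.2.1)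
  have hm : m ≫ p = 0 := by
    apply Sigma.hom_ext
    intro j
    simp [m, j.2.2]
  obtain ⟨E', φ, δ, hT⟩ := distinguished_cocone_triangle m
  obtain ⟨p', hp'⟩ : ∃ p' : E' ⟶ X, p = φ ≫ p' := Triangle.yoneda_exact₂ _ hT p hm
  refine ⟨⟨E', p'⟩, φ, hp'.symm, ?_, ?_⟩
  · intro i α hα
    have h1 : α = Sigma.ι (fun j : J => O⟦(j.1.down : ℤ)⟧) ⟨⟨i⟩, α, hα⟩ ≫ m := by simp [m]
    have h2 : m ≫ φ = 0 := comp_distTriang_mor_zero₁₂ _ hT
    rw [h1, Category.assoc, h2, comp_zero]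
  · intro A hA hO hE
    exact hA.ext₃ _ hT (hA.coprod _ _ (fun j => hA.shiftNat hO _)) hE

/-- the truncation triangle -/
theorem exists_trunc (hA : AffUnit e O a b) {X : C} (hX : Ann e X) :
    ∃ (E Z : C) (p : E ⟶ X) (q : X ⟶ Z) (w : Z ⟶ E⟦(1 : ℤ)⟧),
      Triangle.mk p q w ∈ distTriang C ∧
      (∀ A : ObjectProperty C, IsAisle A → A O → A E) ∧ VV e O Z := by
  classical
  have hU := hA.toLocUnit
  choose nx φ h1 h2 h3 using trunc_step (C := C) O (X := X)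
  let J : Type v := Σ i : ULift.{v} ℕ, (O⟦(i.down : ℤ)⟧ ⟶ X)
  let s0 : Σ E : C, (E ⟶ X) := ⟨∐ fun j : J => O⟦(j.1.down : ℤ)⟧, Sigma.desc (fun j : J => j.2)⟩
  let sq : ℕ → Σ E : C, (E ⟶ X) := fun n => Nat.rec s0 (fun _ s => nx s) n
  let F : ℕ → C := fun n => (sq n).1
  let tr : ∀ n, F n ⟶ F (n + 1) := fun n => φ (sq n)
  have htr1 : ∀ n, tr n ≫ (sq (n + 1)).2 = (sq n).2 := fun n => h1 (sq n)
  have htr2 : ∀ n (i : ℕ) (α : O⟦(i : ℤ)⟧ ⟶ F n), α ≫ (sq n).2 = 0 → α ≫ tr n = 0 :=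
    fun n i α hα => h2 (sq n) i α hα
  have hF : ∀ A : ObjectProperty C, IsAisle A → A O → ∀ n, A (F n) := by
    intro A hAA hO n
    induction n with
    | zero => exact hAA.coprod _ _ (fun j => hAA.shiftNat hO _)
    | succ n ih => exact h3 (sq n) A hAA hO ih
  have hFe : ∀ n, Ann e (F n) := hF _ (isLocIdeal_ann e).toIsLoc.isAisle hA.ann
  obtain ⟨H, ι, hH⟩ := exists_isHoc F tr
  have hHe : ∀ A : ObjectProperty C, IsAisle A → A O → A H :=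
    fun A hAA hO => hH.mem hAA (hF A hAA hO)
  have hHc : Conn e O H := hHe _ (isAisle_conn hU) (conn_unit hA)
  obtain ⟨p, hp⟩ := hH.desc (fun n => (sq n).2) htr1
  obtain ⟨Z, q, w, hT⟩ := distinguished_cocone_triangle p
  refine ⟨H, Z, p, q, w, hT, hHe, (isLocIdeal_ann e).toIsLoc.ext₃ _ hT hHc.1 hX, ?_⟩
  -- injectivity
  have hinj : ∀ (i : ℕ) (α : O⟦(i : ℤ)⟧ ⟶ H), α ≫ p = 0 → α = 0 := by
    intro i α hα
    obtain ⟨n, α', rfl⟩ := hU.hoc_factor hH hFe α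
    rw [Category.assoc, hp] at hα
    rw [← hH.comm n, ← Category.assoc, htr2 n i α' hα, zero_comp]
  -- surjectivity
  have hsurj : ∀ (i : ℕ) (β : O⟦(i : ℤ)⟧ ⟶ X), ∃ α : O⟦(i : ℤ)⟧ ⟶ H, α ≫ p = β := by
    intro i β
    obtain ⟨α, hα⟩ : ∃ α : O⟦(i : ℤ)⟧ ⟶ F 0, α ≫ (sq 0).2 = β :=
      ⟨Sigma.ι (fun j : J => O⟦(j.1.down : ℤ)⟧) ⟨⟨i⟩, β⟩, Sigma.ι_desc _ _⟩
    exact ⟨α ≫ ι 0, by rw [Category.assoc, hp, hα]⟩
  have h31 : w ≫ p⟦(1 : ℤ)⟧' = 0 := comp_distTriang_mor_zero₃₁ _ hT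
  have hpq : p ≫ q = 0 := comp_distTriang_mor_zero₁₂ _ hT
  intro k hk ψ
  obtain ⟨i, rfl⟩ := Int.eq_ofNat_of_zero_le hk
  have hw : ψ ≫ w = 0 := by
    cases i with
    | zero => exact vn_shift1.2 (hHc.2 _ (by norm_num)) _
    | succ i =>
      let j : O⟦((i + 1 : ℕ) : ℤ)⟧ ≅ (O⟦(i : ℤ)⟧)⟦(1 : ℤ)⟧ :=
        (shiftFunctorAdd' C (i : ℤ) 1 ((i + 1 : ℕ) : ℤ) (by push_cast; rfl)).app O
      obtain ⟨χ, hχ⟩ := (shiftFunctor C (1 : ℤ)).map_surjective (j.inv ≫ ψ ≫ w)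
      have h4 : χ ≫ p = 0 := by
        apply (shiftFunctor C (1 : ℤ)).map_injective
        rw [Functor.map_comp, hχ, Category.assoc, Category.assoc, h31, comp_zero, comp_zero,
          Functor.map_zero]
      rw [hinj i χ h4, Functor.map_zero] at hχ
      rw [← cancel_epi j.inv, ← hχ, comp_zero]
  obtain ⟨β, hβ⟩ : ∃ β : O⟦(i : ℤ)⟧ ⟶ X, ψ = β ≫ q := Triangle.coyoneda_exact₃ _ hT ψ hw
  obtain ⟨α, hα⟩ := hsurj i β
  rw [hβ, ← hα, Category.assoc, hpq, comp_zero]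

/-- connective objects are built from `O` -/
lemma Conn.mem (hA : AffUnit e O a b) {X : C} (hX : Conn e O X) {A : ObjectProperty C}
    (hAA : IsAisle A) (hO : A O) : A X := by
  obtain ⟨E, Z, p, q, w, hT, hE, hZ⟩ := exists_trunc hA hX.1
  have hEc : Conn e O E := hE _ (isAisle_conn hA.toLocUnit) (conn_unit hA)
  have hZ0 : IsZero Z := by
    apply hA.gen Z hZ.1
    intro k
    rcases lt_or_ge k 0 with h | h
    · exact vn_ext₃ _ hT (hX.2 k h) (hEc.2 _ (by omega))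
    · exact hZ.2 k h
  have : IsIso p := (Triangle.isZero₃_iff_isIso₁ _ hT).1 hZ0
  exact hAA.iso (asIso p) (hE A hAA hO)

lemma VV.shift_neg {Z : C} (hZ : VV e O Z) : VV e O (Z⟦(-1 : ℤ)⟧) :=
  ⟨(isLocIdeal_ann e).shift _ _ hZ.1, fun k hk => (vn_shift (m := k + 1) (by ring)).2
    (hZ.2 _ (by omega))⟩

lemma VV.iso {Z Z' : C} (i : Z ≅ Z') (hZ : VV e O Z) : VV e O Z' :=
  ⟨(isLocIdeal_ann e).iso i hZ.1, fun k hk => vn_iso i (hZ.2 k hk)⟩

/-- orthogonality -/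
lemma Conn.orth (hA : AffUnit e O a b) {X Z : C} (hX : Conn e O X) (hZ : VV e O Z)
    (φ : X ⟶ Z) : φ = 0 := by
  have key : IsAisle (fun X : C => ∀ Z : C, VV e O Z → ∀ φ : X ⟶ Z, φ = 0) :=
    { iso := fun i h Z hZ φ => by
        rw [← cancel_epi i.hom, h Z hZ (i.hom ≫ φ), comp_zero]
      shift1 := fun X h Z hZ φ => by
        let j : Z ≅ (Z⟦(-1 : ℤ)⟧)⟦(1 : ℤ)⟧ := (shiftFunctorCompIsoId C (-1) 1 (by norm_num)).symm.app Z
        obtain ⟨χ, hχ⟩ := (shiftFunctor C (1 : ℤ)).map_surjective (φ ≫ j.hom)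
        rw [h _ hZ.shift_neg χ, Functor.map_zero] at hχ
        rw [← cancel_mono j.hom, ← hχ, zero_comp]
      ext₂ := fun T hT h₁ h₃ Z hZ φ => by
        obtain ⟨ψ, hψ⟩ := T.yoneda_exact₂ hT φ (h₁ Z hZ _)
        rw [hψ, h₃ Z hZ ψ, comp_zero]
      coprod := fun J X h Z hZ φ => by
        apply Sigma.hom_ext
        intro j
        rw [h j Z hZ (Sigma.ι X j ≫ φ), comp_zero] }
  refine hX.mem hA key (fun Z hZ φ => ?_) Z hZ φ
  exact vn_zero.1 (hZ.2 0 le_rfl) φ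

lemma Conn.tensor (hA : AffUnit e O a b) {X Y : C} (hX : Conn e O X) (hY : Conn e O Y) :
    Conn e O (X ⊗ Y) := by
  have hc := isAisle_conn hA.toLocUnit
  have key : IsAisle (fun Y : C => Conn e O (X ⊗ Y)) :=
    { iso := fun i h => hc.iso (whiskerLeftIso X i) h
      shift1 := fun Y h => hc.iso (((tensorLeft X).commShiftIso (1 : ℤ)).app Y).symm
        (hc.shift1 _ h)
      ext₂ := fun T hT h₁ h₃ => hc.ext₂ _ ((tensorLeft X).map_distinguished T hT) h₁ h₃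
      coprod := fun J Y h => hc.iso (PreservesCoproduct.iso (tensorLeft X) Y).symm
        (hc.coprod J _ h) }
  exact hY.mem hA key (hc.iso (hA.m hX.1).symm hX)

lemma Coc.iso {Z Z' : C} (i : Z ≅ Z') (hZ : Coc e O Z) : Coc e O Z' :=
  ⟨(isLocIdeal_ann e).iso i hZ.1, fun k hk => vn_iso i (hZ.2 k hk)⟩

lemma Coc.shift_neg {Z : C} (hZ : Coc e O Z) : VV e O (Z⟦(-1 : ℤ)⟧) :=
  ⟨(isLocIdeal_ann e).shift _ _ hZ.1, fun k hk => (vn_shift (m := k + 1) (by ring)).2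
    (hZ.2 _ (by omega))⟩

lemma Conn.orth' (hA : AffUnit e O a b) {X Z : C} (hX : Conn e O X) (hZ : Coc e O Z)
    (φ : X⟦(1 : ℤ)⟧ ⟶ Z) : φ = 0 := by
  let j : Z ≅ (Z⟦(-1 : ℤ)⟧)⟦(1 : ℤ)⟧ := (shiftFunctorCompIsoId C (-1) 1 (by norm_num)).symm.app Z
  obtain ⟨χ, hχ⟩ := (shiftFunctor C (1 : ℤ)).map_surjective (φ ≫ j.hom)
  rw [hX.orth hA hZ.shift_neg χ, Functor.map_zero] at hχ
  rw [← cancel_mono j.hom, ← hχ, zero_comp]

/-- a connective object is covered by a coproduct of copies of `O` -/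
lemma Conn.cover (hA : AffUnit e O a b) {W : C} (hW : Conn e O W) :
    ∃ (B : C) (q : W ⟶ B⟦(1 : ℤ)⟧) (w : B⟦(1 : ℤ)⟧ ⟶ (∐ fun _ : (O ⟶ W) => O)⟦(1 : ℤ)⟧),
      Conn e O B ∧ Triangle.mk (Sigma.desc fun x : (O ⟶ W) => x) q w ∈ distTriang C := by
  have hU := hA.toLocUnit
  have hc := isAisle_conn hU
  have hS : Conn e O (∐ fun _ : (O ⟶ W) => O) := hc.coprod _ _ (fun _ => conn_unit hA)
  obtain ⟨Z, q, w, hT⟩ := distinguished_cocone_triangle (Sigma.desc fun x : (O ⟶ W) => x)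
  have hZ : Conn e O Z := hc.ext₃ _ hT hS hW
  have hZ0 : Vn O 0 Z := by
    rw [vn_zero]
    intro φ
    have h1 : φ ≫ w = 0 := vn_zero.1 (vn_shift1.2 (hS.2 _ (by norm_num))) _
    obtain ⟨x, hx⟩ : ∃ x : O ⟶ W, φ = x ≫ q := Triangle.coyoneda_exact₃ _ hT φ h1
    have h2 : (Sigma.desc fun x : (O ⟶ W) => x) ≫ q = 0 := comp_distTriang_mor_zero₁₂ _ hT
    have h3 := Sigma.ι (fun _ : (O ⟶ W) => O) x ≫= h2
    rw [← Category.assoc, Sigma.ι_desc, comp_zero] at h3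
    rw [hx, h3]
  let j : Z ≅ (Z⟦(-1 : ℤ)⟧)⟦(1 : ℤ)⟧ := (shiftFunctorCompIsoId C (-1) 1 (by norm_num)).symm.app Z
  refine ⟨Z⟦(-1 : ℤ)⟧, q ≫ j.hom, j.inv ≫ w, ⟨(isLocIdeal_ann e).shift _ _ hZ.1, ?_⟩, ?_⟩
  · intro k hk
    refine (vn_shift (m := k + 1) (by ring)).2 ?_
    rcases lt_or_ge (k + 1) 0 with h | h
    · exact hZ.2 _ h
    · obtain rfl : k = -1 := by omega
      exact hZ0
  · refine isomorphic_distinguished _ hT _ ?_
    refine Triangle.isoMk _ _ (Iso.refl _) (Iso.refl _) j.symm ?_ ?_ ?_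
    · change (Sigma.desc fun x : (O ⟶ W) => x) ≫ 𝟙 _ = 𝟙 _ ≫ (Sigma.desc fun x : (O ⟶ W) => x)
      simp
    · change (q ≫ j.hom) ≫ j.inv = 𝟙 _ ≫ q
      simp
    · change (j.inv ≫ w) ≫ (shiftFunctor C (1 : ℤ)).map (𝟙 _) = j.inv ≫ w
      simp

/-- a morphism from `X ⊗ W` to a coconnective object, for connective `X` and `W`, is determined
by its restrictions along morphisms `O ⟶ W` -/
lemma Conn.t5 (hA : AffUnit e O a b) {X W Z : C} (hX : Conn e O X) (hW : Conn e O W)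
    (hZ : Coc e O Z) (f : X ⊗ W ⟶ Z) (h : ∀ x : O ⟶ W, X ◁ x ≫ f = 0) : f = 0 := by
  obtain ⟨B, q, w, hB, hT⟩ := hW.cover hA
  have hT' := (tensorLeft X).map_distinguished _ hT
  have h0 : X ◁ (Sigma.desc fun x : (O ⟶ W) => x) ≫ f = 0 := by
    let i := PreservesCoproduct.iso (tensorLeft X) (fun _ : (O ⟶ W) => O)
    rw [← cancel_epi i.inv, comp_zero]
    apply Sigma.hom_ext
    intro x
    rw [comp_zero, ← Category.assoc]
    have h1 : Sigma.ι (fun _ : (O ⟶ W) => (tensorLeft X).obj O) x ≫ i.inv =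
        X ◁ (Sigma.ι (fun _ : (O ⟶ W) => O) x) := by
      simp only [i, PreservesCoproduct.inv_hom]
      exact ι_comp_sigmaComparison (tensorLeft X) _ x
    rw [h1, ← Category.assoc, ← MonoidalCategory.whiskerLeft_comp, Sigma.ι_desc, h x]
  obtain ⟨g, hg⟩ : ∃ g : X ⊗ B⟦(1 : ℤ)⟧ ⟶ Z, f = X ◁ q ≫ g :=
    Triangle.yoneda_exact₂ _ hT' f h0
  let j : X ⊗ B⟦(1 : ℤ)⟧ ≅ (X ⊗ B)⟦(1 : ℤ)⟧ := ((tensorLeft X).commShiftIso (1 : ℤ)).app B
  have h2 : g = 0 := by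
    rw [← cancel_epi j.inv, (hX.tensor hA hB).orth' hA hZ (j.inv ≫ g), comp_zero]
  rw [hg, h2, comp_zero]

/-- a morphism from a connective object to a coconnective object is determined by its effect
on `π₀` -/
lemma Conn.ext (hA : AffUnit e O a b) {W Z : C} (hW : Conn e O W)
    (hZ : Coc e O Z) (f : W ⟶ Z) (h : ∀ x : O ⟶ W, x ≫ f = 0) : f = 0 := by
  obtain ⟨B, q, w, hB, hT⟩ := hW.cover hA
  have h0 : (Sigma.desc fun x : (O ⟶ W) => x) ≫ f = 0 := by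
    apply Sigma.hom_ext
    intro x
    rw [← Category.assoc, Sigma.ι_desc, h x, comp_zero]
  obtain ⟨g, hg⟩ : ∃ g : B⟦(1 : ℤ)⟧ ⟶ Z, f = q ≫ g := Triangle.yoneda_exact₂ _ hT f h0
  rw [hg, hB.orth' hA hZ g, comp_zero]

end

end

end Pool.Agent.Helper609_TT
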