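import Pool.Agent.Helper609_TT.Hoc

/-!
# The unit of a local category
-/

namespace Pool.Agent.Helper609_TT

open CategoryTheory CategoryTheory.Limits CategoryTheory.Pretriangulated
open CategoryTheory.MonoidalCategory

universe v u u'

section

variable {C : Type u} [Category.{v} C] [Preadditive C] [HasZeroObject C]
    [HasShift C ℤ] [∀ n : ℤ, (shiftFunctor C n).Additive] [Pretriangulated C]

/-- `π_k X = Hom(O⟦k⟧, X)` vanishes -/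
def Vn (O : C) (k : ℤ) (X : C) : Prop := ∀ φ : O⟦k⟧ ⟶ X, φ = 0

lemma vn_iso {O X Y : C} (i : X ≅ Y) {k : ℤ} (h : Vn O k X) : Vn O k Y := by
  intro φ
  have := h (φ ≫ i.inv)
  rw [← cancel_mono i.inv, this, zero_comp]

lemma vn_of_isZero {O X : C} (h : IsZero X) (k : ℤ) : Vn O k X := fun _ => h.eq_of_tgt _ _

lemma vn_shift {O X : C} {k n m : ℤ} (h : m + n = k) : Vn O k (X⟦n⟧) ↔ Vn O m X := by
  let i : O⟦k⟧ ≅ (O⟦m⟧)⟦n⟧ := (shiftFunctorAdd' C m n k h).app O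
  constructor
  · intro hV φ
    apply (shiftFunctor C n).map_injective
    rw [Functor.map_zero, ← cancel_epi i.hom, hV (i.hom ≫ _), comp_zero]
  · intro hV φ
    obtain ⟨ψ, hψ⟩ := (shiftFunctor C n).map_surjective (i.inv ≫ φ)
    rw [hV ψ, Functor.map_zero] at hψ
    rw [← cancel_epi i.inv, ← hψ, comp_zero]

lemma vn_zero {O X : C} : Vn O 0 X ↔ ∀ φ : O ⟶ X, φ = 0 := by
  let i : O⟦(0 : ℤ)⟧ ≅ O := (shiftFunctorZero C ℤ).app O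
  constructor
  · intro hV φ
    rw [← cancel_epi i.hom, hV (i.hom ≫ φ), comp_zero]
  · intro hV φ
    rw [← cancel_epi i.inv, hV (i.inv ≫ φ), comp_zero]

lemma vn_retract {O X Y : C} (r : Retract X Y) {k : ℤ} (h : Vn O k Y) : Vn O k X := by
  intro φ
  have := h (φ ≫ r.i)
  rw [← Category.comp_id φ, ← r.retract, ← Category.assoc, this, zero_comp]

lemma vn_ext₂ {O : C} {k : ℤ} (T : Triangle C) (hT : T ∈ distTriang C) (h₁ : Vn O k T.obj₁)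
    (h₃ : Vn O k T.obj₃) : Vn O k T.obj₂ := by
  intro φ
  obtain ⟨ψ, hψ⟩ := T.coyoneda_exact₂ hT φ (h₃ _)
  rw [hψ, h₁ ψ, zero_comp]

lemma vn_ext₃ {O : C} {k : ℤ} (T : Triangle C) (hT : T ∈ distTriang C)
    (h₂ : Vn O k T.obj₂) (h₁ : Vn O (k - 1) T.obj₁) : Vn O k T.obj₃ :=
  vn_ext₂ _ (rot_of_distTriang _ hT) h₂ ((vn_shift (by ring)).2 h₁)

lemma vn_ext₁ {O : C} {k : ℤ} (T : Triangle C) (hT : T ∈ distTriang C)
    (h₃ : Vn O (k + 1) T.obj₃) (h₂ : Vn O k T.obj₂) : Vn O k T.obj₁ :=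
  vn_ext₂ _ (inv_rot_of_distTriang _ hT) ((vn_shift (by ring)).2 h₃) h₂

end

section

variable {C : Type u} [Category.{v} C] [Preadditive C] [HasZeroObject C]
    [HasShift C ℤ] [∀ n : ℤ, (shiftFunctor C n).Additive] [Pretriangulated C]
    [MonoidalCategory C] [SymmetricCategory C] [RigidlyCompactlyGenerated C]

/-- an idempotent triangle `e ⟶ 𝟙 ⟶ O` -/
structure LocUnit (e O : C) (a : e ⟶ 𝟙_ C) (b : 𝟙_ C ⟶ O) : Prop where
  tri : ∃ d : O ⟶ e⟦(1 : ℤ)⟧, Triangle.mk a b d ∈ distTriang C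
  ann : Ann e O

namespace LocUnit

variable {e O : C} {a : e ⟶ 𝟙_ C} {b : 𝟙_ C ⟶ O}

lemma annO (hU : LocUnit e O a b) : Ann O e := ann_symm hU.ann

lemma isIso_a (hU : LocUnit e O a b) {Z : C} (hZ : Ann O Z) : IsIso (Z ◁ a) := by
  obtain ⟨d, hT⟩ := hU.tri
  have hT' := (tensorLeft Z).map_distinguished _ hT
  have h0 : IsZero (Z ⊗ O) := ann_symm hZ
  exact (Triangle.isZero₃_iff_isIso₁ _ hT').1 h0

lemma isIso_b (hU : LocUnit e O a b) {X : C} (hX : Ann e X) : IsIso (X ◁ b) := by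
  obtain ⟨d, hT⟩ := hU.tri
  have hT' := (tensorLeft X).map_distinguished _ hT
  have h0 : IsZero (X ⊗ e) := ann_symm hX
  exact (Triangle.isZero₁_iff_isIso₂ _ hT').1 h0

lemma orth (hU : LocUnit e O a b) {Z X : C} (hZ : Ann O Z) (hX : Ann e X) (φ : Z ⟶ X) :
    φ = 0 := by
  have := hU.isIso_a hZ
  have h1 : Z ◁ a ≫ φ ▷ (𝟙_ C) = φ ▷ e ≫ X ◁ a := whisker_exchange φ a
  have h0 : IsZero (X ⊗ e) := ann_symm hX
  rw [h0.eq_of_tgt (φ ▷ e) 0, zero_comp] at h1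
  have h2 : φ ▷ (𝟙_ C) = 0 := by rw [← cancel_epi (Z ◁ a), h1, comp_zero]
  have h3 : φ = (ρ_ Z).inv ≫ φ ▷ (𝟙_ C) ≫ (ρ_ X).hom := by simp
  rw [h3, h2]
  simp

lemma lift (hU : LocUnit e O a b) {X : C} (hX : Ann e X) (ψ : 𝟙_ C ⟶ X) :
    ∃ φ : O ⟶ X, b ≫ φ = ψ := by
  obtain ⟨d, hT⟩ := hU.tri
  obtain ⟨φ, hφ⟩ : ∃ φ : O ⟶ X, ψ = b ≫ φ :=
    Triangle.yoneda_exact₂ _ hT ψ (hU.orth hU.annO hX _)
  exact ⟨φ, hφ.symm⟩

lemma uniq (hU : LocUnit e O a b) {X : C} (hX : Ann e X) {φ φ' : O ⟶ X}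
    (h : b ≫ φ = b ≫ φ') : φ = φ' := by
  obtain ⟨d, hT⟩ := hU.tri
  rw [← sub_eq_zero]
  obtain ⟨χ, hχ⟩ : ∃ χ : e⟦(1 : ℤ)⟧ ⟶ X, φ - φ' = d ≫ χ :=
    Triangle.yoneda_exact₃ _ hT (φ - φ') (by
      change b ≫ (φ - φ') = 0
      rw [Preadditive.comp_sub, h, sub_self])
  rw [hχ, hU.orth ((isLocIdeal_ann O).shift _ _ hU.annO) hX χ, comp_zero]

lemma liftT (hU : LocUnit e O a b) (W : C) {X : C} (hX : Ann e X) (ψ : W ⊗ 𝟙_ C ⟶ X) :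
    ∃ φ : W ⊗ O ⟶ X, W ◁ b ≫ φ = ψ := by
  obtain ⟨d, hT⟩ := hU.tri
  have hT' := (tensorLeft W).map_distinguished _ hT
  obtain ⟨φ, hφ⟩ : ∃ φ : W ⊗ O ⟶ X, ψ = W ◁ b ≫ φ :=
    Triangle.yoneda_exact₂ _ hT' ψ (hU.orth ((isLocIdeal_ann O).tensor W e hU.annO) hX _)
  exact ⟨φ, hφ.symm⟩

lemma uniqT (hU : LocUnit e O a b) (W : C) {X : C} (hX : Ann e X) {φ φ' : W ⊗ O ⟶ X}
    (h : W ◁ b ≫ φ = W ◁ b ≫ φ') : φ = φ' := by
  obtain ⟨d, hT⟩ := hU.tri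
  have hT' := (tensorLeft W).map_distinguished _ hT
  rw [← sub_eq_zero]
  obtain ⟨χ, hχ⟩ : ∃ χ : (W ⊗ e)⟦(1 : ℤ)⟧ ⟶ X, φ - φ' =
      (W ◁ d ≫ ((tensorLeft W).commShiftIso (1 : ℤ)).hom.app e) ≫ χ :=
    Triangle.yoneda_exact₃ _ hT' (φ - φ') (by
      change W ◁ b ≫ (φ - φ') = 0
      rw [Preadditive.comp_sub, h, sub_self])
  rw [hχ, hU.orth ((isLocIdeal_ann O).shift _ _ ((isLocIdeal_ann O).tensor W e hU.annO)) hX χ,
    comp_zero]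

lemma lift_shift (hU : LocUnit e O a b) {X : C} (hX : Ann e X) {k : ℤ}
    (ψ : (𝟙_ C)⟦k⟧ ⟶ X) : ∃ φ : O⟦k⟧ ⟶ X, b⟦k⟧' ≫ φ = ψ := by
  let adj : shiftFunctor C k ⊣ shiftFunctor C (-k) := (shiftEquiv C k).toAdjunction
  obtain ⟨φ, hφ⟩ := hU.lift ((isLocIdeal_ann e).shift _ (-k) hX) (adj.homEquiv _ _ ψ)
  refine ⟨(adj.homEquiv _ _).symm φ, ?_⟩
  rw [← adj.homEquiv_naturality_left_symm, hφ, Equiv.symm_apply_apply]

lemma uniq_shift (hU : LocUnit e O a b) {X : C} (hX : Ann e X) {k : ℤ} {φ φ' : O⟦k⟧ ⟶ X}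
    (h : b⟦k⟧' ≫ φ = b⟦k⟧' ≫ φ') : φ = φ' := by
  let adj : shiftFunctor C k ⊣ shiftFunctor C (-k) := (shiftEquiv C k).toAdjunction
  apply (adj.homEquiv _ _).injective
  apply hU.uniq ((isLocIdeal_ann e).shift _ (-k) hX)
  rw [← adj.homEquiv_naturality_left, ← adj.homEquiv_naturality_left, h]

lemma vn_iff (hU : LocUnit e O a b) {X : C} (hX : Ann e X) {k : ℤ} :
    Vn O k X ↔ ∀ φ : (𝟙_ C)⟦k⟧ ⟶ X, φ = 0 := by
  constructor
  · intro h φ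
    obtain ⟨φ', rfl⟩ := hU.lift_shift hX φ
    rw [h φ', comp_zero]
  · intro h φ
    apply hU.uniq_shift hX
    rw [h (b⟦k⟧' ≫ φ), comp_zero]

/-- `O⟦k⟧` is compact relative to the local category -/
lemma cpt (hU : LocUnit e O a b) {J : Type v} {X : J → C} (hX : ∀ j, Ann e (X j)) {k : ℤ}
    (f : O⟦k⟧ ⟶ ∐ X) : ∃ (s : Finset J) (g : ∀ j, O⟦k⟧ ⟶ X j),
      f = ∑ j ∈ s, g j ≫ Sigma.ι X j := by
  obtain ⟨s, g, hg⟩ := isCpt_shift isCpt_unit k J X (b⟦k⟧' ≫ f)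
  choose g' hg' using fun j => hU.lift_shift (hX j) (g j)
  refine ⟨s, g', ?_⟩
  apply hU.uniq_shift ((isLocIdeal_ann e).coprod J X hX)
  rw [hg, Preadditive.comp_sum]
  refine Finset.sum_congr rfl (fun j _ => ?_)
  rw [← hg' j, Category.assoc]

lemma cpt₀ (hU : LocUnit e O a b) {J : Type v} {X : J → C} (hX : ∀ j, Ann e (X j))
    (f : O ⟶ ∐ X) : ∃ (s : Finset J) (g : ∀ j, O ⟶ X j),
      f = ∑ j ∈ s, g j ≫ Sigma.ι X j := by
  obtain ⟨s, g, hg⟩ := isCpt_unit J X (b ≫ f)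
  choose g' hg' using fun j => hU.lift (hX j) (g j)
  refine ⟨s, g', ?_⟩
  apply hU.uniq ((isLocIdeal_ann e).coprod J X hX)
  rw [hg, Preadditive.comp_sum]
  refine Finset.sum_congr rfl (fun j _ => ?_)
  rw [← hg' j, Category.assoc]

lemma vn_coprod (hU : LocUnit e O a b) {J : Type v} {X : J → C} (hX : ∀ j, Ann e (X j)) {k : ℤ}
    (h : ∀ j, Vn O k (X j)) : Vn O k (∐ X) := by
  intro f
  obtain ⟨s, g, rfl⟩ := hU.cpt hX f
  exact Finset.sum_eq_zero (fun j _ => by rw [h j (g j), zero_comp])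

lemma hoc_factor (hU : LocUnit e O a b) {F : ℕ → C} {φ : ∀ n, F n ⟶ F (n + 1)} {H : C}
    {ι : ∀ n, F n ⟶ H} (h : IsHoc F φ H ι) (hF : ∀ n, Ann e (F n)) {k : ℤ} (f : O⟦k⟧ ⟶ H) :
    ∃ (n : ℕ) (f' : O⟦k⟧ ⟶ F n), f = f' ≫ ι n := by
  obtain ⟨n, g, hg⟩ := h.factor (isCpt_shift isCpt_unit k) (b⟦k⟧' ≫ f)
  obtain ⟨f', hf'⟩ := hU.lift_shift (hF n) g
  refine ⟨n, f', ?_⟩
  apply hU.uniq_shift (h.mem (isLocIdeal_ann e).toIsLoc.isAisle hF)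
  rw [hg, ← hf', Category.assoc]

lemma hoc_factor₀ (hU : LocUnit e O a b) {F : ℕ → C} {φ : ∀ n, F n ⟶ F (n + 1)} {H : C}
    {ι : ∀ n, F n ⟶ H} (h : IsHoc F φ H ι) (hF : ∀ n, Ann e (F n)) (f : O ⟶ H) :
    ∃ (n : ℕ) (f' : O ⟶ F n), f = f' ≫ ι n := by
  obtain ⟨n, g, hg⟩ := h.factor isCpt_unit (b ≫ f)
  obtain ⟨f', hf'⟩ := hU.lift (hF n) g
  refine ⟨n, f', ?_⟩
  apply hU.uniq (h.mem (isLocIdeal_ann e).toIsLoc.isAisle hF)
  rw [hg, ← hf', Category.assoc]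

lemma hoc_vn (hU : LocUnit e O a b) {F : ℕ → C} {φ : ∀ n, F n ⟶ F (n + 1)} {H : C}
    {ι : ∀ n, F n ⟶ H} (h : IsHoc F φ H ι) (hF : ∀ n, Ann e (F n)) {k : ℤ} {N : ℕ}
    (hV : ∀ n, N ≤ n → Vn O k (F n)) : Vn O k H := by
  intro f
  obtain ⟨n, f', rfl⟩ := hU.hoc_factor h hF f
  rw [← h.comm_trans n N, ← Category.assoc, hV (n + N) (by omega) (f' ≫ _), zero_comp]

lemma hoc_vanish₀ (hU : LocUnit e O a b) {F : ℕ → C} {φ : ∀ n, F n ⟶ F (n + 1)} {H : C}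
    {ι : ∀ n, F n ⟶ H} (h : IsHoc F φ H ι) (hF : ∀ n, Ann e (F n)) (n : ℕ) (f : O ⟶ F n)
    (h0 : f ≫ ι n = 0) : ∃ k, f ≫ trans F φ n k = 0 := by
  obtain ⟨k, hk⟩ := h.vanish isCpt_unit n (b ≫ f) (by rw [Category.assoc, h0, comp_zero])
  refine ⟨k, ?_⟩
  apply hU.uniq (hF _)
  rw [← Category.assoc, hk, comp_zero]

/-! ### the isomorphism `X ⊗ O ≅ X` -/

/-- the isomorphism `X ⊗ O ≅ X` -/
noncomputable def m (hU : LocUnit e O a b) {X : C} (hX : Ann e X) : X ⊗ O ≅ X :=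
  letI := hU.isIso_b hX
  (asIso (X ◁ b)).symm ≪≫ ρ_ X

lemma m_inv (hU : LocUnit e O a b) {X : C} (hX : Ann e X) :
    (hU.m hX).inv = (ρ_ X).inv ≫ X ◁ b := by
  simp [m]

lemma b_m (hU : LocUnit e O a b) {X : C} (hX : Ann e X) :
    X ◁ b ≫ (hU.m hX).hom = (ρ_ X).hom := by
  letI := hU.isIso_b hX
  simp [m]

lemma m_nat (hU : LocUnit e O a b) {X Y : C} (hX : Ann e X) (hY : Ann e Y) (f : X ⟶ Y) :
    f ▷ O ≫ (hU.m hY).hom = (hU.m hX).hom ≫ f := by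
  have := hU.isIso_b hX
  rw [← cancel_epi (X ◁ b), ← Category.assoc, ← Category.assoc, hU.b_m, whisker_exchange,
    Category.assoc, hU.b_m, rightUnitor_naturality]

lemma minv_nat (hU : LocUnit e O a b) {X Y : C} (hX : Ann e X) (hY : Ann e Y) (f : X ⟶ Y) :
    f ≫ (hU.m hY).inv = (hU.m hX).inv ≫ f ▷ O := by
  rw [← cancel_mono (hU.m hY).hom, Category.assoc, Iso.inv_hom_id, Category.comp_id,
    Category.assoc, hU.m_nat hX hY, Iso.inv_hom_id_assoc]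

lemma annOO (hU : LocUnit e O a b) : Ann e O := hU.ann

/-- left and right multiplications on `O ⊗ O` agree -/
lemma O_whisker (hU : LocUnit e O a b) {X : C} (r : O ⟶ O) (x : O ⟶ X) :
    (hU.m hU.annOO).inv ≫ O ◁ r ≫ (hU.m hU.annOO).hom ≫ x = r ≫ x := by
  rw [← Category.assoc, ← Category.assoc]
  congr 1
  apply hU.uniq hU.annOO
  have h1 : b ≫ (ρ_ O).inv = (λ_ (𝟙_ C)).inv ≫ b ▷ (𝟙_ C) := by
    rw [unitors_inv_equal, rightUnitor_inv_naturality]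
  have h2 : b ▷ (𝟙_ C) ≫ O ◁ b ≫ O ◁ r = (𝟙_ C) ◁ (b ≫ r) ≫ b ▷ O := by
    rw [← MonoidalCategory.whiskerLeft_comp, whisker_exchange]
  have h3 : (λ_ (𝟙_ C)).inv ≫ (𝟙_ C) ◁ (b ≫ r) = (b ≫ r) ≫ (λ_ O).inv := by
    rw [leftUnitor_inv_naturality]
  have h4 : b ▷ O ≫ (hU.m hU.annOO).hom = (λ_ O).hom := by
    have h5 : (λ_ O).inv ≫ b ▷ O ≫ (hU.m hU.annOO).hom = 𝟙 O := by
      apply hU.uniq hU.annOO
      have h6 : b ≫ (λ_ O).inv = (ρ_ (𝟙_ C)).inv ≫ (𝟙_ C) ◁ b := by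
        rw [← unitors_inv_equal, leftUnitor_inv_naturality]
      rw [← Category.assoc, h6, Category.assoc, ← Category.assoc ((𝟙_ C) ◁ b), whisker_exchange,
        Category.assoc, hU.b_m, rightUnitor_naturality, Iso.inv_hom_id_assoc, Category.comp_id]
    rw [← cancel_epi (λ_ O).inv, h5, Iso.inv_hom_id]
  rw [hU.m_inv]
  simp only [Category.assoc]
  rw [← Category.assoc b, h1, Category.assoc, ← Category.assoc (O ◁ b), ← Category.assoc (b ▷ _),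
    h2, Category.assoc, h4, ← Category.assoc, h3, Category.assoc, Iso.inv_hom_id,
    Category.comp_id]

lemma act (hU : LocUnit e O a b) {X : C} (hX : Ann e X) (r : O ⟶ O) (x : O ⟶ X) :
    x ≫ (hU.m hX).inv ≫ X ◁ r ≫ (hU.m hX).hom = r ≫ x := by
  rw [← Category.assoc, hU.minv_nat hU.annOO hX, Category.assoc, ← Category.assoc (x ▷ O),
    ← whisker_exchange, Category.assoc, hU.m_nat hU.annOO hX]
  exact hU.O_whisker r x

/-- the endomorphism ring of `O` is commutative -/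
lemma comm (hU : LocUnit e O a b) (r s : O ⟶ O) : r ≫ s = s ≫ r := by
  have h1 := hU.act hU.annOO r s
  have h2 := hU.act hU.annOO r (𝟙 O)
  rw [Category.id_comp, Category.comp_id] at h2
  rw [← h1, h2]

end LocUnit

end

end Pool.Agent.Helper609_TT
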